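import Pool.Agent.H916R2.Defs

/-!
# Eigenlines of diagonal hypersurfaces over the rational numbers

Let `c_0, ..., c_(n+1)` be nonzero integers (`n` even) and let `X` be the diagonal hypersurface
`c_0 * x_0 ^ m + ... + c_(n+1) * x_(n+1) ^ m = 0`. Over the field `K` of `m`-th roots of unity its
primitive middle cohomology splits into lines `V(a)`, indexed by the tuples `a` of `n + 2` nonzero
residues modulo `m` with sum zero. Weil: the Frobenius element of a prime `P` of `K` with residue
field `F` of `q` elements acts on `V(a)` as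
`q⁻¹ * ∏ g(χ ^ a_i) / χ ^ a_i (c_i)`, where `χ` is the character of order `m` of `F` attached to
`P`.
-/

namespace Pool.Agent.H916K

/-- The Galois group of `K` acts trivially on the line `V(a)(n/2)`: for all but finitely many primes
of `K` the Frobenius eigenvalue on `V(a)` is `q ^ (n/2)`. The multiset `s` consists of the `n + 2`
pairs `(a_i, c_i)`. The fields `F` are the residue fields of the primes of `K` above `ℓ`: they have
`ℓ ^ f` elements, where `f` is the order of `ℓ` modulo `m`. -/
def RationalClass (m : ℕ) (s : Multiset (ZMod m × ℤ)) : Prop :=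
  ∃ N : ℕ, ∀ ℓ : ℕ, N < ℓ → ℓ.Prime → ∀ (F : Type) [Field F] [Fintype F],
    Fintype.card F = ℓ ^ orderOf (ℓ : ZMod m) → ∀ (χ : MulChar F ℂ) (ψ : AddChar F ℂ),
    orderOf χ = m → ψ ≠ 1 →
    (s.map fun z => gaussSum (χ ^ z.1.val) ψ).prod =
      (Fintype.card F : ℂ) ^ (Multiset.card s / 2) *
        (s.map fun z => (χ ^ z.1.val) (z.2 : F)).prod

end Pool.Agent.H916K
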