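import Pool.Agent.H916K.Level

/-!
# Reduction from level `2 * n` to level `n`, `n` odd
-/

namespace Pool.Agent.H916K

open Finset Pool.Agent.H916R2

lemma express {n m : ℕ} [NeZero n] [NeZero m] (hm : 2 * n = m) (hn : Odd n) (a : ZMod m) :
    ∃ y : ZMod n → ℤ, ∀ (Q : Type) [AddCommGroup Q] (c : ZMod m → Q), OddDist c →
      c a = ∑ b, y b • c (iota 2 b) := by
  classical
  have hsingle : ∀ (b : ZMod n) (Q : Type) [AddCommGroup Q] (c : ZMod m → Q),
      ∑ b', (Pi.single b (1 : ℤ) : ZMod n → ℤ) b' • c (iota 2 b') = c (iota 2 b) := by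
    intro b Q _ c
    rw [Finset.sum_eq_single b]
    · simp
    · intro b' _ hb; rw [Pi.single_eq_of_ne hb, zero_smul]
    · intro h; exact absurd (mem_univ b) h
  have hev : ∀ k : ℕ, ((2 * k : ℕ) : ZMod m) = iota 2 ((k : ℕ) : ZMod n) := by
    intro k; rw [iota_natCast hm]
  rcases Nat.even_or_odd' a.val with ⟨k, hk | hk⟩
  · refine ⟨Pi.single ((k : ℕ) : ZMod n) 1, fun Q _ c _ => ?_⟩
    rw [hsingle, ← hev, ← hk, ZMod.natCast_zmod_val]
  · obtain ⟨j, hj⟩ := hn
    refine ⟨Pi.single ((a.val : ℕ) : ZMod n) 1 - Pi.single ((k + j + 1 : ℕ) : ZMod n) 1,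
      fun Q _ c hc => ?_⟩
    have h1 : ∑ b, (Pi.single ((a.val : ℕ) : ZMod n) (1 : ℤ) - Pi.single ((k + j + 1 : ℕ) : ZMod n) 1 :
        ZMod n → ℤ) b • c (iota 2 b) = c (iota 2 ((a.val : ℕ) : ZMod n)) -
          c (iota 2 ((k + j + 1 : ℕ) : ZMod n)) := by
      simp only [Pi.sub_apply, sub_smul, sum_sub_distrib]
      rw [hsingle, hsingle]
    rw [h1, ← hev, ← hev]
    have h2 := hc.dist 2 n Nat.prime_two hm a
    rw [sum_range_succ, sum_range_one] at h2
    have h3 : a + ((0 : ℕ) : ZMod m) * (n : ZMod m) = a := by push_cast; ring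
    have h4 : a + ((1 : ℕ) : ZMod m) * (n : ZMod m) = ((2 * (k + j + 1) : ℕ) : ZMod m) := by
      have : a = ((a.val : ℕ) : ZMod m) := (ZMod.natCast_zmod_val a).symm
      rw [this, hk, hj]; push_cast; ring
    have h5 : ((2 : ℕ) : ZMod m) * a = ((2 * a.val : ℕ) : ZMod m) := by
      push_cast; rw [ZMod.natCast_zmod_val]
    rw [h3, h4, h5] at h2
    rw [← h2]; abel

theorem red_double {n m : ℕ} [NeZero n] [NeZero m] (hm : 2 * n = m) (hn : Odd n) : Red m n 2 := by
  classical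
  intro Q _ c hc x hx
  choose y hy using express (m := m) hm hn
  have key : ∀ (Q : Type) [AddCommGroup Q] (c : ZMod m → Q), OddDist c →
      ∑ a, x a • c a = ∑ b : ZMod n, (∑ a, x a * y a b) • c (iota 2 b) := by
    intro Q _ c hc
    have h1 : ∀ a, x a • c a = ∑ b, (x a * y a b) • c (iota 2 b) := by
      intro a
      rw [hy a Q c hc, smul_sum]
      refine sum_congr rfl fun b _ => ?_
      rw [smul_smul]
    rw [sum_congr rfl fun a _ => h1 a, sum_comm]
    refine sum_congr rfl fun b _ => ?_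
    rw [sum_smul]
  refine ⟨fun b => ∑ a, x a * y a b, ?_, key Q c hc⟩
  intro t'
  have hdvd : n ∣ m := Dvd.intro_left 2 hm
  obtain ⟨t, ht⟩ := ZMod.unitsMap_surjective hdvd t'
  have hodd : OddDist (fun a : ZMod m => saw ((t : ZMod m) * a)) := by
    refine ⟨?_, ?_, ?_⟩
    · intro a; simp only [mul_neg, saw_neg]
    · intro a ha
      apply saw_half
      rw [← mul_add, ha, mul_zero]
    · intro p d _ hpd a
      exact saw_dist_unit hpd t a
  have h1 := key ℤ _ hodd
  simp only [smul_eq_mul] at h1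
  rw [hx t] at h1
  have h3 : ∀ b : ZMod n, saw ((t : ZMod m) * iota 2 b) = 2 * saw ((t' : ZMod n) * b) := by
    intro b
    have h4 := saw_iota (k := 2) (m0 := n) (m := m) hm ((t' : ZMod n) * b)
    push_cast at h4
    rw [← h4]
    congr 1
    have ht' : (t' : ZMod n) = (((t : ZMod m).val : ℕ) : ZMod n) := by
      rw [← ht, ZMod.unitsMap_val]
      rw [ZMod.natCast_val]
    rw [ht', iota_natMul hm, ZMod.natCast_zmod_val]
  have h4 : (2 : ℤ) * ∑ b : ZMod n, (∑ a, x a * y a b) * saw ((t' : ZMod n) * b) = 0 := by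
    rw [mul_sum, h1]
    refine sum_congr rfl fun b _ => ?_
    rw [h3]; ring
  exact (mul_eq_zero.mp h4).resolve_left (by norm_num)

end Pool.Agent.H916K
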