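import Pool.Agent.H916K.Two

/-!
# Relations between odd distributions of level `4 * q`
-/

set_option linter.unusedSectionVars false

namespace Pool.Agent.H916K

open Finset

variable {q : ℕ} [Fact q.Prime]

lemma sum_four {Q : Type*} [AddCommMonoid Q] (f : ZMod 4 → Q) :
    ∑ u, f u = f 0 + f 1 + f 2 + f 3 := Fin.sum_univ_four f

/-- odd distributions of level `4 * q` in coordinates -/
structure D4 {q : ℕ} [NeZero q] {Q : Type*} [AddCommGroup Q] (c : ZMod 4 → ZMod q → Q) : Prop where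
  neg : ∀ u v, c (-u) (-v) = - c u v
  zero : c 0 0 = 0
  two : c 2 0 = 0
  d2 : ∀ u v, c u v + c (u + 2) v = c (2 * u) (2 * v)
  dq : ∀ u, ∑ v, c u v = c ((q : ZMod 4) * u) 0

/-- integral relations -/
def Rel4 {q : ℕ} [NeZero q] (x : ZMod 4 → ZMod q → ℤ) : Prop :=
  ∀ g : ZMod 4 → ZMod q → ℤ, D4 g → ∑ u, ∑ v, x u v * g u v = 0

/-- the odd part -/
def y4 (x : ZMod 4 → ZMod q → ℤ) (u : ZMod 4) (v : ZMod q) : ℤ := x u v - x (-u) (-v)

/-- a function on `ZMod 4` by its values -/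
def mk4 {Q : Type*} (a b c d : ZMod q → Q) (u : ZMod 4) : ZMod q → Q :=
  if u = 0 then a else if u = 1 then b else if u = 2 then c else d

lemma mk4_0 {Q : Type*} (a b c d : ZMod q → Q) : mk4 a b c d 0 = a := rfl
lemma mk4_1 {Q : Type*} (a b c d : ZMod q → Q) : mk4 a b c d 1 = b := rfl
lemma mk4_2 {Q : Type*} (a b c d : ZMod q → Q) : mk4 a b c d 2 = c := rfl
lemma mk4_3 {Q : Type*} (a b c d : ZMod q → Q) : mk4 a b c d 3 = d := rfl

lemma forall4 {P : ZMod 4 → Prop} (h0 : P 0) (h1 : P 1) (h2 : P 2) (h3 : P 3) : ∀ u, P u := by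
  intro u
  fin_cases u
  · exact h0
  · exact h1
  · exact h2
  · exact h3

lemma q_mod4 (hq2 : q ≠ 2) : ((q : ℕ) : ZMod 4) = 1 ∨ ((q : ℕ) : ZMod 4) = 3 := by
  have hodd : q % 2 = 1 := (Fact.out : q.Prime).eq_two_or_odd.resolve_left hq2
  have h1 : ((q : ℕ) : ZMod 4) = ((q % 4 : ℕ) : ZMod 4) := by simp
  rcases (by omega : q % 4 = 1 ∨ q % 4 = 3) with h | h
  · left; rw [h1, h]; rfl
  · right; rw [h1, h]; rfl

lemma D4.mk' {Q : Type*} [AddCommGroup Q] {a b c d : ZMod q → Q} (hq2 : q ≠ 2)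
    (n0 : ∀ v, a (-v) = - a v) (n1 : ∀ v, d (-v) = - b v) (n2 : ∀ v, c (-v) = - c v)
    (z0 : a 0 = 0) (z2 : c 0 = 0) (e0 : ∀ v, a v + c v = a (2 * v))
    (e1 : ∀ v, b v + d v = c (2 * v)) (s0 : ∑ v, a v = 0) (s2 : ∑ v, c v = 0)
    (s1 : ∑ v, b v = mk4 a b c d (q : ZMod 4) 0) :
    D4 (mk4 a b c d) := by
  have n3 : ∀ v, b (-v) = - d v := by
    intro v
    have := n1 (-v)
    rw [neg_neg] at this
    rw [this, neg_neg]
  refine ⟨?_, z0, z2, ?_, ?_⟩
  · refine forall4 n0 n1 ?_ n3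
    exact n2
  · refine forall4 ?_ ?_ ?_ ?_
    · exact e0
    · exact e1
    · intro v
      have := e0 v
      rw [add_comm] at this
      exact this
    · intro v
      have := e1 v
      rw [add_comm] at this
      exact this
  · refine forall4 ?_ ?_ ?_ ?_
    · rw [mul_zero]; rw [mk4_0, s0, z0]
    · rw [mul_one]; exact s1
    · have h : ((q : ℕ) : ZMod 4) * 2 = 2 := by
        rcases q_mod4 hq2 with h | h <;> rw [h] <;> rfl
      rw [h, mk4_2, s2, z2]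
    · have h4 : ∑ v, d v = - ∑ v, b v := by
        rw [← sum_neg d, ← sum_neg_distrib]
        exact sum_congr rfl fun v _ => n1 v
      rw [mk4_3, h4, s1]
      have n1' := n1 0
      rw [neg_zero] at n1'
      rcases q_mod4 hq2 with h | h <;> rw [h]
      · rw [mk4_1, ← n1']; rfl
      · rw [mk4_3, n1', neg_neg]; rfl

lemma y4_three (x : ZMod 4 → ZMod q → ℤ) (v : ZMod q) : y4 x 3 v = - y4 x 1 (-v) := by
  unfold y4
  have h1 : -(3 : ZMod 4) = 1 := rfl
  have h2 : -(1 : ZMod 4) = 3 := rfl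
  rw [h1, h2, neg_neg]; ring

lemma y4_zero_neg (x : ZMod 4 → ZMod q → ℤ) (v : ZMod q) : y4 x 0 (-v) = - y4 x 0 v := by
  unfold y4; rw [neg_zero, neg_neg]; ring

lemma y4_two_neg (x : ZMod 4 → ZMod q → ℤ) (v : ZMod q) : y4 x 2 (-v) = - y4 x 2 v := by
  unfold y4
  have h1 : -(2 : ZMod 4) = 2 := rfl
  rw [h1, neg_neg]; ring

/-- the odd function -/
def A4 (x : ZMod 4 → ZMod q → ℤ) (v : ZMod q) : ℤ := y4 x 1 v - y4 x 1 (-v)
/-- the constant -/
def B4 (x : ZMod 4 → ZMod q → ℤ) : ℤ := y4 x 1 1 + y4 x 1 (-1)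

lemma A4_neg (x : ZMod 4 → ZMod q → ℤ) (v : ZMod q) : A4 x (-v) = - A4 x v := by
  unfold A4; rw [neg_neg]; ring

variable {x : ZMod 4 → ZMod q → ℤ}

lemma test4 (hx : Rel4 x) (hq2 : q ≠ 2) {a b c d : ZMod q → ℤ} (hg : D4 (mk4 a b c d)) :
    ∑ v, x 0 v * a v + ∑ v, x 1 v * b v + ∑ v, x 2 v * c v + ∑ v, x 3 v * d v = 0 := by
  have := hx _ hg
  rw [sum_four] at this
  exact this

lemma first4 (hx : Rel4 x) (hq2 : q ≠ 2) {v : ZMod q} (hv : v ≠ 0) :
    2 * y4 x 1 v = A4 x v + B4 x := by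
  set φ : ZMod q → ℤ := fun w => dl v w + dl (-v) w - dl 1 w - dl (-1) w with hφ
  have hφe : ∀ w, φ (-w) = φ w := by
    intro w; simp only [hφ, dl_neg, neg_neg]; ring
  have hφs : ∑ w, φ w = 0 := by
    simp only [hφ, sum_sub_distrib, sum_add_distrib, sum_dl]; ring
  have hφ0 : φ 0 = 0 := by
    simp only [hφ]
    rw [dl_zero hv, dl_zero (neg_ne_zero.mpr hv), dl_zero one_ne_zero,
      dl_zero (neg_ne_zero.mpr one_ne_zero)]; ring
  have hg : D4 (mk4 (fun _ => (0 : ℤ)) φ (fun _ => 0) (fun w => - φ w)) := by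
    refine D4.mk' hq2 (by simp) (by intro w; rw [hφe]) (by simp) rfl rfl (by simp)
      (by intro w; simp) (by simp) (by simp) ?_
    rw [hφs]
    rcases q_mod4 hq2 with h | h <;> rw [h]
    · rw [mk4_1, hφ0]
    · rw [mk4_3, hφ0]; rfl
  have h1 := test4 hx hq2 hg
  have h2 : ∑ w, x 1 w * φ w = x 1 v + x 1 (-v) - x 1 1 - x 1 (-1) := by
    simp only [hφ, mul_sub, mul_add, sum_sub_distrib, sum_add_distrib, sum_mul_dl]
  have h3 : ∑ w, x 3 w * - φ w = -(x 3 v + x 3 (-v) - x 3 1 - x 3 (-1)) := by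
    simp only [hφ, mul_neg, sum_neg_distrib, mul_sub, mul_add, sum_sub_distrib, sum_add_distrib,
      sum_mul_dl]
  rw [h2, h3] at h1
  simp only [mul_zero, sum_const_zero, zero_add, add_zero] at h1
  unfold A4 B4 y4
  have e1 : -(1 : ZMod 4) = 3 := rfl
  rw [e1, neg_neg, neg_neg]
  linarith

lemma second4 (hx : Rel4 x) (hq2 : q ≠ 2) {w : ZMod q} (hw : w ≠ 0) :
    2 * y4 x 0 w + 2 * y4 x 2 ((2 : ZMod q)⁻¹ * w) - 2 * y4 x 2 w +
      A4 x ((2 : ZMod q)⁻¹ * ((2 : ZMod q)⁻¹ * w)) - A4 x ((2 : ZMod q)⁻¹ * w) = 0 := by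
  have h20 : (2 : ZMod q) ≠ 0 := by
    have := pq_ne (p := q) (q := 2) hq2
    simpa using this
  set lam : ZMod q → ℤ := fun u => dl w u - dl (-w) u with hlam
  have hwm : -w ≠ 0 := neg_ne_zero.mpr hw
  have hlneg : ∀ u, lam (-u) = - lam u := by
    intro u; simp only [hlam, dl_neg, neg_neg]; ring
  have hl0 : lam 0 = 0 := by simp [hlam, dl_zero hw, dl_zero hwm]
  have hlsum : ∑ u, lam u = 0 := by simp only [hlam, sum_sub_distrib, sum_dl, sub_self]
  have hshift : ∀ f : ZMod q → ℤ, ∑ u, f (2 * u) = ∑ u, f u := by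
    intro f
    exact Fintype.sum_bijective _ (mulLeft_bijective₀ _ h20) _ _ fun u => rfl
  have hlsum2 : ∑ u, lam (2 * u) = 0 := by rw [hshift lam, hlsum]
  have hlsum4 : ∑ u, lam (2 * (2 * u)) = 0 := by rw [hshift (fun u => lam (2 * u)), hlsum2]
  have hg : D4 (mk4 (fun u => 2 * lam u) (fun u => lam (2 * (2 * u)) - lam (2 * u))
      (fun u => 2 * (lam (2 * u) - lam u)) (fun u => lam (2 * (2 * u)) - lam (2 * u))) := by
    refine D4.mk' hq2 ?_ ?_ ?_ ?_ ?_ ?_ ?_ ?_ ?_ ?_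
    · intro v; rw [hlneg]; ring
    · intro v; rw [mul_neg, mul_neg, hlneg, hlneg]; ring
    · intro v; rw [mul_neg, hlneg, hlneg]; ring
    · rw [hl0]; ring
    · rw [mul_zero, hl0]; ring
    · intro v; ring
    · intro v; ring
    · rw [← mul_sum, hlsum]; ring
    · rw [← mul_sum, sum_sub_distrib, hlsum, hlsum2]; ring
    · rw [sum_sub_distrib, hlsum4, hlsum2]
      rcases q_mod4 hq2 with h | h <;> rw [h]
      · rw [mk4_1]; simp only [mul_zero, hl0]
      · rw [mk4_3]; simp only [mul_zero, hl0]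
  have h1 := test4 hx hq2 hg
  have k1 : ∀ f : ZMod q → ℤ, ∑ u, f u * lam u = f w - f (-w) := fun f => sum_lam w
  have k2 : ∀ f : ZMod q → ℤ, ∑ u, f u * lam (2 * u) =
      f ((2 : ZMod q)⁻¹ * w) - f (-((2 : ZMod q)⁻¹ * w)) := by
    intro f
    have h7 : ∑ u, f u * lam (2 * u) = ∑ u, f ((2 : ZMod q)⁻¹ * u) * lam u := by
      refine (Fintype.sum_bijective _ (mulLeft_bijective₀ _ h20) _ _ fun u => ?_)
      rw [inv_mul_cancel_left₀ h20]
    rw [h7, k1 (fun u => f ((2 : ZMod q)⁻¹ * u)), mul_neg]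
  have k3 : ∀ f : ZMod q → ℤ, ∑ u, f u * lam (2 * (2 * u)) =
      f ((2 : ZMod q)⁻¹ * ((2 : ZMod q)⁻¹ * w)) - f (-((2 : ZMod q)⁻¹ * ((2 : ZMod q)⁻¹ * w))) := by
    intro f
    have h7 : ∑ u, f u * lam (2 * (2 * u)) = ∑ u, f ((2 : ZMod q)⁻¹ * u) * lam (2 * u) := by
      refine (Fintype.sum_bijective _ (mulLeft_bijective₀ _ h20) _ _ fun u => ?_)
      rw [inv_mul_cancel_left₀ h20]
    rw [h7, k2 (fun u => f ((2 : ZMod q)⁻¹ * u)), mul_neg]
  have a0 : ∑ v, x 0 v * (2 * lam v) = 2 * (x 0 w - x 0 (-w)) := by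
    rw [← k1 (fun v => x 0 v), mul_sum]; exact sum_congr rfl fun v _ => by ring
  have a2 : ∑ v, x 2 v * (2 * (lam (2 * v) - lam v)) =
      2 * ((x 2 ((2 : ZMod q)⁻¹ * w) - x 2 (-((2 : ZMod q)⁻¹ * w))) - (x 2 w - x 2 (-w))) := by
    rw [← k1 (fun v => x 2 v), ← k2 (fun v => x 2 v), ← sum_sub_distrib, mul_sum]
    exact sum_congr rfl fun v _ => by ring
  have a13 : ∀ f : ZMod q → ℤ, ∑ v, f v * (lam (2 * (2 * v)) - lam (2 * v)) =
      (f ((2 : ZMod q)⁻¹ * ((2 : ZMod q)⁻¹ * w)) - f (-((2 : ZMod q)⁻¹ * ((2 : ZMod q)⁻¹ * w)))) -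
        (f ((2 : ZMod q)⁻¹ * w) - f (-((2 : ZMod q)⁻¹ * w))) := by
    intro f
    rw [← k3 f, ← k2 f, ← sum_sub_distrib]
    exact sum_congr rfl fun v _ => by ring
  rw [a0, a2, a13 (fun v => x 1 v), a13 (fun v => x 3 v)] at h1
  unfold A4 y4
  have e1 : -(1 : ZMod 4) = 3 := rfl
  have e2 : -(2 : ZMod 4) = 2 := rfl
  rw [e1, e2, neg_zero]
  simp only [neg_neg]
  linarith

lemma third4 (hx : Rel4 x) (hq2 : q ≠ 2) :
    (((q : ℕ) : ZMod 4) = 1 → y4 x 1 0 = 0) ∧ (((q : ℕ) : ZMod 4) = 3 → y4 x 1 0 = B4 x) := by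
  have e1 : -(1 : ZMod 4) = 3 := rfl
  have hy : y4 x 1 0 = x 1 0 - x 3 0 := by unfold y4; rw [e1, neg_zero]
  constructor
  · intro h
    have hg : D4 (mk4 (fun _ : ZMod q => (0 : ℤ)) (fun v => dl (0 : ZMod q) v) (fun _ => 0)
        (fun v => - dl (0 : ZMod q) v)) := by
      refine D4.mk' hq2 (by simp) (by intro w; rw [dl_neg, neg_zero]) (by simp) rfl rfl (by simp)
        (by intro w; simp) (by simp) (by simp) ?_
      rw [h, mk4_1, sum_dl]; exact (if_pos rfl).symm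
    have h1 := test4 hx hq2 hg
    simp only [mul_zero, sum_const_zero, zero_add, add_zero, mul_neg, sum_neg_distrib,
      sum_mul_dl] at h1
    rw [hy]; linarith
  · intro h
    set φ : ZMod q → ℤ := fun v => 2 - (q + 1) * dl 0 v with hφ
    have hg : D4 (mk4 (fun _ => (0 : ℤ)) φ (fun _ => 0) (fun v => - φ v)) := by
      refine D4.mk' hq2 (by simp) (by intro w; simp only [hφ]; rw [dl_neg, neg_zero]) (by simp) rfl rfl
        (by simp) (by intro w; simp) (by simp) (by simp) ?_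
      rw [h, mk4_3]
      have e0 : dl (0 : ZMod q) 0 = 1 := if_pos rfl
      simp only [hφ, e0]
      rw [sum_sub_distrib, ← mul_sum, sum_dl, sum_const, card_univ, ZMod.card, nsmul_eq_mul]
      ring
    have h1 := test4 hx hq2 hg
    have h2 : ∀ f : ZMod q → ℤ, ∑ v, f v * φ v = 2 * ∑ v, f v - (q + 1) * f 0 := by
      intro f
      have e1 : (q + 1) * f 0 = ∑ v, (q + 1) * (f v * dl 0 v) := by rw [← mul_sum, sum_mul_dl]
      rw [e1, mul_sum, ← sum_sub_distrib]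
      exact sum_congr rfl fun v _ => by simp only [hφ]; ring
    simp only [mul_zero, sum_const_zero, zero_add, add_zero, mul_neg, sum_neg_distrib] at h1
    rw [h2 (fun v => x 1 v), h2 (fun v => x 3 v)] at h1
    have h3 : ∑ v, x 1 v - ∑ v, x 3 v = ∑ v, y4 x 1 v := by
      rw [← sum_neg (fun v => x 3 v), ← sum_sub_distrib]
      refine sum_congr rfl fun v _ => ?_
      unfold y4; rw [e1]
    have h4 : ∑ v ∈ univ.erase (0 : ZMod q), A4 x v = 0 := by
      have h8 : ∑ v ∈ univ.erase (0 : ZMod q), A4 x v = ∑ v ∈ univ.erase (0 : ZMod q), A4 x (-v) := by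
        refine sum_bij' (fun v _ => -v) (fun v _ => -v) ?_ ?_ ?_ ?_ ?_
        · intro v hv; exact mem_erase.mpr ⟨neg_ne_zero.mpr (ne_of_mem_erase hv), mem_univ _⟩
        · intro v hv; exact mem_erase.mpr ⟨neg_ne_zero.mpr (ne_of_mem_erase hv), mem_univ _⟩
        · intro v _; exact neg_neg v
        · intro v _; exact neg_neg v
        · intro v _; rw [neg_neg]
      have h9 : ∑ v ∈ univ.erase (0 : ZMod q), A4 x (-v) = - ∑ v ∈ univ.erase (0 : ZMod q), A4 x v := by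
        rw [← sum_neg_distrib]
        exact sum_congr rfl fun v _ => A4_neg x v
      linarith
    have h5 : 2 * ∑ v, y4 x 1 v = 2 * y4 x 1 0 + ((q : ℤ) - 1) * B4 x := by
      rw [← add_sum_erase _ _ (mem_univ (0 : ZMod q)), mul_add, mul_sum,
        sum_congr rfl fun v hv => first4 hx hq2 (ne_of_mem_erase hv), sum_add_distrib, h4,
        sum_const, card_erase_of_mem (mem_univ _), card_univ, ZMod.card, nsmul_eq_mul,
        Nat.cast_sub (Fact.out : q.Prime).one_lt.le]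
      push_cast; ring
    have hq1 : ((q : ℤ) - 1) ≠ 0 := by
      have := (Fact.out : q.Prime).one_lt
      omega
    apply mul_left_cancel₀ hq1
    rw [hy] at h5 ⊢
    linarith

end Pool.Agent.H916K
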