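import Pool.Agent.H916K.Four

/-!
# Relations between odd distributions of level `4 * q`: the core theorem
-/

set_option linter.unusedSectionVars false

namespace Pool.Agent.H916K

open Finset

variable {q : ℕ} [Fact q.Prime] {x : ZMod 4 → ZMod q → ℤ}

lemma two_ne (hq2 : q ≠ 2) : (2 : ZMod q) ≠ 0 := by
  have := pq_ne (p := q) (q := 2) hq2
  simpa using this

lemma even_four (hq2 : q ≠ 2) (hx : Rel4 x) (hB : 2 ∣ B4 x)
    {Q : Type*} [AddCommGroup Q] {c : ZMod 4 → ZMod q → Q} (hc : D4 c) :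
    ∑ u, ∑ v, x u v • c u v = 0 := by
  classical
  have h20 := two_ne hq2
  have hK := half_HS (p := q) hq2
  obtain ⟨β, hβ⟩ := hB
  have hA0 : A4 x 0 = 0 := by have := A4_neg x 0; rw [neg_zero] at this; linarith
  obtain ⟨α, hα⟩ : ∃ α : ZMod q → ℤ, ∀ v, A4 x v = 2 * α v := by
    refine ⟨fun v => A4 x v / 2, fun v => ?_⟩
    by_cases hv : v = 0
    · simp [hv, hA0]
    · have h1 := first4 hx hq2 hv
      change A4 x v = 2 * (A4 x v / 2)
      omega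
  have hαn : ∀ v, α (-v) = - α v := by
    intro v; have := A4_neg x v; rw [hα, hα] at this; linarith
  have e1 : ∀ v, v ≠ 0 → y4 x 1 v = α v + β := by
    intro v hv
    have := first4 hx hq2 hv
    rw [hα, hβ] at this; linarith
  have e0 : ∀ w, w ≠ 0 → y4 x 0 w = y4 x 2 w - y4 x 2 ((2 : ZMod q)⁻¹ * w) -
      α ((2 : ZMod q)⁻¹ * ((2 : ZMod q)⁻¹ * w)) + α ((2 : ZMod q)⁻¹ * w) := by
    intro w hw
    have := second4 hx hq2 hw
    rw [hα, hα] at this; linarith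
  have n0 : ∀ v, c 0 (-v) = - c 0 v := by
    intro v
    have := hc.neg 0 v
    rwa [neg_zero] at this
  have n2 : ∀ v, c 2 (-v) = - c 2 v := hc.neg 2
  have n1 : ∀ v, c 1 (-v) = - c 3 v := hc.neg 3
  have n3 : ∀ v, c 3 (-v) = - c 1 v := hc.neg 1
  have d0 : ∀ v, c 2 v = c 0 (2 * v) - c 0 v := by
    intro v
    have h1 : c 0 v + c 2 v = c 0 (2 * v) := hc.d2 0 v
    rw [← h1]; abel
  have d1 : ∀ v, c 1 v + c 3 v = c 2 (2 * v) := hc.d2 1
  -- the rows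
  have hR13 : ∑ v, x 1 v • c 1 v + ∑ v, x 3 v • c 3 v = ∑ v, y4 x 1 v • c 1 v := by
    rw [← sum_neg (fun v => x 3 v • c 3 v), ← sum_add_distrib]
    refine sum_congr rfl fun v _ => ?_
    have h1 : y4 x 1 v = x 1 v - x 3 (-v) := rfl
    rw [n3, h1, sub_smul, smul_neg, ← sub_eq_add_neg]
  have hR0 : ∑ v, x 0 v • c 0 v = ∑ v ∈ HS q, y4 x 0 v • c 0 v := by
    rw [← add_sum_erase _ _ (mem_univ (0 : ZMod q)), hc.zero, smul_zero, zero_add,
      hK.sum_all (fun v => x 0 v • c 0 v)]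
    refine sum_congr rfl fun v _ => ?_
    have h1 : y4 x 0 v = x 0 v - x 0 (-v) := rfl
    rw [n0, smul_neg, ← sub_eq_add_neg, ← sub_smul, h1]
  have hR2 : ∑ v, x 2 v • c 2 v = ∑ v ∈ HS q, y4 x 2 v • c 2 v := by
    rw [← add_sum_erase _ _ (mem_univ (0 : ZMod q)), hc.two, smul_zero, zero_add,
      hK.sum_all (fun v => x 2 v • c 2 v)]
    refine sum_congr rfl fun v _ => ?_
    have h1 : y4 x 2 v = x 2 v - x 2 (-v) := rfl
    rw [n2, smul_neg, ← sub_eq_add_neg, ← sub_smul, h1]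
  have hsum1 : ∑ v ∈ univ.erase (0 : ZMod q), c 1 v = c (q : ZMod 4) 0 - c 1 0 := by
    have h1 := hc.dq 1
    rw [mul_one] at h1
    rw [← h1, ← add_sum_erase _ _ (mem_univ (0 : ZMod q))]; abel
  have hT2 : y4 x 1 0 • c 1 0 + β • ∑ v ∈ univ.erase (0 : ZMod q), c 1 v = 0 := by
    rw [hsum1]
    rcases q_mod4 hq2 with h | h
    · rw [(third4 hx hq2).1 h, h, sub_self, smul_zero, zero_smul, add_zero]
    · have h3 : c 3 0 = - c 1 0 := by
        have := n3 0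
        rwa [neg_zero] at this
      rw [(third4 hx hq2).2 h, h, h3, hβ, smul_sub, smul_neg, two_mul, add_smul]; abel
  have hT1 : ∑ v ∈ univ.erase (0 : ZMod q), α v • c 1 v = ∑ v ∈ HS q, α v • c 2 (2 * v) := by
    rw [hK.sum_all (fun v => α v • c 1 v)]
    refine sum_congr rfl fun v _ => ?_
    rw [hαn, n1, smul_neg, neg_smul, neg_neg, ← smul_add, d1]
  have hy1 : ∑ v, y4 x 1 v • c 1 v = ∑ v ∈ HS q, α v • c 2 (2 * v) := by
    rw [← add_sum_erase _ _ (mem_univ (0 : ZMod q))]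
    have h1 : ∑ v ∈ univ.erase (0 : ZMod q), y4 x 1 v • c 1 v =
        ∑ v ∈ univ.erase (0 : ZMod q), α v • c 1 v + β • ∑ v ∈ univ.erase (0 : ZMod q), c 1 v := by
      rw [smul_sum, ← sum_add_distrib]
      refine sum_congr rfl fun v hv => ?_
      rw [e1 v (ne_of_mem_erase hv), add_smul]
    rw [h1, hT1, add_left_comm, hT2, add_zero]
  -- everything in terms of the row `0`
  have hshift1 : ∑ v ∈ HS q, α v • c 2 (2 * v) = ∑ v ∈ HS q, α ((2 : ZMod q)⁻¹ * v) • c 2 v := by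
    have h1 := hK.sum_mul h20 (fun v => α ((2 : ZMod q)⁻¹ * v) • c 2 v) (by
      intro v
      rw [mul_neg, hαn, n2, neg_smul, smul_neg, neg_neg])
    rw [← h1]
    refine sum_congr rfl fun v _ => ?_
    rw [inv_mul_cancel_left₀ h20]
  have hy2n : ∀ v, y4 x 2 (-v) = - y4 x 2 v := y4_two_neg x
  have hshift2 : ∑ v ∈ HS q, (α ((2 : ZMod q)⁻¹ * v) + y4 x 2 v) • c 0 (2 * v) =
      ∑ v ∈ HS q, (α ((2 : ZMod q)⁻¹ * ((2 : ZMod q)⁻¹ * v)) + y4 x 2 ((2 : ZMod q)⁻¹ * v)) • c 0 v := by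
    have h1 := hK.sum_mul h20 (fun v => (α ((2 : ZMod q)⁻¹ * ((2 : ZMod q)⁻¹ * v)) +
        y4 x 2 ((2 : ZMod q)⁻¹ * v)) • c 0 v) (by
      intro v
      simp only [mul_neg, hαn, n0, hy2n]
      rw [← neg_add, neg_smul, smul_neg, neg_neg])
    rw [← h1]
    refine sum_congr rfl fun v _ => ?_
    rw [inv_mul_cancel_left₀ h20]
  rw [sum_four]
  have hS : ∑ v, x 0 v • c 0 v + ∑ v, x 1 v • c 1 v + ∑ v, x 2 v • c 2 v + ∑ v, x 3 v • c 3 v =
      ∑ v, x 0 v • c 0 v + (∑ v, x 1 v • c 1 v + ∑ v, x 3 v • c 3 v) + ∑ v, x 2 v • c 2 v := by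
    abel
  rw [hS, hR13, hR0, hR2, hy1, hshift1]
  have h4 : ∑ v ∈ HS q, α ((2 : ZMod q)⁻¹ * v) • c 2 v + ∑ v ∈ HS q, y4 x 2 v • c 2 v =
      ∑ v ∈ HS q, (α ((2 : ZMod q)⁻¹ * v) + y4 x 2 v) • c 0 (2 * v) -
        ∑ v ∈ HS q, (α ((2 : ZMod q)⁻¹ * v) + y4 x 2 v) • c 0 v := by
    rw [← sum_add_distrib, ← sum_sub_distrib]
    refine sum_congr rfl fun v _ => ?_
    rw [← add_smul, d0, smul_sub]
  rw [add_assoc, h4, hshift2, ← sum_sub_distrib, ← sum_add_distrib]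
  refine sum_eq_zero fun v hv => ?_
  rw [e0 v (hK.ne v hv), ← sub_smul, ← add_smul]
  have : y4 x 2 v - y4 x 2 ((2 : ZMod q)⁻¹ * v) - α ((2 : ZMod q)⁻¹ * ((2 : ZMod q)⁻¹ * v)) +
      α ((2 : ZMod q)⁻¹ * v) + (α ((2 : ZMod q)⁻¹ * ((2 : ZMod q)⁻¹ * v)) +
      y4 x 2 ((2 : ZMod q)⁻¹ * v) - (α ((2 : ZMod q)⁻¹ * v) + y4 x 2 v)) = 0 := by ring
  rw [this, zero_smul]

/-- **Relations of level `4 * q` in coordinates.** -/
theorem four_core (hq2 : q ≠ 2) (hleg : legendreSym q 2 = -1) (hx : Rel4 x)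
    (hev : 2 ∣ ∑ v ∈ univ.erase (0 : ZMod q), x 0 v)
    {Q : Type*} [AddCommGroup Q] {c : ZMod 4 → ZMod q → Q} (hc : D4 c) :
    ∑ u, ∑ v, x u v • c u v = 0 := by
  classical
  by_cases hB : 2 ∣ B4 x
  · exact even_four hq2 hx hB hc
  · exfalso
    have h20 := two_ne hq2
    have h20' : (2 : ZMod q)⁻¹ ≠ 0 := inv_ne_zero h20
    have hodd : ∀ v, v ≠ 0 → ¬ 2 ∣ A4 x v := by
      intro v hv
      have := first4 hx hq2 hv
      omega
    have h1 := gauss_parity (p := q) hq2 (q := 2) (by push_cast; exact h20) (by exact_mod_cast hleg)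
      (A := fun v => 2 * y4 x 2 v + A4 x ((2 : ZMod q)⁻¹ * v)) (by
        intro v
        simp only [mul_neg, y4_two_neg, A4_neg]; ring) (by
        intro v hv h
        apply hodd ((2 : ZMod q)⁻¹ * v) (mul_ne_zero h20' hv)
        omega) (y := fun v => y4 x 0 v) (by
        intro v hv
        have h2 := second4 hx hq2 hv
        push_cast
        linarith)
    apply h1
    rw [(half_HS hq2).sum_all] at hev
    have h2 : ∑ u ∈ HS q, (x 0 u + x 0 (-u)) = ∑ u ∈ HS q, y4 x 0 u + 2 * ∑ u ∈ HS q, x 0 (-u) := by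
      rw [mul_sum, ← sum_add_distrib]
      refine sum_congr rfl fun u _ => ?_
      unfold y4; rw [neg_zero]; ring
    rw [h2] at hev
    exact (Int.dvd_add_left (Dvd.intro _ rfl)).mp hev

end Pool.Agent.H916K
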