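import Mathlib

/-!
# Sums over half systems
-/

namespace Pool.Agent.H916K

open Finset

variable {p : ℕ} [Fact p.Prime]

/-- half of the nonzero residues -/
def HS (p : ℕ) [NeZero p] : Finset (ZMod p) := univ.filter (fun u => u ≠ 0 ∧ 2 * u.val < p)

/-- a half system -/
structure Half (H : Finset (ZMod p)) : Prop where
  ne : ∀ u ∈ H, u ≠ 0
  one : ∀ u : ZMod p, u ≠ 0 → (u ∈ H ↔ -u ∉ H)

lemma half_HS (hp2 : p ≠ 2) : Half (HS p) where
  ne := fun u hu => by
    simp only [HS, mem_filter, mem_univ, true_and] at hu; exact hu.1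
  one := fun u hu => by
    have hpp : p.Prime := Fact.out
    have hv : (-u).val = p - u.val := by
      rw [ZMod.neg_val, if_neg hu]
    have h0 : 0 < u.val := Nat.pos_of_ne_zero (fun h => hu ((ZMod.val_eq_zero u).mp h))
    have hlt := ZMod.val_lt u
    have hodd : p % 2 = 1 := hpp.eq_two_or_odd.resolve_left hp2
    simp only [HS, mem_filter, mem_univ, true_and, hv, ne_eq, neg_eq_zero, hu,
      not_false_eq_true]
    omega

/-- sums of even functions over half systems agree -/
lemma Half.sum_eq {Q : Type*} [AddCommMonoid Q] {H H' : Finset (ZMod p)} (hH : Half H)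
    (hH' : Half H') (f : ZMod p → Q) (hf : ∀ u, f (-u) = f u) :
    ∑ u ∈ H, f u = ∑ u ∈ H', f u := by
  classical
  refine Finset.sum_bij' (fun u _ => if u ∈ H' then u else -u) (fun u _ => if u ∈ H then u else -u)
    ?_ ?_ ?_ ?_ ?_
  · intro u hu
    have hu0 := hH.ne u hu
    by_cases h : u ∈ H'
    · simp [h]
    · simp only [h, if_false]
      by_contra h2
      exact h ((hH'.one u hu0).mpr h2)
  · intro u hu
    have hu0 := hH'.ne u hu
    by_cases h : u ∈ H
    · simp [h]
    · simp only [h, if_false]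
      by_contra h2
      exact h ((hH.one u hu0).mpr h2)
  · intro u hu
    by_cases h : u ∈ H'
    · simp [h, hu]
    · have hu0 := hH.ne u hu
      have : -u ∉ H := (hH.one u hu0).mp hu
      simp [h, this]
  · intro u hu
    by_cases h : u ∈ H
    · simp [h, hu]
    · have hu0 := hH'.ne u hu
      have : -u ∉ H' := (hH'.one u hu0).mp hu
      simp [h, this]
  · intro u _
    split_ifs
    · rfl
    · rw [hf]

lemma Half.mul {H : Finset (ZMod p)} (hH : Half H) {k : ZMod p} (hk : k ≠ 0) :
    Half (H.image (fun u => k * u)) where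
  ne := fun u hu => by
    obtain ⟨w, hw, rfl⟩ := mem_image.mp hu
    exact mul_ne_zero hk (hH.ne w hw)
  one := fun u hu => by
    have h1 : ∀ u : ZMod p, u ∈ H.image (fun u => k * u) ↔ k⁻¹ * u ∈ H := by
      intro u
      rw [mem_image]
      constructor
      · rintro ⟨w, hw, rfl⟩
        rwa [inv_mul_cancel_left₀ hk]
      · intro h
        exact ⟨_, h, mul_inv_cancel_left₀ hk u⟩
    rw [h1, h1, mul_neg]
    exact hH.one _ (mul_ne_zero (inv_ne_zero hk) hu)

/-- invariance of sums of even functions over a half system -/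
lemma Half.sum_mul {Q : Type*} [AddCommMonoid Q] {H : Finset (ZMod p)} (hH : Half H)
    {k : ZMod p} (hk : k ≠ 0) (f : ZMod p → Q) (hf : ∀ u, f (-u) = f u) :
    ∑ u ∈ H, f (k * u) = ∑ u ∈ H, f u := by
  rw [← (hH.mul hk).sum_eq hH f hf, sum_image]
  intro a _ b _ h
  exact mul_left_cancel₀ hk h

/-- the sum over all nonzero elements -/
lemma Half.sum_all {Q : Type*} [AddCommMonoid Q] {H : Finset (ZMod p)} (hH : Half H)
    (f : ZMod p → Q) : ∑ u ∈ univ.erase (0 : ZMod p), f u = ∑ u ∈ H, (f u + f (-u)) := by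
  classical
  have h1 : univ.erase (0 : ZMod p) = H ∪ H.image Neg.neg := by
    ext u
    simp only [mem_erase, mem_univ, and_true, mem_union, mem_image]
    constructor
    · intro hu
      by_cases h : u ∈ H
      · exact Or.inl h
      · right
        refine ⟨-u, ?_, neg_neg u⟩
        by_contra h2
        exact h ((hH.one u hu).mpr h2)
    · rintro (h | ⟨w, hw, rfl⟩)
      · exact hH.ne u h
      · exact neg_ne_zero.mpr (hH.ne w hw)
  have h2 : Disjoint H (H.image Neg.neg) := by
    rw [Finset.disjoint_left]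
    intro u hu hu'
    obtain ⟨w, hw, rfl⟩ := mem_image.mp hu'
    exact (hH.one w (hH.ne w hw)).mp hw hu
  rw [h1, sum_union h2, sum_image (fun a _ b _ h => neg_injective h), sum_add_distrib]

/-- **Gauss's lemma** for a half system given by an odd function with odd values. -/
theorem gauss_parity (hp2 : p ≠ 2) {q : ℕ} (hq : ((q : ℕ) : ZMod p) ≠ 0)
    (hleg : legendreSym p q = -1) {A : ZMod p → ℤ} (hA : ∀ u, A (-u) = - A u)
    (hodd : ∀ u, u ≠ 0 → ¬ 2 ∣ A u) {y : ZMod p → ℤ}
    (hy : ∀ u, u ≠ 0 → 2 * y u = A u - A ((q : ZMod p)⁻¹ * u)) :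
    ¬ 2 ∣ ∑ u ∈ HS p, y u := by
  classical
  have hpp : p.Prime := Fact.out
  set k : ZMod p := (q : ZMod p)⁻¹ with hk
  have hk0 : k ≠ 0 := inv_ne_zero hq
  set H : Finset (ZMod p) := univ.filter (fun u => u ≠ 0 ∧ A u % 4 = 1) with hH
  have hHalf : Half H := by
    refine ⟨?_, ?_⟩
    · intro u hu
      simp only [hH, mem_filter, mem_univ, true_and] at hu; exact hu.1
    · intro u hu
      have h1 := hodd u hu
      simp only [hH, mem_filter, mem_univ, true_and, hA, ne_eq, neg_eq_zero, hu,
        not_false_eq_true]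
      omega
  have hyneg : ∀ u, u ≠ 0 → y (-u) = - y u := by
    intro u hu
    have h1 := hy (-u) (neg_ne_zero.mpr hu)
    have h2 := hy u hu
    rw [mul_neg, hA, hA] at h1
    omega
  -- product formula
  set ε : ZMod p → ZMod p := fun u => if u ∈ H then 1 else -1 with hε
  have hεneg : ∀ u, u ≠ 0 → ε (-u) = - ε u := by
    intro u hu
    simp only [hε]
    by_cases h : u ∈ H
    · have := (hHalf.one u hu).mp h
      simp [h, this]
    · have : -u ∈ H := by
        by_contra h2; exact h ((hHalf.one u hu).mpr h2)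
      simp [h, this]
  have hprod : ∏ u ∈ H, (ε (k * u) * (k * u)) = ∏ u ∈ H, (ε u * u) := by
    have h1 := Half.sum_mul (Q := Additive (ZMod p)) hHalf hk0
      (fun u => Additive.ofMul (ε u * u)) (by
        intro u
        by_cases hu : u = 0
        · rw [hu, neg_zero]
        · rw [hεneg u hu]; congr 1; ring)
    have h2 := congrArg Additive.toMul h1
    rw [toMul_sum, toMul_sum] at h2
    exact h2
  have hcard : 2 * H.card = p - 1 := by
    have h1 := Half.sum_all (Q := ℕ) hHalf (fun _ => 1)
    simp only [sum_const, smul_eq_mul, mul_one, card_erase_of_mem (mem_univ _), card_univ,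
      ZMod.card] at h1
    omega
  have hne : ∏ u ∈ H, u ≠ 0 := prod_ne_zero_iff.mpr fun u hu => hHalf.ne u hu
  have h1 : ∏ u ∈ H, (ε u * u) = ∏ u ∈ H, u := by
    refine prod_congr rfl fun u hu => ?_
    simp [hε, hu]
  rw [h1, prod_mul_distrib, prod_mul_distrib, prod_const] at hprod
  have h2 : (∏ u ∈ H, ε (k * u)) * k ^ H.card = 1 := by
    apply mul_right_cancel₀ hne
    rw [one_mul, mul_assoc]; exact hprod
  have hleg' : (q : ZMod p) ^ (p / 2) = -1 := by
    have := legendreSym.eq_pow p q
    rw [hleg] at this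
    push_cast at this
    exact this.symm
  have hodd2 : p % 2 = 1 := hpp.eq_two_or_odd.resolve_left hp2
  have hc2 : H.card = p / 2 := by omega
  have hkpow : k ^ H.card = -1 := by
    rw [hk, hc2, inv_pow, hleg', inv_neg, inv_one]
  rw [hkpow] at h2
  -- the product of signs
  have h3 : ∏ u ∈ H, ε (k * u) = (-1 : ZMod p) ^ (H.filter (fun u => k * u ∉ H)).card := by
    simp only [hε]
    rw [Finset.prod_ite, Finset.prod_const_one, one_mul, Finset.prod_const]
  rw [h3] at h2
  have hoddcard : ¬ 2 ∣ (H.filter (fun u => k * u ∉ H)).card := by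
    intro h
    rw [(even_iff_two_dvd.mpr h).neg_one_pow] at h2
    have h4 : (2 : ZMod p) = 0 := by linear_combination -h2
    have h5 : ((2 : ℕ) : ZMod p) = 0 := by exact_mod_cast h4
    rw [ZMod.natCast_eq_zero_iff] at h5
    have := (Nat.prime_dvd_prime_iff_eq hpp Nat.prime_two).mp h5
    exact hp2 this
  -- the sum of y over H
  have h4 : ∑ u ∈ HS p, y u ≡ ∑ u ∈ H, y u [ZMOD 2] := by
    have h5 := (half_HS hp2).sum_eq hHalf (Q := ZMod 2) (fun u => ((y u : ℤ) : ZMod 2)) (by
      intro u
      by_cases hu : u = 0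
      · rw [hu, neg_zero]
      · rw [hyneg u hu]; push_cast; exact ZMod.neg_eq_self_mod_two _)
    apply (ZMod.intCast_eq_intCast_iff _ _ 2).mp
    push_cast
    exact h5
  have h6 : ∑ u ∈ H, y u ≡ ((H.filter (fun u => k * u ∉ H)).card : ℤ) [ZMOD 2] := by
    rw [card_filter]
    push_cast
    apply Int.ModEq.sum
    intro u hu
    have hu0 := hHalf.ne u hu
    have hku0 : k * u ≠ 0 := mul_ne_zero hk0 hu0
    have e1 := hy u hu0
    have e2 : A u % 4 = 1 := by
      have := hu
      simp only [hH, mem_filter, mem_univ, true_and] at this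
      exact this.2
    have e3 := hodd _ hku0
    by_cases h7 : k * u ∈ H
    · have e4 : A (k * u) % 4 = 1 := by
        have := h7
        simp only [hH, mem_filter, mem_univ, true_and] at this
        exact this.2
      rw [if_neg (by simpa using h7)]
      unfold Int.ModEq
      omega
    · have e4 : A (k * u) % 4 ≠ 1 := by
        intro h8
        apply h7
        simp only [hH, mem_filter, mem_univ, true_and]
        exact ⟨hku0, h8⟩
      rw [if_pos h7]
      unfold Int.ModEq
      omega
  intro h7
  apply hoddcard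
  have h8 := (h4.trans h6)
  have h9 : (2 : ℤ) ∣ ((H.filter (fun u => k * u ∉ H)).card : ℤ) := by
    rw [Int.ModEq] at h8
    omega
  exact_mod_cast h9

end Pool.Agent.H916K
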