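import Pool.Agent.H916R2.Full

/-!
# The parity of the number of entries of `p`-power order as an odd distribution
-/

namespace Pool.Agent.H916K

open Finset Pool.Agent.H916R2

variable {m : ℕ} [NeZero m]

lemma mul_d_eq_zero {l d : ℕ} (hd : l * d = m) (k : ℕ) :
    ((k : ZMod m) * (d : ZMod m) = 0) ↔ l ∣ k := by
  have hd0 : 0 < d := Nat.pos_of_ne_zero (by rintro rfl; exact NeZero.ne m (by rw [← hd]; simp))
  have h1 : (k : ZMod m) * (d : ZMod m) = ((k * d : ℕ) : ZMod m) := by push_cast; rfl
  rw [h1, ZMod.natCast_eq_zero_iff, ← hd]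
  exact Nat.mul_dvd_mul_iff_right hd0

lemma exists_of_mul_eq_zero {l d : ℕ} (hl : 0 < l) (hd : l * d = m) {b : ZMod m}
    (h : (l : ZMod m) * b = 0) : ∃ j : ℕ, b = (j : ZMod m) * (d : ZMod m) := by
  have h1 : ((l * b.val : ℕ) : ZMod m) = 0 := by push_cast; rw [ZMod.natCast_zmod_val]; exact h
  rw [ZMod.natCast_eq_zero_iff] at h1
  have h1' : l * d ∣ l * b.val := hd.symm ▸ h1
  have h2 : d ∣ b.val := Nat.dvd_of_mul_dvd_mul_left hl h1'
  obtain ⟨j, hj⟩ := h2
  refine ⟨j, ?_⟩
  have : b = ((b.val : ℕ) : ZMod m) := (ZMod.natCast_zmod_val b).symm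
  rw [this, hj]; push_cast; ring

lemma card_shift {l d P : ℕ} (hl : l.Prime) (hd : l * d = m) (hP : ¬ l ∣ P) (a : ZMod m) :
    ((range l).filter fun i : ℕ => (P : ZMod m) * (a + (i : ZMod m) * (d : ZMod m)) = 0).card =
      if (P : ZMod m) * ((l : ZMod m) * a) = 0 then 1 else 0 := by
  have : Fact l.Prime := ⟨hl⟩
  have hld : (l : ZMod m) * (d : ZMod m) = 0 := by
    have : ((l * d : ℕ) : ZMod m) = 0 := by rw [hd]; simp
    push_cast at this; exact this
  split_ifs with h
  · obtain ⟨j, hj⟩ := exists_of_mul_eq_zero hl.pos hd (b := (P : ZMod m) * a)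
      (by rw [← h]; ring)
    have hP0 : (P : ZMod l) ≠ 0 := by rwa [Ne, ZMod.natCast_eq_zero_iff]
    have hiff : ∀ i : ℕ, (P : ZMod m) * (a + (i : ZMod m) * (d : ZMod m)) = 0 ↔
        (i : ZMod l) = -(j : ZMod l) * (P : ZMod l)⁻¹ := by
      intro i
      have h1 : (P : ZMod m) * (a + (i : ZMod m) * (d : ZMod m)) =
          ((j + P * i : ℕ) : ZMod m) * (d : ZMod m) := by
        push_cast
        linear_combination hj
      rw [h1, mul_d_eq_zero hd, ← ZMod.natCast_eq_zero_iff]
      push_cast
      constructor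
      · intro h2
        field_simp
        linear_combination h2
      · intro h2
        rw [h2]
        field_simp
        ring
    have h2 : ((range l).filter fun i : ℕ => (P : ZMod m) * (a + (i : ZMod m) * (d : ZMod m)) = 0) =
        {(-(j : ZMod l) * (P : ZMod l)⁻¹).val} := by
      ext i
      rw [mem_filter, mem_singleton, mem_range, hiff]
      constructor
      · rintro ⟨h3, h4⟩
        rw [← h4, ZMod.val_natCast, Nat.mod_eq_of_lt h3]
      · intro h3
        rw [h3]
        exact ⟨ZMod.val_lt _, ZMod.natCast_zmod_val _⟩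
    rw [h2, card_singleton]
  · rw [card_eq_zero, filter_eq_empty_iff]
    intro i _ h1
    apply h
    have h2 : (l : ZMod m) * ((P : ZMod m) * (a + (i : ZMod m) * (d : ZMod m))) = 0 := by
      rw [h1, mul_zero]
    linear_combination h2 - (P : ZMod m) * (i : ZMod m) * hld

/-- the parity distribution -/
def par (m P : ℕ) (a : ZMod m) : ZMod 2 :=
  (if (P : ZMod m) * a = 0 then 1 else 0) + (if a = 0 then 1 else 0)

lemma sum_ite_card {l : ℕ} (R : ℕ → Prop) [DecidablePred R] :
    (∑ i ∈ range l, if R i then (1 : ZMod 2) else 0) = (((range l).filter R).card : ZMod 2) := by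
  rw [Finset.sum_boole]

theorem par_oddDist {p e M : ℕ} (hp : p.Prime) (hp2 : p ≠ 2) (hpM : p.Coprime M)
    (hm : p ^ e * M = m) : OddDist (par m (p ^ e)) where
  neg := fun a => by
    unfold par
    rw [ZMod.neg_eq_self_mod_two]
    simp only [mul_neg, neg_eq_zero]
  half := fun a ha => by
    have hodd : Odd (p ^ e) := (hp.odd_of_ne_two hp2).pow
    obtain ⟨k, hk⟩ := hodd
    have h1 : ((p ^ e : ℕ) : ZMod m) * a = a := by
      rw [hk]; push_cast
      linear_combination (k : ZMod m) * ha
    unfold par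
    rw [h1]
    split_ifs
    · decide
    · decide
  dist := fun l d hl hd a => by
    unfold par
    rw [sum_add_distrib]
    have h0 : (∑ i ∈ range l, if a + (i : ZMod m) * (d : ZMod m) = 0 then (1 : ZMod 2) else 0) =
        if (l : ZMod m) * a = 0 then 1 else 0 := by
      have h1 := card_shift (P := 1) hl hd (by
        intro h; exact hl.one_lt.ne' (Nat.dvd_one.mp h)) a
      simp only [Nat.cast_one, one_mul] at h1
      rw [sum_ite_card, h1]
      split_ifs <;> simp
    rw [h0]
    congr 1
    by_cases hlp : l = p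
    · subst hlp
      rcases Nat.eq_zero_or_pos e with he | he
      · exfalso
        rw [he, pow_zero, one_mul] at hm
        have h2 : l ∣ M := by rw [hm, ← hd]; exact dvd_mul_right l d
        exact hl.one_lt.ne' (Nat.Coprime.eq_one_of_dvd hpM h2)
      · have h2 : ((l ^ e : ℕ) : ZMod m) * (d : ZMod m) = 0 :=
          (mul_d_eq_zero hd _).mpr (dvd_pow_self l he.ne')
        have h3 : ∀ i : ℕ, ((l ^ e : ℕ) : ZMod m) * (a + (i : ZMod m) * (d : ZMod m)) =
            ((l ^ e : ℕ) : ZMod m) * a := by
          intro i; linear_combination (i : ZMod m) * h2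
        simp only [h3]
        rw [sum_const, card_range, nsmul_eq_mul]
        have h4 : ((l : ℕ) : ZMod 2) = 1 := by
          have : Odd l := hl.odd_of_ne_two hp2
          exact (ZMod.natCast_eq_one_iff_odd).mpr this
        rw [h4, one_mul]
        -- multiplication by `l` is invertible on elements of order prime to `l`
        have h5 : ((l ^ e : ℕ) : ZMod m) * a = 0 ↔ ((l ^ e : ℕ) : ZMod m) * ((l : ZMod m) * a) = 0 := by
          have hM0 : 0 < M := Nat.pos_of_ne_zero (by
            rintro rfl; exact NeZero.ne m (by rw [← hm]; simp))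
          have key : ∀ b : ℕ, ((l ^ e : ℕ) : ZMod m) * (b : ZMod m) = 0 ↔ M ∣ b := by
            intro b
            have e1 : ((l ^ e : ℕ) : ZMod m) * (b : ZMod m) = ((l ^ e * b : ℕ) : ZMod m) := by
              push_cast; rfl
            rw [e1, ZMod.natCast_eq_zero_iff, ← hm]
            exact Nat.mul_dvd_mul_iff_left (pow_pos hl.pos e)
          have e2 : (l : ZMod m) * a = ((l * a.val : ℕ) : ZMod m) := by
            push_cast; rw [ZMod.natCast_zmod_val]
          have e3 : a = ((a.val : ℕ) : ZMod m) := (ZMod.natCast_zmod_val a).symm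
          rw [e2, key]
          conv_lhs => rw [e3]
          rw [key]
          exact ⟨fun h => h.mul_left l, fun h => (Nat.Coprime.dvd_mul_left hpM.symm).mp h⟩
        by_cases h6 : ((l ^ e : ℕ) : ZMod m) * a = 0
        · rw [if_pos h6, if_pos (h5.mp h6)]
        · rw [if_neg h6, if_neg (fun h => h6 (h5.mpr h))]
    · have h2 : ¬ l ∣ p ^ e := by
        intro h
        exact hlp ((Nat.prime_dvd_prime_iff_eq hl hp).mp (hl.dvd_of_dvd_pow h))
      rw [sum_ite_card, card_shift hl hd h2 a]
      split_ifs <;> simp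

end Pool.Agent.H916K
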