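import Pool.Agent.H916K.Two
import Pool.Agent.H916K.Parity
import Pool.Agent.H916D.Rational

/-!
# Relations of level `p * q`
-/

set_option linter.unusedSectionVars false

namespace Pool.Agent.H916K

open Finset Pool.Agent.H916R2 Pool.Agent.H916T

lemma sum_range_zmod {n : ℕ} [NeZero n] {Q : Type*} [AddCommMonoid Q] (F : ZMod n → Q) :
    ∑ i ∈ range n, F (i : ZMod n) = ∑ u, F u := by
  refine sum_bij' (fun i _ => (i : ZMod n)) (fun u _ => u.val) ?_ ?_ ?_ ?_ ?_
  · intro i _; exact mem_univ _
  · intro u _; exact mem_range.mpr (ZMod.val_lt u)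
  · intro i hi; rw [ZMod.val_natCast, Nat.mod_eq_of_lt (mem_range.mp hi)]
  · intro u _; exact ZMod.natCast_zmod_val u
  · intro i _; rfl

lemma sum_range_shift {n : ℕ} [Fact n.Prime] {Q : Type*} [AddCommMonoid Q] (F : ZMod n → Q)
    (u : ZMod n) {k : ZMod n} (hk : k ≠ 0) :
    ∑ i ∈ range n, F (u + (i : ZMod n) * k) = ∑ w, F w := by
  rw [sum_range_zmod (fun i => F (u + i * k))]
  refine Fintype.sum_bijective (fun i : ZMod n => u + i * k) ?_ _ _ fun i => rfl
  exact (AddGroup.addLeft_bijective u).comp (mulRight_bijective₀ k hk)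

lemma oddDist_od {m : ℕ} {Q : Type*} [AddCommGroup Q] {c : ZMod m → Q} (hc : OddDist c) : OD c where
  neg := hc.neg
  zero := hc.half 0 (by simp)
  odd := fun q d hq _ hd a => hc.dist q d hq hd a
  two := fun d hd a => by
    have h1 := hc.dist 2 d Nat.prime_two hd a
    rw [sum_range_succ, sum_range_one] at h1
    have h2 : c (d : ZMod m) = 0 := by
      apply hc.half
      have : ((2 * d : ℕ) : ZMod m) = 0 := by rw [hd]; simp
      push_cast at this
      linear_combination this
    rw [h2, add_zero]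
    simpa using h1

lemma isTate_one {m : ℕ} {s : Multiset (ZMod m)} (hs : IsHodge m s) : IsTate 1 m s := by
  obtain ⟨h1, h2, h3, h4⟩ := hs
  refine ⟨h1, h2, h3, fun t => ?_⟩
  have := h4 t
  simpa using this

/-- integral odd distributions kill the Hodge relations -/
theorem rel_int {m : ℕ} [NeZero m] {x : ZMod m → ℤ} (hx : Rel x) {g : ZMod m → ℤ}
    (hg : OddDist g) : ∑ a, x a * g a = 0 := by
  obtain ⟨s, hs, hsum⟩ := exists_hodge x hx
  have h1 := hsum ℤ g hg
  simp only [smul_eq_mul] at h1
  rw [h1]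
  obtain ⟨k, hk, h2⟩ := H916D.torsion_sum (p := 1) (Nat.coprime_one_left m) (oddDist_od hg)
    (by intro a; simp) s (fun t => (isTate_one hs).W_sum (Nat.coprime_one_left m) t)
  rw [nsmul_eq_mul] at h2
  rcases mul_eq_zero.mp h2 with h | h
  · exact absurd (by exact_mod_cast h) hk.ne'
  · exact h

variable {p q : ℕ} [hp : Fact p.Prime] [hq : Fact q.Prime]

lemma coprime_of_ne (hpq : p ≠ q) : p.Coprime q := (Nat.coprime_primes hp.out hq.out).mpr hpq

/-- coordinates -/
noncomputable def ee (hpq : p ≠ q) : ZMod (p * q) ≃+* ZMod p × ZMod q :=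
  ZMod.chineseRemainder (coprime_of_ne hpq)

instance : NeZero (p * q) := ⟨Nat.mul_ne_zero hp.out.ne_zero hq.out.ne_zero⟩

lemma ee_natCast (hpq : p ≠ q) (n : ℕ) : ee hpq (n : ZMod (p * q)) = ((n : ZMod p), (n : ZMod q)) := by
  rw [map_natCast]; rfl

/-- a distribution in coordinates -/
noncomputable def two (hpq : p ≠ q) {Q : Type*} (c : ZMod (p * q) → Q) (u : ZMod p) (v : ZMod q) : Q :=
  c ((ee hpq).symm (u, v))

lemma two_apply (hpq : p ≠ q) {Q : Type*} (c : ZMod (p * q) → Q) (a : ZMod (p * q)) :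
    c a = two hpq c (ee hpq a).1 (ee hpq a).2 := by
  unfold two
  rw [Prod.mk.eta, RingEquiv.symm_apply_apply]

lemma two_d2 (hpq : p ≠ q) {Q : Type*} [AddCommGroup Q] {c : ZMod (p * q) → Q} (hc : OddDist c) :
    D2 (two hpq c) where
  neg := fun u v => by
    unfold two
    rw [← hc.neg, ← map_neg]; rfl
  zero := by
    unfold two
    have : ((0 : ZMod p), (0 : ZMod q)) = 0 := rfl
    rw [this, map_zero]
    exact hc.half 0 (by simp)
  dp := fun v => by
    have h1 := hc.dist p q hp.out rfl ((ee hpq).symm (0, v))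
    rw [two_apply hpq c ((p : ZMod (p * q)) * _), map_mul, ee_natCast, RingEquiv.apply_symm_apply] at h1
    have h2 : (((p : ZMod p), (p : ZMod q)) * ((0 : ZMod p), v)).1 = 0 := by simp
    have h3 : (((p : ZMod p), (p : ZMod q)) * ((0 : ZMod p), v)).2 = (p : ZMod q) * v := rfl
    rw [h2, h3] at h1
    rw [← h1, ← sum_range_shift (fun u => two hpq c u v) 0 (pq_ne (p := p) (q := q) hpq)]
    refine sum_congr rfl fun i _ => ?_
    rw [two_apply hpq c (_ + _), map_add, map_mul, ee_natCast, ee_natCast, RingEquiv.apply_symm_apply]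
    congr 1
    simp
  dq := fun u => by
    have h1 := hc.dist q p hq.out (mul_comm q p) ((ee hpq).symm (u, 0))
    rw [two_apply hpq c ((q : ZMod (p * q)) * _), map_mul, ee_natCast, RingEquiv.apply_symm_apply] at h1
    have h2 : (((q : ZMod p), (q : ZMod q)) * (u, (0 : ZMod q))).1 = (q : ZMod p) * u := rfl
    have h3 : (((q : ZMod p), (q : ZMod q)) * (u, (0 : ZMod q))).2 = 0 := by simp
    rw [h2, h3] at h1
    rw [← h1, ← sum_range_shift (fun v => two hpq c u v) 0
      (pq_ne (p := q) (q := p) (fun h => hpq h.symm))]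
    refine sum_congr rfl fun i _ => ?_
    rw [two_apply hpq c (_ + _), map_add, map_mul, ee_natCast, ee_natCast, RingEquiv.apply_symm_apply]
    congr 1
    simp

lemma d2_odd (hpq : p ≠ q) {g : ZMod p → ZMod q → ℤ} (hg : D2 g) :
    OddDist (fun a : ZMod (p * q) => g (ee hpq a).1 (ee hpq a).2) where
  neg := fun a => by
    rw [map_neg]
    exact hg.neg _ _
  half := fun a ha => by
    have h1 : a = -a := eq_neg_of_add_eq_zero_left ha
    have h2 : g (ee hpq a).1 (ee hpq a).2 = - g (ee hpq a).1 (ee hpq a).2 := by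
      conv_lhs => rw [h1, map_neg]
      exact hg.neg _ _
    linarith
  dist := fun l d hl hd a => by
    have hcase : l = p ∨ l = q := by
      have h1 : l ∣ p * q := by rw [← hd]; exact dvd_mul_right l d
      rcases (Nat.Prime.dvd_mul hl).mp h1 with h | h
      · exact Or.inl ((Nat.prime_dvd_prime_iff_eq hl hp.out).mp h)
      · exact Or.inr ((Nat.prime_dvd_prime_iff_eq hl hq.out).mp h)
    rcases hcase with rfl | rfl
    · have hdq : d = q := Nat.eq_of_mul_eq_mul_left hp.out.pos hd
      subst hdq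
      have h1 : ∀ i ∈ range l, g (ee hpq (a + (i : ZMod (l * d)) * (d : ZMod (l * d)))).1
          (ee hpq (a + (i : ZMod (l * d)) * (d : ZMod (l * d)))).2 =
          g ((ee hpq a).1 + (i : ZMod l) * (d : ZMod l)) (ee hpq a).2 := by
        intro i _
        rw [map_add, map_mul, ee_natCast, ee_natCast]
        congr 1
        simp
      rw [sum_congr rfl h1, sum_range_shift (fun u => g u (ee hpq a).2) _
        (pq_ne (p := l) (q := d) hpq), hg.dp, map_mul, ee_natCast]
      congr 1
      simp
    · have hdp : d = p := Nat.eq_of_mul_eq_mul_left hq.out.pos (by rw [hd, mul_comm])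
      subst hdp
      have h1 : ∀ i ∈ range l, g (ee hpq (a + (i : ZMod (d * l)) * (d : ZMod (d * l)))).1
          (ee hpq (a + (i : ZMod (d * l)) * (d : ZMod (d * l)))).2 =
          g (ee hpq a).1 ((ee hpq a).2 + (i : ZMod l) * (d : ZMod l)) := by
        intro i _
        rw [map_add, map_mul, ee_natCast, ee_natCast]
        congr 1
        simp
      rw [sum_congr rfl h1, sum_range_shift (fun v => g (ee hpq a).1 v) _
        (pq_ne (p := l) (q := d) (fun h => hpq h.symm)), hg.dq, map_mul, ee_natCast]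
      congr 1
      simp

lemma sum_two (hpq : p ≠ q) {Q : Type*} [AddCommMonoid Q] (F : ZMod (p * q) → Q) :
    ∑ a, F a = ∑ u, ∑ v, two hpq F u v := by
  rw [← Fintype.sum_prod_type' (f := fun u v => two hpq F u v)]
  exact Fintype.sum_equiv (ee hpq).toEquiv _ _ fun a => two_apply hpq F a

lemma rel_two (hpq : p ≠ q) {x : ZMod (p * q) → ℤ} (hx : Rel x) : Rel2 (two hpq x) := by
  intro g hg
  have h1 := rel_int hx (d2_odd hpq hg)
  rw [sum_two hpq] at h1
  rw [← h1]
  refine sum_congr rfl fun u _ => sum_congr rfl fun v _ => ?_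
  unfold two
  simp

/-- **Relations of level `p * q`.** -/
theorem level_two (hp2 : p ≠ 2) (hq2 : q ≠ 2) (hpq : p ≠ q) (hleg : legendreSym p q = -1)
    {x : ZMod (p * q) → ℤ} (hx : Rel x)
    (hev : ((∑ b, x b • par (p * q) p b : ZMod 2)) = 0)
    {Q : Type*} [AddCommGroup Q] {c : ZMod (p * q) → Q} (hc : OddDist c) :
    ∑ b, x b • c b = 0 := by
  classical
  rw [sum_two hpq]
  refine two_core hp2 hq2 hpq hleg (rel_two hpq hx) ?_ (two_d2 hpq hc)
  rw [sum_two hpq] at hev
  have hpq' := pq_ne (p := q) (q := p) (fun h => hpq h.symm)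
  have h1 : ∀ u v, two hpq (fun b => x b • par (p * q) p b) u v =
      if v = 0 then (if u = 0 then 0 else ((two hpq x u v : ℤ) : ZMod 2)) else 0 := by
    intro u v
    simp only [two]
    set b := (ee hpq).symm (u, v) with hb
    have hb1 : ee hpq b = (u, v) := by rw [hb, RingEquiv.apply_symm_apply]
    have hb0 : b = 0 ↔ u = 0 ∧ v = 0 := by
      rw [← (ee hpq).map_eq_zero_iff, hb1]
      exact Prod.mk_eq_zero
    have hpb : (p : ZMod (p * q)) * b = 0 ↔ v = 0 := by
      rw [← (ee hpq).map_eq_zero_iff, map_mul, ee_natCast, hb1]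
      constructor
      · intro h
        have := congrArg Prod.snd h
        simp only [Prod.snd_mul, Prod.snd_zero] at this
        exact (mul_eq_zero.mp this).resolve_left hpq'
      · intro h
        rw [h]; simp
    unfold par
    simp only [hpb, hb0]
    by_cases hv : v = 0
    · by_cases hu : u = 0
      · simp only [hu, hv, and_self, if_true]
        have : (1 + 1 : ZMod 2) = 0 := by decide
        rw [this, smul_zero]
      · simp only [hu, hv, false_and, if_true, if_false, add_zero]
        rw [zsmul_eq_mul, mul_one]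
    · simp [hv]
  rw [sum_congr rfl fun u _ => sum_congr rfl fun v _ => h1 u v] at hev
  simp only [Finset.sum_ite_eq', Finset.mem_univ, if_true] at hev
  have h2 : ((∑ u ∈ univ.erase (0 : ZMod p), two hpq x u 0 : ℤ) : ZMod 2) = 0 := by
    push_cast
    rw [← hev, ← add_sum_erase univ _ (mem_univ (0 : ZMod p)), if_pos rfl, zero_add]
    refine sum_congr rfl fun u hu => ?_
    rw [if_neg (ne_of_mem_erase hu)]
  exact (ZMod.intCast_zmod_eq_zero_iff_dvd _ 2).mp h2

end Pool.Agent.H916K
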