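import Pool.Agent.H916K.FourB
import Pool.Agent.H916K.Double

/-!
# Relations of level `4 * q`, degrees `2 ^ a * q ^ b`
-/

set_option linter.unusedSectionVars false

namespace Pool.Agent.H916K

open Finset Pool.Agent.H916R2

variable {q : ℕ} [hq : Fact q.Prime]

lemma cop4 (hq2 : q ≠ 2) : Nat.Coprime 4 q := by
  have h : Nat.Coprime 2 q := (Nat.coprime_primes Nat.prime_two hq.out).mpr (fun h => hq2 h.symm)
  have h2 : Nat.Coprime (2 ^ 2) q := Nat.Coprime.pow_left 2 h
  exact h2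

/-- coordinates -/
noncomputable def ef (hq2 : q ≠ 2) : ZMod (4 * q) ≃+* ZMod 4 × ZMod q :=
  ZMod.chineseRemainder (cop4 hq2)

instance neZero_four : NeZero (4 * q) := ⟨Nat.mul_ne_zero (by norm_num) hq.out.ne_zero⟩

lemma ef_natCast (hq2 : q ≠ 2) (n : ℕ) : ef hq2 (n : ZMod (4 * q)) = ((n : ZMod 4), (n : ZMod q)) := by
  rw [map_natCast]; rfl

/-- a distribution in coordinates -/
noncomputable def fr (hq2 : q ≠ 2) {Q : Type*} (c : ZMod (4 * q) → Q) (u : ZMod 4) (v : ZMod q) : Q :=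
  c ((ef hq2).symm (u, v))

lemma fr_apply (hq2 : q ≠ 2) {Q : Type*} (c : ZMod (4 * q) → Q) (a : ZMod (4 * q)) :
    c a = fr hq2 c (ef hq2 a).1 (ef hq2 a).2 := by
  unfold fr
  rw [Prod.mk.eta, RingEquiv.symm_apply_apply]

lemma two_q (hq2 : q ≠ 2) : ((2 * q : ℕ) : ZMod 4) = 2 := by
  push_cast
  rcases q_mod4 hq2 with h | h <;> rw [h] <;> rfl

lemma four_zero : ((4 : ℕ) : ZMod 4) = 0 := rfl

lemma four_ne (hq2 : q ≠ 2) : ((4 : ℕ) : ZMod q) ≠ 0 := by
  have h := two_ne hq2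
  have : ((4 : ℕ) : ZMod q) = 2 * 2 := by push_cast; norm_num
  rw [this]
  exact mul_ne_zero h h

lemma ef_shift2 (hq2 : q ≠ 2) (a : ZMod (4 * q)) :
    ef hq2 (a + ((1 : ℕ) : ZMod (4 * q)) * ((2 * q : ℕ) : ZMod (4 * q))) =
      ((ef hq2 a).1 + 2, (ef hq2 a).2) := by
  rw [map_add, map_mul, ef_natCast, ef_natCast, two_q hq2]
  refine Prod.ext ?_ ?_
  · simp
  · simp

lemma ef_shift4 (hq2 : q ≠ 2) (a : ZMod (4 * q)) (i : ℕ) :
    ef hq2 (a + (i : ZMod (4 * q)) * ((4 : ℕ) : ZMod (4 * q))) =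
      ((ef hq2 a).1, (ef hq2 a).2 + (i : ZMod q) * ((4 : ℕ) : ZMod q)) := by
  rw [map_add, map_mul, ef_natCast, ef_natCast, four_zero]
  refine Prod.ext ?_ ?_
  · simp
  · simp

lemma ef_mul (hq2 : q ≠ 2) (n : ℕ) (a : ZMod (4 * q)) :
    ef hq2 ((n : ZMod (4 * q)) * a) = ((n : ZMod 4) * (ef hq2 a).1, (n : ZMod q) * (ef hq2 a).2) := by
  rw [map_mul, ef_natCast]; rfl

lemma fr_d4 (hq2 : q ≠ 2) {Q : Type*} [AddCommGroup Q] {c : ZMod (4 * q) → Q} (hc : OddDist c) :
    D4 (fr hq2 c) where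
  neg := fun u v => by
    unfold fr
    rw [← hc.neg, ← map_neg]; rfl
  zero := by
    unfold fr
    have : ((0 : ZMod 4), (0 : ZMod q)) = 0 := rfl
    rw [this, map_zero]
    exact hc.half 0 (by simp)
  two := by
    unfold fr
    apply hc.half
    rw [← map_add]
    have : ((2 : ZMod 4), (0 : ZMod q)) + (2, 0) = 0 := Prod.ext rfl (add_zero 0)
    rw [this, map_zero]
  d2 := fun u v => by
    have h1 := hc.dist 2 (2 * q) Nat.prime_two (by ring) ((ef hq2).symm (u, v))
    rw [sum_range_succ, sum_range_one] at h1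
    rw [fr_apply hq2 c (((2 : ℕ) : ZMod (4 * q)) * _),
      fr_apply hq2 c (_ + ((1 : ℕ) : ZMod (4 * q)) * _), ef_mul, ef_shift2,
      RingEquiv.apply_symm_apply] at h1
    have h2 : (ef hq2).symm (u, v) + ((0 : ℕ) : ZMod (4 * q)) * ((2 * q : ℕ) : ZMod (4 * q)) =
        (ef hq2).symm (u, v) := by push_cast; ring
    rw [h2] at h1
    push_cast at h1
    exact h1
  dq := fun u => by
    have h1 := hc.dist q 4 hq.out (mul_comm q 4) ((ef hq2).symm (u, 0))
    rw [fr_apply hq2 c ((q : ZMod (4 * q)) * _), ef_mul, RingEquiv.apply_symm_apply, mul_zero] at h1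
    rw [← h1, ← sum_range_shift (fun v => fr hq2 c u v) 0 (four_ne hq2)]
    refine sum_congr rfl fun i _ => ?_
    rw [fr_apply hq2 c (_ + _), ef_shift4, RingEquiv.apply_symm_apply]

lemma d4_odd (hq2 : q ≠ 2) {g : ZMod 4 → ZMod q → ℤ} (hg : D4 g) :
    OddDist (fun a : ZMod (4 * q) => g (ef hq2 a).1 (ef hq2 a).2) where
  neg := fun a => by
    rw [map_neg]
    exact hg.neg _ _
  half := fun a ha => by
    have h1 : a = -a := eq_neg_of_add_eq_zero_left ha
    have h2 : g (ef hq2 a).1 (ef hq2 a).2 = - g (ef hq2 a).1 (ef hq2 a).2 := by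
      conv_lhs => rw [h1, map_neg]
      exact hg.neg _ _
    linarith
  dist := fun l d hl hd a => by
    have hcase : l = 2 ∨ l = q := by
      have h1 : l ∣ 4 * q := by rw [← hd]; exact dvd_mul_right l d
      rcases (Nat.Prime.dvd_mul hl).mp h1 with h | h
      · left
        have h2 : l ∣ 2 ^ 2 := h
        exact (Nat.prime_dvd_prime_iff_eq hl Nat.prime_two).mp (hl.dvd_of_dvd_pow h2)
      · exact Or.inr ((Nat.prime_dvd_prime_iff_eq hl hq.out).mp h)
    rcases hcase with rfl | rfl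
    · have hdq : d = 2 * q := by omega
      subst hdq
      rw [sum_range_succ, sum_range_one]
      simp only [ef_shift2, ef_mul]
      have h2 : a + ((0 : ℕ) : ZMod (4 * q)) * ((2 * q : ℕ) : ZMod (4 * q)) = a := by push_cast; ring
      rw [h2, hg.d2]
      push_cast; rfl
    · have hdp : d = 4 := Nat.eq_of_mul_eq_mul_left hq.out.pos (by rw [hd, mul_comm])
      subst hdp
      simp only [ef_shift4, ef_mul]
      rw [sum_range_shift (fun v => g (ef hq2 a).1 v) _ (four_ne hq2), hg.dq]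
      congr 1
      simp

lemma sum_fr (hq2 : q ≠ 2) {Q : Type*} [AddCommMonoid Q] (F : ZMod (4 * q) → Q) :
    ∑ a, F a = ∑ u, ∑ v, fr hq2 F u v := by
  rw [← Fintype.sum_prod_type' (f := fun u v => fr hq2 F u v)]
  exact Fintype.sum_equiv (ef hq2).toEquiv _ _ fun a => fr_apply hq2 F a

lemma rel_four (hq2 : q ≠ 2) {x : ZMod (4 * q) → ℤ} (hx : Rel x) : Rel4 (fr hq2 x) := by
  intro g hg
  have h1 := rel_int hx (d4_odd hq2 hg)
  rw [sum_fr hq2] at h1
  rw [← h1]
  refine sum_congr rfl fun u _ => sum_congr rfl fun v _ => ?_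
  unfold fr
  simp

/-- **Relations of level `4 * q`.** -/
theorem level_four (hq2 : q ≠ 2) (hleg : legendreSym q 2 = -1) {x : ZMod (4 * q) → ℤ} (hx : Rel x)
    (hev : ((∑ b, x b • par (4 * q) q b : ZMod 2)) = 0)
    {Q : Type*} [AddCommGroup Q] {c : ZMod (4 * q) → Q} (hc : OddDist c) :
    ∑ b, x b • c b = 0 := by
  classical
  rw [sum_fr hq2]
  refine four_core hq2 hleg (rel_four hq2 hx) ?_ (fr_d4 hq2 hc)
  rw [sum_fr hq2] at hev
  have hq4 : ∀ u : ZMod 4, (q : ZMod 4) * u = 0 ↔ u = 0 := by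
    intro u
    rcases q_mod4 hq2 with h | h <;> rw [h]
    · rw [one_mul]
    · revert u; decide
  have h1 : ∀ u v, fr hq2 (fun b => x b • par (4 * q) q b) u v =
      if u = 0 then (if v = 0 then 0 else ((fr hq2 x u v : ℤ) : ZMod 2)) else 0 := by
    intro u v
    simp only [fr]
    set b := (ef hq2).symm (u, v) with hb
    have hb1 : ef hq2 b = (u, v) := by rw [hb, RingEquiv.apply_symm_apply]
    have hb0 : b = 0 ↔ u = 0 ∧ v = 0 := by
      rw [← (ef hq2).map_eq_zero_iff, hb1]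
      exact Prod.mk_eq_zero
    have hpb : (q : ZMod (4 * q)) * b = 0 ↔ u = 0 := by
      rw [← (ef hq2).map_eq_zero_iff, ef_mul, hb1, Prod.mk_eq_zero, hq4]
      simp
    unfold par
    simp only [hpb, hb0]
    by_cases hu : u = 0
    · by_cases hv : v = 0
      · simp only [hu, hv, and_self, if_true]
        have : (1 + 1 : ZMod 2) = 0 := by decide
        rw [this, smul_zero]
      · simp only [hu, hv, and_false, if_true, if_false, add_zero]
        rw [zsmul_eq_mul, mul_one]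
    · simp [hu]
  rw [sum_congr rfl fun u _ => sum_congr rfl fun v _ => h1 u v] at hev
  have h3 : ∀ u : ZMod 4, (∑ v : ZMod q, if u = 0 then
      (if v = 0 then (0 : ZMod 2) else ((fr hq2 x u v : ℤ) : ZMod 2)) else 0) =
      if u = 0 then ∑ v : ZMod q, (if v = 0 then (0 : ZMod 2) else ((fr hq2 x u v : ℤ) : ZMod 2))
        else 0 := by
    intro u
    by_cases hu : u = 0
    · simp only [hu, if_true]
    · simp only [hu, if_false, sum_const_zero]
  rw [sum_congr rfl fun u _ => h3 u, Finset.sum_ite_eq', if_pos (mem_univ _)] at hev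
  have h2 : ((∑ v ∈ univ.erase (0 : ZMod q), fr hq2 x 0 v : ℤ) : ZMod 2) = 0 := by
    push_cast
    rw [← hev, ← add_sum_erase univ _ (mem_univ (0 : ZMod q)), if_pos rfl, zero_add]
    refine sum_congr rfl fun v hv => ?_
    rw [if_neg (ne_of_mem_erase hv)]
  exact (ZMod.intCast_zmod_eq_zero_iff_dvd _ 2).mp h2

end Pool.Agent.H916K
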