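import Pool.Agent.H916K.Pure
import Pool.Agent.H916K.Defs

/-!
# The parity of the number of entries of `q`-power order
-/

set_option linter.unusedSectionVars false

namespace Pool.Agent.H916K

open Finset

/-- the algebraic integers -/
abbrev AI : Type := integralClosure ℤ ℂ

lemma exists_red {q : ℕ} (hq : q.Prime) :
    ∃ (k : Type) (_ : Field k) (_ : CharP k q), Nonempty (AI →+* k) := by
  have hmax : (Ideal.span {(q : ℤ)}).IsMaximal := by
    have := PrincipalIdealRing.isMaximal_of_irreducible (p := (q : ℤ))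
      (Nat.prime_iff_prime_int.mp hq).irreducible
    exact this
  obtain ⟨Q, hQ, hcomap⟩ := Ideal.exists_ideal_over_maximal_of_isIntegral (S := AI)
    (Ideal.span {(q : ℤ)}) (by
      intro x hx
      rw [RingHom.mem_ker] at hx
      have : x = 0 := by
        have h1 : ((algebraMap ℤ AI x : AI) : ℂ) = (x : ℂ) := by simp
        rw [hx] at h1
        have h2 : (x : ℂ) = 0 := by rw [← h1]; rfl
        exact_mod_cast h2
      rw [this]; exact Ideal.zero_mem _)
  have hfield : Field (AI ⧸ Q) := Ideal.Quotient.field Q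
  refine ⟨AI ⧸ Q, Ideal.Quotient.field Q, ?_, ⟨Ideal.Quotient.mk Q⟩⟩
  have h0 : ((q : ℕ) : AI ⧸ Q) = 0 := by
    have h1 : (q : ℤ) ∈ Ideal.comap (algebraMap ℤ AI) Q := by
      rw [hcomap]; exact Ideal.mem_span_singleton_self _
    rw [Ideal.mem_comap] at h1
    have h2 : (algebraMap ℤ AI (q : ℤ)) = ((q : ℕ) : AI) := by simp
    rw [h2] at h1
    have h3 := Ideal.Quotient.eq_zero_iff_mem.mpr h1
    simpa using h3
  exact (CharP.charP_iff_prime_eq_zero hq).mpr h0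

section

variable {ℓ : ℕ} [Fact ℓ.Prime] {F : Type} [Field F] [Fintype F] [Algebra (ZMod ℓ) F]
  {A : Type} [CommRing A] [IsDomain A] [CharZero A] {k : Type} [Field k] {q : ℕ} [Fact q.Prime]
  [CharP k q] (φ : A →+* k)

lemma pow_one_of_char {t : k} {b : ℕ} (h : t ^ q ^ b = 1) : t = 1 := by
  have h1 : (t - 1) ^ q ^ b = 0 := by
    rw [sub_pow_char_pow, h, one_pow, sub_self]
  have := pow_eq_zero_iff (pow_ne_zero b (Fact.out : q.Prime).ne_zero) |>.mp h1
  exact sub_eq_zero.mp this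

lemma mulChar_pow_one {R : Type} [CommRing R] {χ : MulChar F R} {n : ℕ} (h : orderOf χ = n) {x : F}
    (hx : x ≠ 0) : χ x ^ n = 1 := by
  by_cases hn : n = 0
  · rw [hn, pow_zero]
  · rw [← MulChar.pow_apply' χ hn, ← h, pow_orderOf_eq_one]
    exact MulChar.one_apply (isUnit_iff_ne_zero.mpr hx)

lemma mulChar_pow_apply {R : Type} [CommRing R] (χ : MulChar F R) (n : ℕ) {x : F} (hx : x ≠ 0) :
    (χ ^ n) x = χ x ^ n := by
  have := MulChar.pow_apply_coe χ n (Units.mk0 x hx)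
  simpa using this

include q in
lemma red_val {M b : ℕ} {χ : MulChar F A} (hχ : orderOf χ = M * q ^ b) {x : F} (hx : x ≠ 0) :
    φ (χ x) ^ M = 1 := by
  apply pow_one_of_char (q := q) (b := b)
  rw [← pow_mul, ← map_pow, mulChar_pow_one hχ hx, map_one]

include q in
lemma red_coef {M b : ℕ} (hcard : Fintype.card F = ℓ ^ 2) (hM : M ∣ ℓ + 1)
    {χ : MulChar F A} (hχ : orderOf χ = M * q ^ b) {c : ℤ} (hc : (c : F) ≠ 0) (a : ℕ) :
    φ ((χ ^ a) (c : F)) = 1 := by
  have hℓ2 := (Fact.out : ℓ.Prime).two_le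
  have hcard1 : (ℓ - 1) * (ℓ + 1) = Fintype.card F - 1 := by
    rw [hcard]
    obtain ⟨k, rfl⟩ : ∃ k, ℓ = k + 1 := ⟨ℓ - 1, by omega⟩
    simp only [Nat.add_sub_cancel]
    have : (k + 1) ^ 2 = k * (k + 1 + 1) + 1 := by ring
    omega
  have h1 : (c : F) = algebraMap (ZMod ℓ) F (c : ZMod ℓ) := by simp
  have h2 : (c : ZMod ℓ) ≠ 0 := by
    intro h
    apply hc
    rw [h1, h, map_zero]
  have h3 : (χ.ringHomComp φ) (c : F) = 1 := by
    refine mulChar_one (k := ℓ - 1) (n := ℓ + 1) (M := M) (by omega) hcard1 hM hc ?_ _ ?_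
    · rw [h1, ← map_pow, ZMod.pow_card_sub_one_eq_one h2, map_one]
    · intro y hy
      rw [MulChar.ringHomComp_apply]
      exact red_val (q := q) φ hχ hy
  rw [MulChar.ringHomComp_apply] at h3
  rw [mulChar_pow_apply χ a hc, map_pow, h3, one_pow]

include q in
theorem red_gauss (hcard : Fintype.card F = ℓ ^ 2) {M b : ℕ} (hM : 2 * M ∣ ℓ + 1)
    (hcop : M.Coprime q) (hℓq : (ℓ : k) = 1) {χ : MulChar F A} (hχ : orderOf χ = M * q ^ b)
    {ψ0 : AddChar (ZMod ℓ) A} (hψ : ψ0 ≠ 1) (a : ℕ) :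
    φ (gaussSum (χ ^ a) (ψ0.compAddMonoidHom (Algebra.trace (ZMod ℓ) F).toAddMonoidHom)) =
      if M ∣ a then -1 else 1 := by
  classical
  set ψ := ψ0.compAddMonoidHom (Algebra.trace (ZMod ℓ) F).toAddMonoidHom with hψdef
  have hψ1 : ψ ≠ 1 := by
    intro h
    apply hψ
    ext c
    obtain ⟨x, hx⟩ := Algebra.trace_surjective (ZMod ℓ) F c
    have h4 : ψ x = 1 := by rw [h]; rfl
    rw [← hx]
    exact h4
  have hsame : ∀ a' : ℕ, a ≡ a' [MOD M] →
      φ (gaussSum (χ ^ a) ψ) = φ (gaussSum (χ ^ a') ψ) := by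
    intro a' haa'
    unfold gaussSum
    rw [map_sum, map_sum]
    refine sum_congr rfl fun x _ => ?_
    rw [map_mul, map_mul]
    congr 1
    by_cases hx : x = 0
    · rw [hx, MulChar.map_zero, MulChar.map_zero]
    · rw [mulChar_pow_apply χ a hx, mulChar_pow_apply χ a' hx, map_pow, map_pow]
      exact pow_eq_pow_of_modEq haa' (red_val (q := q) φ hχ hx)
  split_ifs with h
  · have h1 : a ≡ 0 [MOD M] := (Nat.modEq_zero_iff_dvd).mpr h
    rw [hsame 0 h1, pow_zero, gaussSum_one_left hψ1, map_neg, map_one]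
  · have hcop' : M.Coprime (q ^ b) := hcop.pow_right b
    set a' : ℕ := (Nat.chineseRemainder hcop' a 0 : ℕ) with ha'
    have h1 : a' ≡ a [MOD M] := (Nat.chineseRemainder hcop' a 0).2.1
    have h2 : a' ≡ 0 [MOD q ^ b] := (Nat.chineseRemainder hcop' a 0).2.2
    rw [Nat.modEq_zero_iff_dvd] at h2
    rw [hsame a' h1.symm]
    have h3 : (χ ^ a') ^ M = 1 := by
      rw [← pow_mul, ← orderOf_dvd_iff_pow_eq_one, hχ, mul_comm]
      exact Nat.mul_dvd_mul_right h2 M
    have h4 : χ ^ a' ≠ 1 := by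
      intro h5
      apply h
      have h6 : M ∣ a' := (Dvd.intro _ rfl : M ∣ M * q ^ b).trans (hχ ▸ orderOf_dvd_of_pow_eq_one h5)
      exact (Nat.modEq_zero_iff_dvd).mp (h1.symm.trans ((Nat.modEq_zero_iff_dvd).mpr h6))
    rw [gauss_pure hcard hM h3 h4 hψ, map_natCast, hℓq]

end

lemma exists_prime {M q b : ℕ} (hM : 0 < M) (hq : q.Prime) (hq2 : q ≠ 2) (hcop : M.Coprime q)
    (N : ℕ) : ∃ ℓ : ℕ, N < ℓ ∧ ℓ.Prime ∧ 2 * M ∣ ℓ + 1 ∧ ((ℓ : ℕ) : ZMod (q ^ b)) = 1 := by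
  have hcop' : (2 * M).Coprime (q ^ b) := by
    apply Nat.Coprime.pow_right
    apply Nat.Coprime.mul_left _ hcop
    exact (Nat.coprime_primes Nat.prime_two hq).mpr (fun h => hq2 h.symm)
  have hpos : 0 < 2 * M * q ^ b := by have := hq.pos; positivity
  have : NeZero (2 * M * q ^ b) := ⟨hpos.ne'⟩
  set r : ℕ := (Nat.chineseRemainder hcop' (2 * M - 1) 1 : ℕ) with hr
  have h1 : r ≡ 2 * M - 1 [MOD 2 * M] := (Nat.chineseRemainder hcop' (2 * M - 1) 1).2.1
  have h2 : r ≡ 1 [MOD q ^ b] := (Nat.chineseRemainder hcop' (2 * M - 1) 1).2.2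
  have h3 : r.Coprime (2 * M * q ^ b) := by
    apply Nat.Coprime.mul_right
    · have h4 : (2 * M - 1).Coprime (2 * M) := by
        have : Nat.Coprime (2 * M - 1) (2 * M - 1 + 1) := (Nat.coprime_self_add_right).mpr (by simp)
        rwa [Nat.sub_add_cancel (by omega)] at this
      exact (Nat.ModEq.gcd_eq h1).trans h4
    · exact (Nat.ModEq.gcd_eq h2).trans (by simp)
  obtain ⟨ℓ, hℓN, hℓ, hℓr⟩ := Nat.forall_exists_prime_gt_and_eq_mod
    ((ZMod.isUnit_iff_coprime r (2 * M * q ^ b)).mpr h3) N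
  rw [ZMod.natCast_eq_natCast_iff] at hℓr
  refine ⟨ℓ, hℓN, hℓ, ?_, ?_⟩
  · have h5 : ℓ ≡ 2 * M - 1 [MOD 2 * M] := (hℓr.of_mul_right _).trans h1
    have h6 : ℓ + 1 ≡ 2 * M - 1 + 1 [MOD 2 * M] := h5.add_right 1
    rw [Nat.sub_add_cancel (by omega)] at h6
    exact (Nat.modEq_zero_iff_dvd).mp (h6.trans ((Nat.modEq_zero_iff_dvd).mpr dvd_rfl))
  · have h5 : ℓ ≡ 1 [MOD q ^ b] := (hℓr.of_mul_left _).trans h2
    have := (ZMod.natCast_eq_natCast_iff _ _ _).mpr h5
    simpa using this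

lemma prod_signs {α : Type} {R : Type} [CommRing R] (P : α → Prop) [DecidablePred P]
    (s : Multiset α) : (s.map fun z => if P z then (-1 : R) else 1).prod = (-1) ^ (s.countP P) := by
  induction s using Multiset.induction_on with
  | empty => simp
  | cons a s ih =>
    rw [Multiset.map_cons, Multiset.prod_cons, ih, Multiset.countP_cons]
    split_ifs with h
    · rw [pow_succ]; ring
    · rw [one_mul, add_zero]

lemma int_cast_ne_zero {ℓ : ℕ} {F : Type} [Field F] [CharP F ℓ] {c : ℤ} (hc : c ≠ 0)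
    (h : c.natAbs < ℓ) : (c : F) ≠ 0 := by
  intro h0
  rw [CharP.intCast_eq_zero_iff F ℓ] at h0
  have := Int.natAbs_dvd_natAbs.mpr h0
  rw [Int.natAbs_natCast] at this
  exact absurd (Nat.le_of_dvd (Int.natAbs_pos.mpr hc) this) (by omega)

/-- **Parity.** For a rational class, the number of entries whose order is a power of the odd
prime `q` is even. -/
theorem even_of_rational {m M q b : ℕ} (hm : m = M * q ^ b) (hM : 3 ≤ M) (hq : q.Prime)
    (hq2 : q ≠ 2) (hcop : M.Coprime q) {s : Multiset (ZMod m × ℤ)} (hc : ∀ z ∈ s, z.2 ≠ 0)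
    (hR : RationalClass m s) : Even (s.countP fun z => M ∣ z.1.val) := by
  classical
  obtain ⟨N, hN⟩ := hR
  obtain ⟨ℓ, hℓN, hℓ, hℓM, hℓq⟩ := exists_prime (M := M) (b := b + 1) (by omega) hq hq2 hcop
    (N + (s.map fun z => z.2.natAbs).sum)
  have : Fact ℓ.Prime := ⟨hℓ⟩
  have : Fact q.Prime := ⟨hq⟩
  have : Fintype (GaloisField ℓ 2) := Fintype.ofFinite _
  have hcard : Fintype.card (GaloisField ℓ 2) = ℓ ^ 2 := by
    rw [← Nat.card_eq_fintype_card]; exact GaloisField.card ℓ 2 (by norm_num)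
  have hℓ2 := hℓ.two_le
  have hMℓ : M ∣ ℓ + 1 := (Dvd.intro_left 2 rfl).trans hℓM
  have hqℓ : q ^ (b + 1) ∣ ℓ - 1 := by
    have h1 : ((ℓ - 1 : ℕ) : ZMod (q ^ (b + 1))) = 0 := by
      rw [Nat.cast_sub (by omega), hℓq]; simp
    exact (ZMod.natCast_eq_zero_iff _ _).mp h1
  have hqb : q ^ b ∣ ℓ - 1 := (pow_dvd_pow q (Nat.le_succ b)).trans hqℓ
  have hfac : ℓ ^ 2 - 1 = (ℓ + 1) * (ℓ - 1) := by
    obtain ⟨k, rfl⟩ : ∃ k, ℓ = k + 1 := ⟨ℓ - 1, by omega⟩
    simp only [Nat.add_sub_cancel]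
    have : (k + 1) ^ 2 = (k + 1 + 1) * k + 1 := by ring
    omega
  have hmdvd : m ∣ ℓ ^ 2 - 1 := by
    rw [hfac, hm]; exact Nat.mul_dvd_mul hMℓ hqb
  have hord : orderOf (ℓ : ZMod m) = 2 := by
    have : Fact (Nat.Prime 2) := ⟨Nat.prime_two⟩
    apply orderOf_eq_prime
    · have h1 : ((ℓ ^ 2 - 1 : ℕ) : ZMod m) = 0 := (ZMod.natCast_eq_zero_iff _ _).mpr hmdvd
      rw [Nat.cast_sub (Nat.one_le_pow _ _ (by omega))] at h1
      push_cast at h1
      linear_combination h1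
    · intro h1
      have h2 : ((ℓ - 1 : ℕ) : ZMod m) = 0 := by
        rw [Nat.cast_sub (by omega), h1]; simp
      have h3 : m ∣ ℓ - 1 := (ZMod.natCast_eq_zero_iff _ _).mp h2
      have h4 : M ∣ ℓ - 1 := (hm ▸ Dvd.intro _ rfl : M ∣ m).trans h3
      have h5 : M ∣ (ℓ + 1) - (ℓ - 1) := Nat.dvd_sub hMℓ h4
      have h6 : (ℓ + 1) - (ℓ - 1) = 2 := by omega
      rw [h6] at h5
      have := Nat.le_of_dvd (by norm_num) h5
      omega
  obtain ⟨k, _, _, ⟨φ⟩⟩ := exists_red hq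
  -- roots of unity
  have hinj : Function.Injective (algebraMap AI ℂ) := Subtype.val_injective
  have hroot : ∀ n : ℕ, n ≠ 0 → ∃ ζ : AI, IsPrimitiveRoot ζ n := by
    intro n hn
    have h1 := Complex.isPrimitiveRoot_exp n hn
    have h2 : IsIntegral ℤ (Complex.exp (2 * Real.pi * Complex.I / n)) :=
      h1.isIntegral (Nat.pos_of_ne_zero hn)
    refine ⟨⟨_, h2⟩, ?_⟩
    exact IsPrimitiveRoot.of_map_of_injective (f := algebraMap AI ℂ) h1 hinj
  have hm0 : m ≠ 0 := by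
    rw [hm]; have := hq.pos; positivity
  obtain ⟨ζ, hζ⟩ := hroot m hm0
  obtain ⟨ξ, hξ⟩ := hroot ℓ hℓ.ne_zero
  obtain ⟨χ, hχ⟩ := MulChar.exists_mulChar_orderOf (GaloisField ℓ 2) (n := m)
    (by rw [hcard]; exact hmdvd) hζ
  set ψ0 : AddChar (ZMod ℓ) AI := AddChar.zmodChar ℓ hξ.pow_eq_one with hψ0
  have hψ1 : ψ0 ≠ 1 := by
    intro h
    have h1 : ψ0 1 = 1 := by rw [h]; rfl
    rw [hψ0, AddChar.zmodChar_apply] at h1
    have : Fact (1 < ℓ) := ⟨hℓ.one_lt⟩
    rw [ZMod.val_one, pow_one] at h1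
    exact hξ.ne_one hℓ.one_lt h1
  set ψ := ψ0.compAddMonoidHom (Algebra.trace (ZMod ℓ) (GaloisField ℓ 2)).toAddMonoidHom with hψdef
  have hψ2 : ψ ≠ 1 := by
    intro h
    apply hψ1
    ext c
    obtain ⟨x, hx⟩ := Algebra.trace_surjective (ZMod ℓ) (GaloisField ℓ 2) c
    have h4 : ψ x = 1 := by rw [h]; rfl
    rw [← hx]
    exact congrArg _ h4
  -- transfer to the complex numbers
  set χ' : MulChar (GaloisField ℓ 2) ℂ := χ.ringHomComp (algebraMap AI ℂ) with hχ'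
  set ψ' : AddChar (GaloisField ℓ 2) ℂ := (algebraMap AI ℂ).toMonoidHom.compAddChar ψ with hψ'
  have hordχ : orderOf χ' = m := by
    rw [← hχ]
    exact orderOf_injective (MulChar.ringHomCompHom (algebraMap AI ℂ))
      (MulChar.injective_ringHomComp hinj) χ
  have hψ'1 : ψ' ≠ 1 := by
    intro h
    apply hψ2
    ext x
    have h1 : ψ' x = 1 := by rw [h]; rfl
    exact h1
  have h1 := hN ℓ (by omega) hℓ (GaloisField ℓ 2) (by rw [hord]; exact hcard) χ' ψ' hordχ hψ'1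
  have hg : ∀ a : ℕ, gaussSum (χ' ^ a) ψ' = algebraMap AI ℂ (gaussSum (χ ^ a) ψ) := by
    intro a
    unfold gaussSum
    rw [map_sum]
    refine sum_congr rfl fun x _ => ?_
    rw [map_mul, hχ', MulChar.ringHomComp_pow, MulChar.ringHomComp_apply]
    rfl
  have hcoef : ∀ (a : ℕ) (c : ℤ), (χ' ^ a) (c : GaloisField ℓ 2) =
      algebraMap AI ℂ ((χ ^ a) (c : GaloisField ℓ 2)) := by
    intro a c
    rw [hχ', MulChar.ringHomComp_pow, MulChar.ringHomComp_apply]
  have h2 : (s.map fun z => gaussSum (χ ^ z.1.val) ψ).prod =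
      (Fintype.card (GaloisField ℓ 2) : AI) ^ (Multiset.card s / 2) *
        (s.map fun z => (χ ^ z.1.val) (z.2 : GaloisField ℓ 2)).prod := by
    apply hinj
    rw [map_mul, map_pow, map_natCast, map_multiset_prod, map_multiset_prod, Multiset.map_map,
      Multiset.map_map]
    have e1 : (s.map ((algebraMap AI ℂ) ∘ fun z => gaussSum (χ ^ z.1.val) ψ)) =
        s.map fun z => gaussSum (χ' ^ z.1.val) ψ' :=
      Multiset.map_congr rfl fun z _ => (hg _).symm
    have e2 : (s.map ((algebraMap AI ℂ) ∘ fun z => (χ ^ z.1.val) (z.2 : GaloisField ℓ 2))) =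
        s.map fun z => (χ' ^ z.1.val) (z.2 : GaloisField ℓ 2) :=
      Multiset.map_congr rfl fun z _ => (hcoef _ _).symm
    rw [e1, e2]
    exact h1
  have hℓk : ((ℓ : ℕ) : k) = 1 := by
    have h3 : ((ℓ - 1 : ℕ) : k) = 0 := by
      rw [CharP.cast_eq_zero_iff k q]
      exact (dvd_pow_self q (by omega)).trans hqℓ
    rw [Nat.cast_sub (by omega), Nat.cast_one] at h3
    exact sub_eq_zero.mp h3
  have hχm : orderOf χ = M * q ^ b := by rw [hχ, hm]
  have h3 := congrArg φ h2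
  rw [map_mul, map_pow, map_natCast, map_multiset_prod, map_multiset_prod, Multiset.map_map,
    Multiset.map_map] at h3
  have e1 : (s.map (φ ∘ fun z => gaussSum (χ ^ z.1.val) ψ)) =
      s.map fun z => if M ∣ z.1.val then (-1 : k) else 1 :=
    Multiset.map_congr rfl fun z _ => red_gauss φ hcard hℓM hcop hℓk hχm hψ1 _
  have e2 : (s.map (φ ∘ fun z => (χ ^ z.1.val) (z.2 : GaloisField ℓ 2))) = s.map fun _ => (1 : k) := by
    refine Multiset.map_congr rfl fun z hz => ?_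
    refine red_coef φ hcard hMℓ hχm ?_ _
    apply int_cast_ne_zero (ℓ := ℓ) (hc z hz)
    have : z.2.natAbs ≤ (s.map fun z => z.2.natAbs).sum :=
      Multiset.single_le_sum (fun _ _ => Nat.zero_le _) _ (Multiset.mem_map_of_mem _ hz)
    omega
  rw [e1, e2, prod_signs, hcard] at h3
  push_cast at h3
  rw [hℓk, one_pow, one_pow, one_mul, Multiset.map_const', Multiset.prod_replicate, one_pow] at h3
  by_contra hodd
  rw [Nat.not_even_iff_odd] at hodd
  rw [hodd.neg_one_pow] at h3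
  have h4 : ((2 : ℕ) : k) = 0 := by push_cast; linear_combination -h3
  rw [CharP.cast_eq_zero_iff k q] at h4
  have := (Nat.prime_dvd_prime_iff_eq hq Nat.prime_two).mp h4
  exact hq2 this

end Pool.Agent.H916K
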