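import Pool.Agent.H916K.Double
import Pool.Agent.H916K.Sign

/-!
# Degrees with two odd prime factors
-/

namespace Pool.Agent.H916K

open Finset Pool.Agent.H916R2

lemma oddDist_prod {m : ℕ} {Q R : Type} [AddCommGroup Q] [AddCommGroup R] {c : ZMod m → Q}
    {d : ZMod m → R} (hc : OddDist c) (hd : OddDist d) : OddDist (fun a => (c a, d a)) where
  neg := fun a => Prod.ext (hc.neg a) (hd.neg a)
  half := fun a ha => Prod.ext (hc.half a ha) (hd.half a ha)
  dist := fun p e hp hpe a => by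
    refine Prod.ext ?_ ?_
    · rw [Prod.fst_sum]; exact hc.dist p e hp hpe a
    · rw [Prod.snd_sum]; exact hd.dist p e hp hpe a

/-- reduction to a lower level, keeping track of a parity -/
lemma red_parity {m m0 k : ℕ} [NeZero m] [NeZero m0] (hred : Red m m0 k) {Q : Type}
    [AddCommGroup Q] {c : ZMod m → Q} (hc : OddDist c) {π : ZMod m → ZMod 2} (hπ : OddDist π)
    {s : Multiset (ZMod m)} (hs : IsHodge m s) :
    ∃ x0 : ZMod m0 → ℤ, Rel x0 ∧ (s.map c).sum = ∑ b : ZMod m0, x0 b • c (iota k b) ∧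
      (s.map π).sum = ∑ b : ZMod m0, x0 b • π (iota k b) := by
  obtain ⟨x0, hx0, he⟩ := hred _ _ (oddDist_prod hc hπ) _ hs.rel
  refine ⟨x0, hx0, ?_, ?_⟩
  · have h1 := congrArg Prod.fst he
    rw [Prod.fst_sum, Prod.fst_sum] at h1
    simp only [Prod.smul_fst] at h1
    rw [← h1, sum_count]
  · have h1 := congrArg Prod.snd he
    rw [Prod.snd_sum, Prod.snd_sum] at h1
    simp only [Prod.smul_snd] at h1
    rw [← h1, sum_count]

lemma sum_par {m P : ℕ} [NeZero m] {s : Multiset (ZMod m)} (h0 : (0 : ZMod m) ∉ s) :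
    (s.map (par m P)).sum = ((s.countP fun z => ((P : ℕ) : ZMod m) * z = 0 : ℕ) : ZMod 2) := by
  induction s using Multiset.induction_on with
  | empty => simp
  | cons a s ih =>
    rw [Multiset.mem_cons, not_or] at h0
    rw [Multiset.map_cons, Multiset.sum_cons, ih h0.2, Multiset.countP_cons]
    have h1 : par m P a = if ((P : ℕ) : ZMod m) * a = 0 then 1 else 0 := by
      unfold par
      rw [if_neg (show ¬ a = 0 from fun h => h0.1 h.symm), add_zero]
    rw [h1]
    split_ifs with h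
    · push_cast; ring
    · push_cast; ring

lemma par_iota {p q a : ℕ} (hp : p.Prime) (hq : q.Prime) (hpq : p ≠ q) (ha : 0 < a) {m k : ℕ}
    [NeZero m] [NeZero (p * q)] (hk : k * (p * q) = m) (b : ZMod (p * q)) :
    par m (p ^ a) (iota k b) = par (p * q) p b := by
  have hk0 : 0 < k := Nat.pos_of_ne_zero (by rintro rfl; exact NeZero.ne m (by rw [← hk]; simp))
  have h1 : (iota k b : ZMod m) = 0 ↔ b = 0 :=
    ⟨fun h => iota_eq_zero hk h, fun h => by rw [h]; exact iota_zero⟩
  have h2 : ((p ^ a : ℕ) : ZMod m) * iota k b = 0 ↔ ((p : ℕ) : ZMod (p * q)) * b = 0 := by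
    have e1 : ((p ^ a : ℕ) : ZMod m) * iota k b = ((k * (p ^ a * b.val) : ℕ) : ZMod m) := by
      unfold iota; push_cast; ring
    have e2 : ((p : ℕ) : ZMod (p * q)) * b = ((p * b.val : ℕ) : ZMod (p * q)) := by
      push_cast; rw [ZMod.natCast_zmod_val]
    rw [e1, e2, ZMod.natCast_eq_zero_iff, ZMod.natCast_eq_zero_iff]
    have e3 : m ∣ k * (p ^ a * b.val) ↔ p * q ∣ p ^ a * b.val := by
      have : k * (p * q) ∣ k * (p ^ a * b.val) ↔ p * q ∣ p ^ a * b.val :=
        Nat.mul_dvd_mul_iff_left hk0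
      rwa [hk] at this
    rw [e3]
    have hcop : p.Coprime q := (Nat.coprime_primes hp hq).mpr hpq
    constructor
    · intro h
      have h3 : q ∣ p ^ a * b.val := (Dvd.intro_left p rfl).trans h
      have h4 : q ∣ b.val := (Nat.Coprime.dvd_mul_left (hcop.symm.pow_right a)).mp h3
      exact Nat.mul_dvd_mul_left p h4
    · intro h
      have h3 : q ∣ b.val := (Nat.mul_dvd_mul_iff_left hp.pos).mp h
      exact Nat.mul_dvd_mul (dvd_pow_self p ha.ne') h3
  unfold par
  simp only [h1, h2]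

lemma exists_red_pq {p q a b c m : ℕ} (hp : p.Prime) (hq : q.Prime) (hp2 : p ≠ 2) (hq2 : q ≠ 2)
    (ha : 0 < a) (hb : 0 < b) (hc : c = 1 ∨ c = 2) (hm : c * (p ^ a * q ^ b) = m)
    [NeZero m] [NeZero (p * q)] : ∃ k, k * (p * q) = m ∧ Red m (p * q) k := by
  have hk1 : (p ^ (a - 1) * q ^ (b - 1)) * (p * q) = p ^ a * q ^ b := by
    obtain ⟨a', rfl⟩ : ∃ a', a = a' + 1 := ⟨a - 1, by omega⟩
    obtain ⟨b', rfl⟩ : ∃ b', b = b' + 1 := ⟨b - 1, by omega⟩
    simp only [Nat.add_sub_cancel]; ring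
  have hodd : Odd (p ^ a * q ^ b) :=
    ((hp.odd_of_ne_two hp2).pow).mul ((hq.odd_of_ne_two hq2).pow)
  have hn : NeZero (p ^ a * q ^ b) := ⟨by
    have := hp.pos; have := hq.pos; positivity⟩
  have hred : Red (p ^ a * q ^ b) (p * q) (p ^ (a - 1) * q ^ (b - 1)) := by
    refine red_exists _ _ _ _ rfl hk1 ?_ ?_
    · intro l hl hdvd
      rcases (Nat.Prime.dvd_mul hl).mp hdvd with h | h
      · exact Dvd.dvd.mul_right (hl.dvd_of_dvd_pow h) q
      · exact Dvd.dvd.mul_left (hl.dvd_of_dvd_pow h) p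
    · intro h4
      exfalso
      have : Even (p ^ a * q ^ b) := even_iff_two_dvd.mpr ((by norm_num : 2 ∣ 4).trans h4)
      exact (Nat.not_even_iff_odd.mpr hodd) this
  rcases hc with rfl | rfl
  · rw [one_mul] at hm
    subst hm
    exact ⟨_, hk1, hred⟩
  · refine ⟨2 * (p ^ (a - 1) * q ^ (b - 1)), ?_, ?_⟩
    · rw [mul_assoc, hk1, hm]
    · exact (red_double hm hodd).trans hm hred

/-- **Structure.** -/
theorem structure_two {p q : ℕ} [hp : Fact p.Prime] [hq : Fact q.Prime] (hp2 : p ≠ 2)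
    (hq2 : q ≠ 2) (hpq : p ≠ q) (hleg : legendreSym p q = -1) {a b c m : ℕ} (ha : 0 < a)
    (hb : 0 < b) (hc : c = 1 ∨ c = 2) (hm : c * (p ^ a * q ^ b) = m) {s : Multiset (ZMod m)}
    (hs : IsHodge m s) (hne : s ≠ 0)
    (hev : Even (s.countP fun z => ((p ^ a : ℕ) : ZMod m) * z = 0)) :
    Generated m (fun _ => False) s := by
  have hc0 : 0 < c := by rcases hc with rfl | rfl <;> norm_num
  have hm0 : 0 < m := by
    rw [← hm]; have := hp.out.pos; have := hq.out.pos; positivity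
  have : NeZero m := ⟨hm0.ne'⟩
  obtain ⟨k, hk, hred⟩ := exists_red_pq hp.out hq.out hp2 hq2 ha hb hc hm
  have hcop : p.Coprime (c * q ^ b) := by
    apply Nat.Coprime.mul_right
    · rcases hc with rfl | rfl
      · exact Nat.coprime_one_right p
      · exact (Nat.coprime_primes hp.out Nat.prime_two).mpr hp2
    · exact ((Nat.coprime_primes hp.out hq.out).mpr hpq).pow_right b
  have hπ : OddDist (par m (p ^ a)) :=
    par_oddDist (M := c * q ^ b) hp.out hp2 hcop (by rw [← hm]; ring)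
  obtain ⟨x0, hx0, h1, h2⟩ := red_parity hred (cQ_oddDist (base := fun _ => False)) hπ hs
  have h3 : ((∑ b, x0 b • par (p * q) p b : ZMod 2)) = 0 := by
    have h4 : ∀ b, x0 b • par (p * q) p b = x0 b • par m (p ^ a) (iota k b) := by
      intro b; rw [par_iota hp.out hq.out hpq ha hk]
    rw [sum_congr rfl fun b _ => h4 b, ← h2, sum_par hs.1]
    exact (ZMod.natCast_eq_zero_iff_even).mpr hev
  rw [level_two hp2 hq2 hpq hleg hx0 h3 (cQ_oddDist.comp_iota hk), cQ_sum,
    QuotientAddGroup.eq_zero_iff] at h1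
  exact generated_of_mem_LL (fun _ h => h.elim) (fun _ h => h.elim) hs.1 hs.2.1 hne h1

lemma countP_conv {m M P : ℕ} [NeZero m] (hP : 0 < P) (hm : P * M = m) (s : Multiset (ZMod m × ℤ)) :
    (s.countP fun z => M ∣ z.1.val) =
      ((s.map Prod.fst).countP fun z => ((P : ℕ) : ZMod m) * z = 0) := by
  rw [Multiset.countP_map, ← Multiset.countP_eq_card_filter]
  apply Multiset.countP_congr rfl
  intro z _
  have h1 : ((P : ℕ) : ZMod m) * z.1 = ((P * z.1.val : ℕ) : ZMod m) := by
    push_cast; rw [ZMod.natCast_zmod_val]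
  rw [h1, ZMod.natCast_eq_zero_iff]
  have : P * M ∣ P * z.1.val ↔ M ∣ z.1.val := Nat.mul_dvd_mul_iff_left hP
  rw [hm] at this
  exact propext this.symm

/-- **Rational classes of degree with two odd prime factors.** -/
theorem main_two {p q : ℕ} (hp : p.Prime) (hq : q.Prime) (hp2 : p ≠ 2) (hq2 : q ≠ 2)
    (hpq : p ≠ q) (hleg : ¬ IsSquare ((q : ℕ) : ZMod p)) {a b c m : ℕ} (ha : 0 < a)
    (hb : 0 < b) (hc : c = 1 ∨ c = 2) (hm : c * (p ^ a * q ^ b) = m) {s : Multiset (ZMod m × ℤ)}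
    (hs : IsHodge m (s.map Prod.fst)) (hne : s ≠ 0) (hc0 : ∀ z ∈ s, z.2 ≠ 0)
    (hR : RationalClass m s) : Generated m (fun _ => False) (s.map Prod.fst) := by
  have : Fact p.Prime := ⟨hp⟩
  have : Fact q.Prime := ⟨hq⟩
  have hcpos : 0 < c := by rcases hc with rfl | rfl <;> norm_num
  have hm0 : 0 < m := by
    rw [← hm]; have := hp.pos; have := hq.pos; positivity
  have : NeZero m := ⟨hm0.ne'⟩
  have hq3 : 3 ≤ q := by have := hq.two_le; omega
  have hcop : (c * q ^ b).Coprime p := by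
    apply Nat.Coprime.mul_left
    · rcases hc with rfl | rfl
      · exact Nat.coprime_one_left p
      · exact (Nat.coprime_primes Nat.prime_two hp).mpr (fun h => hp2 h.symm)
    · exact Nat.Coprime.pow_left b ((Nat.coprime_primes hq hp).mpr (fun h => hpq h.symm))
  have hM : 3 ≤ c * q ^ b := by
    calc 3 ≤ q := hq3
      _ ≤ q ^ b := Nat.le_self_pow hb.ne' q
      _ ≤ c * q ^ b := Nat.le_mul_of_pos_left _ hcpos
  have h1 := even_of_rational (m := m) (M := c * q ^ b) (q := p) (b := a) (by rw [← hm]; ring) hM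
    hp hp2 hcop hc0 hR
  have hpa : 0 < p ^ a := pow_pos hp.pos a
  rw [countP_conv hpa (by rw [← hm]; ring)] at h1
  have hleg' : legendreSym p q = -1 := by
    have hq0 : ((q : ℤ) : ZMod p) ≠ 0 := by
      push_cast; exact pq_ne hpq
    rcases legendreSym.eq_one_or_neg_one p hq0 with h | h
    · exfalso
      apply hleg
      have := (legendreSym.eq_one_iff p hq0).mp h
      simpa using this
    · exact h
  refine structure_two hp2 hq2 hpq hleg' ha hb hc hm hs ?_ h1
  intro h
  exact hne (Multiset.map_eq_zero.mp h)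

end Pool.Agent.H916K
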