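import Pool.Agent.H916K.ThreeE
import Pool.Agent.H916K.MainTwo

/-!
# Relations of level `p * q * r`, degrees with three odd prime factors
-/

set_option linter.unusedSectionVars false

namespace Pool.Agent.H916K

open Finset Pool.Agent.H916R2

section
variable {p q r : ℕ} [hp : Fact p.Prime] [hq : Fact q.Prime] [hr : Fact r.Prime]

lemma cop3 (hpr : p ≠ r) (hqr : q ≠ r) : (p * q).Coprime r :=
  Nat.Coprime.mul_left (coprime_of_ne hpr) (coprime_of_ne hqr)

/-- coordinates -/
noncomputable def e3 (hpq : p ≠ q) (hpr : p ≠ r) (hqr : q ≠ r) :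
    ZMod (p * q * r) ≃+* (ZMod p × ZMod q) × ZMod r :=
  (ZMod.chineseRemainder (cop3 hpr hqr)).trans (RingEquiv.prodCongr (ee hpq) (RingEquiv.refl _))

instance neZero_three : NeZero (p * q * r) :=
  ⟨Nat.mul_ne_zero (Nat.mul_ne_zero hp.out.ne_zero hq.out.ne_zero) hr.out.ne_zero⟩

variable (hpq : p ≠ q) (hpr : p ≠ r) (hqr : q ≠ r)

lemma e3_natCast (n : ℕ) : e3 hpq hpr hqr (n : ZMod (p * q * r)) =
    (((n : ZMod p), (n : ZMod q)), (n : ZMod r)) := by
  rw [map_natCast]; rfl

/-- a distribution in coordinates -/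
noncomputable def th {Q : Type*} (c : ZMod (p * q * r) → Q) (u : ZMod p) (v : ZMod q) (w : ZMod r) :
    Q := c ((e3 hpq hpr hqr).symm ((u, v), w))

lemma th_apply {Q : Type*} (c : ZMod (p * q * r) → Q) (a : ZMod (p * q * r)) :
    c a = th hpq hpr hqr c (e3 hpq hpr hqr a).1.1 (e3 hpq hpr hqr a).1.2 (e3 hpq hpr hqr a).2 := by
  unfold th
  rw [Prod.mk.eta, RingEquiv.symm_apply_apply]

lemma e3_shift (a : ZMod (p * q * r)) (i d : ℕ) :
    e3 hpq hpr hqr (a + (i : ZMod (p * q * r)) * (d : ZMod (p * q * r))) =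
      (((e3 hpq hpr hqr a).1.1 + (i : ZMod p) * (d : ZMod p),
        (e3 hpq hpr hqr a).1.2 + (i : ZMod q) * (d : ZMod q)),
        (e3 hpq hpr hqr a).2 + (i : ZMod r) * (d : ZMod r)) := by
  rw [map_add, map_mul, e3_natCast, e3_natCast]; rfl

lemma e3_mul (n : ℕ) (a : ZMod (p * q * r)) :
    e3 hpq hpr hqr ((n : ZMod (p * q * r)) * a) =
      (((n : ZMod p) * (e3 hpq hpr hqr a).1.1, (n : ZMod q) * (e3 hpq hpr hqr a).1.2),
        (n : ZMod r) * (e3 hpq hpr hqr a).2) := by
  rw [map_mul, e3_natCast]; rfl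

lemma cast_mul_left (a b : ℕ) : ((a * b : ℕ) : ZMod a) = 0 := by
  rw [ZMod.natCast_eq_zero_iff]; exact dvd_mul_right a b

lemma cast_mul_right (a b : ℕ) : ((a * b : ℕ) : ZMod b) = 0 := by
  rw [ZMod.natCast_eq_zero_iff]; exact dvd_mul_left b a

lemma cast_mul_ne {a b c : ℕ} [Fact a.Prime] [Fact b.Prime] [Fact c.Prime] (hab : a ≠ b)
    (hac : a ≠ c) : ((b * c : ℕ) : ZMod a) ≠ 0 := by
  push_cast
  exact mul_ne_zero (pq_ne hab) (pq_ne hac)

lemma th_d3 {Q : Type*} [AddCommGroup Q] {c : ZMod (p * q * r) → Q} (hc : OddDist c) :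
    D3 (th hpq hpr hqr c) where
  neg := fun u v w => by
    unfold th
    rw [← hc.neg, ← map_neg]; rfl
  zero := by
    unfold th
    have : (((0 : ZMod p), (0 : ZMod q)), (0 : ZMod r)) = 0 := rfl
    rw [this, map_zero]
    exact hc.half 0 (by simp)
  dp := fun v w => by
    have h1 := hc.dist p (q * r) hp.out (by ring) ((e3 hpq hpr hqr).symm ((0, v), w))
    rw [th_apply hpq hpr hqr c ((p : ZMod (p * q * r)) * _), e3_mul,
      RingEquiv.apply_symm_apply, mul_zero] at h1
    rw [← h1, ← sum_range_shift (fun u => th hpq hpr hqr c u v w) 0 (cast_mul_ne hpq hpr)]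
    refine sum_congr rfl fun i _ => ?_
    rw [th_apply hpq hpr hqr c (_ + _), e3_shift, RingEquiv.apply_symm_apply, cast_mul_left,
      cast_mul_right, mul_zero, mul_zero, add_zero, add_zero]
  dq := fun u w => by
    have h1 := hc.dist q (p * r) hq.out (by ring) ((e3 hpq hpr hqr).symm ((u, 0), w))
    rw [th_apply hpq hpr hqr c ((q : ZMod (p * q * r)) * _), e3_mul,
      RingEquiv.apply_symm_apply, mul_zero] at h1
    rw [← h1, ← sum_range_shift (fun v => th hpq hpr hqr c u v w) 0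
      (cast_mul_ne (fun h => hpq h.symm) hqr)]
    refine sum_congr rfl fun i _ => ?_
    rw [th_apply hpq hpr hqr c (_ + _), e3_shift, RingEquiv.apply_symm_apply, cast_mul_left,
      cast_mul_right, mul_zero, mul_zero, add_zero, add_zero]
  dr := fun u v => by
    have h1 := hc.dist r (p * q) hr.out (by ring) ((e3 hpq hpr hqr).symm ((u, v), 0))
    rw [th_apply hpq hpr hqr c ((r : ZMod (p * q * r)) * _), e3_mul,
      RingEquiv.apply_symm_apply, mul_zero] at h1
    rw [← h1, ← sum_range_shift (fun w => th hpq hpr hqr c u v w) 0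
      (cast_mul_ne (fun h => hpr h.symm) (fun h => hqr h.symm))]
    refine sum_congr rfl fun i _ => ?_
    rw [th_apply hpq hpr hqr c (_ + _), e3_shift, RingEquiv.apply_symm_apply, cast_mul_left,
      cast_mul_right, mul_zero, mul_zero, add_zero, add_zero]

lemma d3_odd {g : ZMod p → ZMod q → ZMod r → ℤ} (hg : D3 g) :
    OddDist (fun a : ZMod (p * q * r) =>
      g (e3 hpq hpr hqr a).1.1 (e3 hpq hpr hqr a).1.2 (e3 hpq hpr hqr a).2) where
  neg := fun a => by
    rw [map_neg]
    exact hg.neg _ _ _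
  half := fun a ha => by
    have h1 : a = -a := eq_neg_of_add_eq_zero_left ha
    have h2 : g (e3 hpq hpr hqr a).1.1 (e3 hpq hpr hqr a).1.2 (e3 hpq hpr hqr a).2 =
        - g (e3 hpq hpr hqr a).1.1 (e3 hpq hpr hqr a).1.2 (e3 hpq hpr hqr a).2 := by
      conv_lhs => rw [h1, map_neg]
      exact hg.neg _ _ _
    linarith
  dist := fun l d hl hd a => by
    have hcase : l = p ∨ l = q ∨ l = r := by
      have h1 : l ∣ p * q * r := by rw [← hd]; exact dvd_mul_right l d
      rcases (Nat.Prime.dvd_mul hl).mp h1 with h | h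
      · rcases (Nat.Prime.dvd_mul hl).mp h with h | h
        · exact Or.inl ((Nat.prime_dvd_prime_iff_eq hl hp.out).mp h)
        · exact Or.inr (Or.inl ((Nat.prime_dvd_prime_iff_eq hl hq.out).mp h))
      · exact Or.inr (Or.inr ((Nat.prime_dvd_prime_iff_eq hl hr.out).mp h))
    rcases hcase with h | h | h
    · have hd' : d = q * r := Nat.eq_of_mul_eq_mul_left hp.out.pos (by rw [← h, hd, h]; ring)
      rw [h, hd']
      simp only [e3_shift, e3_mul, cast_mul_left, cast_mul_right, mul_zero, add_zero]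
      rw [sum_range_shift (fun u => g u (e3 hpq hpr hqr a).1.2 (e3 hpq hpr hqr a).2) _
        (cast_mul_ne hpq hpr), hg.dp]
      simp
    · have hd' : d = p * r := Nat.eq_of_mul_eq_mul_left hq.out.pos (by rw [← h, hd, h]; ring)
      rw [h, hd']
      simp only [e3_shift, e3_mul, cast_mul_left, cast_mul_right, mul_zero, add_zero]
      rw [sum_range_shift (fun v => g (e3 hpq hpr hqr a).1.1 v (e3 hpq hpr hqr a).2) _
        (cast_mul_ne (fun h => hpq h.symm) hqr), hg.dq]
      simp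
    · have hd' : d = p * q := Nat.eq_of_mul_eq_mul_left hr.out.pos (by rw [← h, hd, h]; ring)
      rw [h, hd']
      simp only [e3_shift, e3_mul, cast_mul_left, cast_mul_right, mul_zero, add_zero]
      rw [sum_range_shift (fun w => g (e3 hpq hpr hqr a).1.1 (e3 hpq hpr hqr a).1.2 w) _
        (cast_mul_ne (fun h => hpr h.symm) (fun h => hqr h.symm)), hg.dr]
      simp

lemma sum_th {Q : Type*} [AddCommMonoid Q] (F : ZMod (p * q * r) → Q) :
    ∑ a, F a = ∑ u, ∑ v, ∑ w, th hpq hpr hqr F u v w := by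
  have h1 : ∑ u, ∑ v, ∑ w, th hpq hpr hqr F u v w =
      ∑ x : (ZMod p × ZMod q) × ZMod r, th hpq hpr hqr F x.1.1 x.1.2 x.2 := by
    rw [Fintype.sum_prod_type (f := fun x : (ZMod p × ZMod q) × ZMod r =>
      th hpq hpr hqr F x.1.1 x.1.2 x.2), Fintype.sum_prod_type]
  rw [h1]
  exact Fintype.sum_equiv (e3 hpq hpr hqr).toEquiv _ _ fun a => th_apply hpq hpr hqr F a

lemma rel_three {x : ZMod (p * q * r) → ℤ} (hx : Rel x) : Rel3 (th hpq hpr hqr x) := by
  intro g hg
  have h1 := rel_int hx (d3_odd hpq hpr hqr hg)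
  rw [sum_th hpq hpr hqr] at h1
  rw [← h1]
  refine sum_congr rfl fun u _ => sum_congr rfl fun v _ => sum_congr rfl fun w _ => ?_
  unfold th
  simp

include hpq hpr hqr in
/-- **Relations of level `p * q * r`.** -/
theorem level_three (hp2 : p ≠ 2) (hq2 : q ≠ 2) (hr2 : r ≠ 2) (l1 : legendreSym p q = -1)
    (l2 : legendreSym p r = 1) (l3 : legendreSym q r = -1) (l4 : legendreSym r p = -1)
    {x : ZMod (p * q * r) → ℤ} (hx : Rel x)
    (hu : ((∑ b, x b • par (p * q * r) p b : ZMod 2)) = 0)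
    (hv : ((∑ b, x b • par (p * q * r) q b : ZMod 2)) = 0)
    (hw : ((∑ b, x b • par (p * q * r) r b : ZMod 2)) = 0)
    {Q : Type} [AddCommGroup Q] {c : ZMod (p * q * r) → Q} (hc : OddDist c) :
    ∑ b, x b • c b = 0 := by
  classical
  have h11 : (1 + 1 : ZMod 2) = 0 := by decide
  have key : ∀ (P : ℕ) (π : ZMod p → ZMod q → ZMod r → ZMod 2),
      (∀ u v w, th hpq hpr hqr (par (p * q * r) P) u v w = π u v w) →
      ((∑ b, x b • par (p * q * r) P b : ZMod 2)) =
        ∑ u, ∑ v, ∑ w, th hpq hpr hqr x u v w • π u v w := by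
    intro P π hπ
    rw [sum_th hpq hpr hqr]
    refine sum_congr rfl fun u _ => sum_congr rfl fun v _ => sum_congr rfl fun w _ => ?_
    rw [← hπ]; rfl
  have hb0 : ∀ u v w, (e3 hpq hpr hqr).symm ((u, v), w) = 0 ↔ u = 0 ∧ v = 0 ∧ w = 0 := by
    intro u v w
    rw [RingEquiv.symm_apply_eq, map_zero]
    simp only [Prod.ext_iff, Prod.fst_zero, Prod.snd_zero]
    tauto
  have hb1 : ∀ (P : ℕ) u v w, ((P : ℕ) : ZMod (p * q * r)) * (e3 hpq hpr hqr).symm ((u, v), w) = 0 ↔
      (P : ZMod p) * u = 0 ∧ (P : ZMod q) * v = 0 ∧ (P : ZMod r) * w = 0 := by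
    intro P u v w
    rw [← (e3 hpq hpr hqr).map_eq_zero_iff, e3_mul, RingEquiv.apply_symm_apply]
    simp only [Prod.ext_iff, Prod.fst_zero, Prod.snd_zero]
    tauto
  have n1 := pq_ne (p := p) (q := q) hpq
  have n2 := pq_ne (p := p) (q := r) hpr
  have n3 := pq_ne (p := q) (q := p) (fun h => hpq h.symm)
  have n4 := pq_ne (p := q) (q := r) hqr
  have n5 := pq_ne (p := r) (q := p) (fun h => hpr h.symm)
  have n6 := pq_ne (p := r) (q := q) (fun h => hqr h.symm)
  rw [key r piw (by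
    intro u v w
    unfold th par piw
    simp only [hb0, hb1, mul_eq_zero, n2, n4, CharP.cast_eq_zero, true_or, and_true, false_or]
    by_cases h1 : u = 0 <;> by_cases h2 : v = 0 <;> by_cases h3 : w = 0 <;> simp [h1, h2, h3, h11])] at hw
  rw [key p (fun u v w => piw v w u) (by
    intro u v w
    unfold th par piw
    simp only [hb0, hb1, mul_eq_zero, n3, n5, CharP.cast_eq_zero, true_or, true_and, false_or]
    by_cases h1 : u = 0 <;> by_cases h2 : v = 0 <;> by_cases h3 : w = 0 <;> simp [h1, h2, h3, h11])] at hu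
  rw [key q (fun u v w => piw w u v) (by
    intro u v w
    unfold th par piw
    simp only [hb0, hb1, mul_eq_zero, n1, n6, CharP.cast_eq_zero, true_or, true_and, false_or]
    by_cases h1 : u = 0 <;> by_cases h2 : v = 0 <;> by_cases h3 : w = 0 <;> simp [h1, h2, h3, h11])] at hv
  have h1 := three_core hp2 hq2 hr2 hpq hpr hqr l1 l2 l3 l4 (rel_three hpq hpr hqr hx) hw hu hv
    (th_d3 hpq hpr hqr hc)
  rw [sum_th hpq hpr hqr]
  exact h1

end

end Pool.Agent.H916K
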