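import Pool.Agent.H916K.LevelFour
import Pool.Agent.H916K.MainTwo

/-!
# Degrees `2 ^ a * q ^ b`
-/

namespace Pool.Agent.H916K

open Finset Pool.Agent.H916R2

lemma par_iota_four {q b : ℕ} (hq : q.Prime) (hq2 : q ≠ 2) (hb : 0 < b) {m k : ℕ}
    [NeZero m] [NeZero (4 * q)] (hk : k * (4 * q) = m) (z : ZMod (4 * q)) :
    par m (q ^ b) (iota k z) = par (4 * q) q z := by
  have hk0 : 0 < k := Nat.pos_of_ne_zero (by rintro rfl; exact NeZero.ne m (by rw [← hk]; simp))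
  have h1 : (iota k z : ZMod m) = 0 ↔ z = 0 :=
    ⟨fun h => iota_eq_zero hk h, fun h => by rw [h]; exact iota_zero⟩
  have h2 : ((q ^ b : ℕ) : ZMod m) * iota k z = 0 ↔ ((q : ℕ) : ZMod (4 * q)) * z = 0 := by
    have e1 : ((q ^ b : ℕ) : ZMod m) * iota k z = ((k * (q ^ b * z.val) : ℕ) : ZMod m) := by
      unfold iota; push_cast; ring
    have e2 : ((q : ℕ) : ZMod (4 * q)) * z = ((q * z.val : ℕ) : ZMod (4 * q)) := by
      push_cast; rw [ZMod.natCast_zmod_val]
    rw [e1, e2, ZMod.natCast_eq_zero_iff, ZMod.natCast_eq_zero_iff]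
    have e3 : m ∣ k * (q ^ b * z.val) ↔ 4 * q ∣ q ^ b * z.val := by
      have : k * (4 * q) ∣ k * (q ^ b * z.val) ↔ 4 * q ∣ q ^ b * z.val :=
        Nat.mul_dvd_mul_iff_left hk0
      rwa [hk] at this
    rw [e3]
    have hcop : q.Coprime 4 := by
      have h : Nat.Coprime q 2 := (Nat.coprime_primes hq Nat.prime_two).mpr hq2
      have h2 : Nat.Coprime q (2 ^ 2) := Nat.Coprime.pow_right 2 h
      exact h2
    have e4 : 4 * q = q * 4 := mul_comm 4 q
    generalize z.val = w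
    rw [e4]
    constructor
    · intro h
      have h3 : 4 ∣ q ^ b * w := (Dvd.intro_left q rfl).trans h
      have h4 : 4 ∣ w := (Nat.Coprime.dvd_mul_left (hcop.symm.pow_right b)).mp h3
      exact Nat.mul_dvd_mul_left q h4
    · intro h
      have h3 : 4 ∣ w := (Nat.mul_dvd_mul_iff_left hq.pos).mp h
      exact Nat.mul_dvd_mul (dvd_pow_self q hb.ne') h3
  unfold par
  simp only [h1, h2]

lemma exists_red_four {q a b m : ℕ} (ha : 2 ≤ a) (hb : 0 < b)
    (hm : 2 ^ a * q ^ b = m) [NeZero m] [NeZero (4 * q)] :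
    ∃ k, k * (4 * q) = m ∧ Red m (4 * q) k := by
  have hk1 : (2 ^ (a - 2) * q ^ (b - 1)) * (4 * q) = m := by
    rw [← hm]
    obtain ⟨a', rfl⟩ : ∃ a', a = a' + 2 := ⟨a - 2, by omega⟩
    obtain ⟨b', rfl⟩ : ∃ b', b = b' + 1 := ⟨b - 1, by omega⟩
    simp only [Nat.add_sub_cancel]; ring
  refine ⟨_, hk1, red_exists _ _ _ _ rfl hk1 ?_ ?_⟩
  · intro l hl hdvd
    rw [← hm] at hdvd
    rcases (Nat.Prime.dvd_mul hl).mp hdvd with h | h
    · have h2 : l ∣ 4 := (hl.dvd_of_dvd_pow h).trans (by norm_num)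
      exact h2.mul_right q
    · exact Dvd.dvd.mul_left (hl.dvd_of_dvd_pow h) 4
  · intro _
    exact Dvd.intro _ rfl

/-- **Structure**, degrees `2 ^ a * q ^ b`. -/
theorem structure_four {q : ℕ} [hq : Fact q.Prime] (hq2 : q ≠ 2) (hleg : legendreSym q 2 = -1)
    {a b m : ℕ} (ha : 2 ≤ a) (hb : 0 < b) (hm : 2 ^ a * q ^ b = m) {s : Multiset (ZMod m)}
    (hs : IsHodge m s) (hne : s ≠ 0)
    (hev : Even (s.countP fun z => ((q ^ b : ℕ) : ZMod m) * z = 0)) :
    Generated m (fun _ => False) s := by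
  have hm0 : 0 < m := by
    rw [← hm]; have := hq.out.pos; positivity
  have : NeZero m := ⟨hm0.ne'⟩
  obtain ⟨k, hk, hred⟩ := exists_red_four ha hb hm
  have hcop : q.Coprime (2 ^ a) :=
    ((Nat.coprime_primes hq.out Nat.prime_two).mpr hq2).pow_right a
  have hπ : OddDist (par m (q ^ b)) :=
    par_oddDist (M := 2 ^ a) hq.out hq2 hcop (by rw [← hm]; ring)
  obtain ⟨x0, hx0, h1, h2⟩ := red_parity hred (cQ_oddDist (base := fun _ => False)) hπ hs
  have h3 : ((∑ b, x0 b • par (4 * q) q b : ZMod 2)) = 0 := by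
    have h4 : ∀ z, x0 z • par (4 * q) q z = x0 z • par m (q ^ b) (iota k z) := by
      intro z; rw [par_iota_four hq.out hq2 hb hk]
    rw [sum_congr rfl fun z _ => h4 z, ← h2, sum_par hs.1]
    exact (ZMod.natCast_eq_zero_iff_even).mpr hev
  rw [level_four hq2 hleg hx0 h3 (cQ_oddDist.comp_iota hk), cQ_sum,
    QuotientAddGroup.eq_zero_iff] at h1
  exact generated_of_mem_LL (fun _ h => h.elim) (fun _ h => h.elim) hs.1 hs.2.1 hne h1

lemma leg_two {q : ℕ} [hq : Fact q.Prime] (hq2 : q ≠ 2) (hsq : ¬ IsSquare ((2 : ℕ) : ZMod q)) :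
    legendreSym q 2 = -1 := by
  have hq0 : ((2 : ℤ) : ZMod q) ≠ 0 := by
    push_cast; exact two_ne hq2
  rcases legendreSym.eq_one_or_neg_one q hq0 with h | h
  · exfalso
    apply hsq
    have := (legendreSym.eq_one_iff q hq0).mp h
    simpa using this
  · exact h

/-- **Rational classes of degree `2 ^ a * q ^ b`.** -/
theorem main_four {q : ℕ} (hq : q.Prime) (hq2 : q ≠ 2) (hsq : ¬ IsSquare ((2 : ℕ) : ZMod q))
    {a b m : ℕ} (ha : 2 ≤ a) (hb : 0 < b) (hm : 2 ^ a * q ^ b = m) {s : Multiset (ZMod m × ℤ)}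
    (hs : IsHodge m (s.map Prod.fst)) (hne : s ≠ 0) (hc0 : ∀ z ∈ s, z.2 ≠ 0)
    (hR : RationalClass m s) : Generated m (fun _ => False) (s.map Prod.fst) := by
  have : Fact q.Prime := ⟨hq⟩
  have hm0 : 0 < m := by
    rw [← hm]; have := hq.pos; positivity
  have : NeZero m := ⟨hm0.ne'⟩
  have hcop : (2 ^ a).Coprime q :=
    ((Nat.coprime_primes hq Nat.prime_two).mpr hq2).symm.pow_left a
  have hM : 3 ≤ 2 ^ a := by
    calc 3 ≤ 2 ^ 2 := by norm_num
      _ ≤ 2 ^ a := Nat.pow_le_pow_right (by norm_num) ha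
  have h1 := even_of_rational (m := m) (M := 2 ^ a) (q := q) (b := b) hm.symm hM
    hq hq2 hcop hc0 hR
  have hpb : 0 < q ^ b := pow_pos hq.pos b
  rw [countP_conv hpb (by rw [← hm]; ring)] at h1
  refine structure_four hq2 (leg_two hq2 hsq) ha hb hm hs ?_ h1
  intro h
  exact hne (Multiset.map_eq_zero.mp h)

end Pool.Agent.H916K
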