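import Pool.Agent.H916K.StructThree

/-!
# Rational classes, degrees with three odd prime factors
-/

set_option linter.unusedSectionVars false

namespace Pool.Agent.H916K

open Finset Pool.Agent.H916R2

/-- the parity at one of the primes -/
lemma even_at {m M l a : ℕ} (hm : m = M * l ^ a) (hM : 3 ≤ M) (hl : l.Prime) (hl2 : l ≠ 2)
    (hcop : M.Coprime l) [NeZero m] {s : Multiset (ZMod m × ℤ)} (hc : ∀ z ∈ s, z.2 ≠ 0)
    (hR : RationalClass m s) :
    Even ((s.map Prod.fst).countP fun z => ((l ^ a : ℕ) : ZMod m) * z = 0) := by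
  have h1 := even_of_rational hm hM hl hl2 hcop hc hR
  rwa [countP_conv (pow_pos hl.pos a) (by rw [hm]; ring)] at h1

/-- **Rational classes**, degree with three odd prime factors. -/
theorem main_three {p q r : ℕ} (hp : p.Prime)
    (hq : q.Prime) (hr : r.Prime) (hp2 : p ≠ 2) (hq2 : q ≠ 2) (hr2 : r ≠ 2) (hpq : p ≠ q)
    (hpr : p ≠ r) (hqr : q ≠ r) (n1 : ¬ IsSquare ((q : ℕ) : ZMod p))
    (n2 : ¬ IsSquare ((r : ℕ) : ZMod q)) (n3 : ¬ IsSquare ((p : ℕ) : ZMod r))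
    (s1 : IsSquare ((r : ℕ) : ZMod p)) {a b d c m : ℕ} (ha : 0 < a) (hb : 0 < b) (hd : 0 < d)
    (hc : c = 1 ∨ c = 2) (hm : c * (p ^ a * q ^ b * r ^ d) = m)
    {s : Multiset (ZMod m × ℤ)}
    (hs : IsHodge m (s.map Prod.fst)) (hne : s ≠ 0) (hc0 : ∀ z ∈ s, z.2 ≠ 0)
    (hR : RationalClass m s) : Generated m (fun _ => False) (s.map Prod.fst) := by
  have : Fact p.Prime := ⟨hp⟩
  have : Fact q.Prime := ⟨hq⟩
  have : Fact r.Prime := ⟨hr⟩
  have hcpos : 0 < c := by rcases hc with rfl | rfl <;> norm_num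
  have hm0 : 0 < m := by
    rw [← hm]; have := hp.pos; have := hq.pos; have := hr.pos; positivity
  have : NeZero m := ⟨hm0.ne'⟩
  have hp3 : 3 ≤ p ^ a := le_trans (by have := hp.two_le; omega) (Nat.le_self_pow ha.ne' p)
  have hq3 : 3 ≤ q ^ b := le_trans (by have := hq.two_le; omega) (Nat.le_self_pow hb.ne' q)
  have hr3 : 3 ≤ r ^ d := le_trans (by have := hr.two_le; omega) (Nat.le_self_pow hd.ne' r)
  have c2 : ∀ l : ℕ, l.Prime → l ≠ 2 → c.Coprime l := by
    intro l hl hl2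
    rcases hc with rfl | rfl
    · exact Nat.coprime_one_left l
    · exact (Nat.coprime_primes Nat.prime_two hl).mpr (fun h => hl2 h.symm)
  have cpq : p.Coprime q := coprime_of_ne hpq
  have cpr : p.Coprime r := coprime_of_ne hpr
  have cqr : q.Coprime r := coprime_of_ne hqr
  have e1 := even_at (m := m) (M := c * (q ^ b * r ^ d)) (l := p) (a := a) (by rw [← hm]; ring)
    (by nlinarith [Nat.mul_le_mul hq3 hr3]) hp hp2
    (Nat.Coprime.mul_left (c2 p hp hp2) (Nat.Coprime.mul_left (cpq.symm.pow_left b)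
      (cpr.symm.pow_left d))) hc0 hR
  have e2 := even_at (m := m) (M := c * (p ^ a * r ^ d)) (l := q) (a := b) (by rw [← hm]; ring)
    (by nlinarith [Nat.mul_le_mul hp3 hr3]) hq hq2
    (Nat.Coprime.mul_left (c2 q hq hq2) (Nat.Coprime.mul_left (cpq.pow_left a)
      (cqr.symm.pow_left d))) hc0 hR
  have e3 := even_at (m := m) (M := c * (p ^ a * q ^ b)) (l := r) (a := d) (by rw [← hm]; ring)
    (by nlinarith [Nat.mul_le_mul hp3 hq3]) hr hr2
    (Nat.Coprime.mul_left (c2 r hr hr2) (Nat.Coprime.mul_left (cpr.pow_left a)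
      (cqr.pow_left b))) hc0 hR
  refine structure_three hp2 hq2 hr2 hpq hpr hqr (leg_non hpq n1) (leg_sq hpr s1) (leg_non hqr n2)
    (leg_non (fun h => hpr h.symm) n3) ha hb hd hc hm hs ?_ e1 e2 e3
  intro h
  exact hne (Multiset.map_eq_zero.mp h)

/-- **Rational classes**, degree with three odd prime factors, cyclic form. -/
theorem main_three_cyc {p q r : ℕ} (hp : p.Prime)
    (hq : q.Prime) (hr : r.Prime) (hp2 : p ≠ 2) (hq2 : q ≠ 2) (hr2 : r ≠ 2) (hpq : p ≠ q)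
    (hpr : p ≠ r) (hqr : q ≠ r) (n1 : ¬ IsSquare ((q : ℕ) : ZMod p))
    (n2 : ¬ IsSquare ((r : ℕ) : ZMod q)) (n3 : ¬ IsSquare ((p : ℕ) : ZMod r))
    (s1 : IsSquare ((r : ℕ) : ZMod p) ∨ IsSquare ((p : ℕ) : ZMod q) ∨ IsSquare ((q : ℕ) : ZMod r))
    {a b d c m : ℕ} (ha : 0 < a) (hb : 0 < b) (hd : 0 < d)
    (hc : c = 1 ∨ c = 2) (hm : c * (p ^ a * q ^ b * r ^ d) = m)
    {s : Multiset (ZMod m × ℤ)}
    (hs : IsHodge m (s.map Prod.fst)) (hne : s ≠ 0) (hc0 : ∀ z ∈ s, z.2 ≠ 0)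
    (hR : RationalClass m s) : Generated m (fun _ => False) (s.map Prod.fst) := by
  rcases s1 with h | h | h
  · exact main_three hp hq hr hp2 hq2 hr2 hpq hpr hqr n1 n2 n3 h ha hb hd hc hm hs hne hc0 hR
  · exact main_three hq hr hp hq2 hr2 hp2 hqr hpq.symm hpr.symm n2 n3 n1 h hb hd ha hc
      (by rw [← hm]; ring) hs hne hc0 hR
  · exact main_three hr hp hq hr2 hp2 hq2 hpr.symm hqr.symm hpq n3 n1 n2 h hd ha hb hc
      (by rw [← hm]; ring) hs hne hc0 hR

end Pool.Agent.H916K
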