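import Mathlib

/-!
# Pure Gauss sums over the field with `ℓ ^ 2` elements
-/

namespace Pool.Agent.H916K

open Finset

/-- in a finite field an element killed by `k` is an `n`-th power, if `k * n` is the number of
nonzero elements -/
lemma exists_root {F : Type} [Field F] [Fintype F] {k n : ℕ} (hk : 0 < k)
    (hkn : k * n = Fintype.card F - 1) {x : F} (hx0 : x ≠ 0) (hx : x ^ k = 1) :
    ∃ y : F, y ≠ 0 ∧ y ^ n = x := by
  classical
  obtain ⟨g, hg⟩ := IsCyclic.exists_generator (α := Fˣ)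
  have hord : orderOf g = k * n := by
    rw [orderOf_eq_card_of_forall_mem_zpowers hg, Nat.card_eq_fintype_card, Fintype.card_units, hkn]
  obtain ⟨i, hi⟩ := (IsOfFinOrder.mem_powers_iff_mem_zpowers (isOfFinOrder_of_finite g)).mpr
    (hg (Units.mk0 x hx0))
  simp only at hi
  have h1 : g ^ (i * k) = 1 := by
    rw [pow_mul, hi]
    apply Units.ext
    simp [hx]
  have h2 : k * n ∣ i * k := by rw [← hord]; exact orderOf_dvd_of_pow_eq_one h1
  have h3 : n ∣ i := by
    rw [mul_comm i k] at h2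
    exact Nat.dvd_of_mul_dvd_mul_left hk h2
  obtain ⟨j, hj⟩ := h3
  refine ⟨((g ^ j : Fˣ) : F), Units.ne_zero _, ?_⟩
  have h4 : (g ^ j) ^ n = Units.mk0 x hx0 := by
    rw [← pow_mul, mul_comm j n, ← hj, hi]
  have := congrArg (Units.val) h4
  simpa using this

lemma mulChar_one {F R : Type} [Field F] [Fintype F] [CommRing R] {k n M : ℕ} (hk : 0 < k)
    (hkn : k * n = Fintype.card F - 1) (hM : M ∣ n) {x : F} (hx0 : x ≠ 0) (hx : x ^ k = 1)
    (χ : MulChar F R) (hχ : ∀ y : F, y ≠ 0 → χ y ^ M = 1) : χ x = 1 := by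
  obtain ⟨y, hy0, hy⟩ := exists_root hk hkn hx0 hx
  obtain ⟨c, rfl⟩ := hM
  rw [← hy, map_pow, pow_mul, hχ y hy0, one_pow]

variable {ℓ : ℕ} [Fact ℓ.Prime] {F : Type} [Field F] [Fintype F] [Algebra (ZMod ℓ) F]

lemma trace_zero_pow (hcard : Fintype.card F = ℓ ^ 2) {x : F}
    (hx : Algebra.trace (ZMod ℓ) F x = 0) : x ^ ℓ = - x := by
  have h1 := FiniteField.algebraMap_trace_eq_sum_pow (ZMod ℓ) F x
  have h2 : Module.finrank (ZMod ℓ) F = 2 := by
    have h3 := Module.card_eq_pow_finrank (K := ZMod ℓ) (V := F)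
    rw [hcard, ZMod.card] at h3
    exact (Nat.pow_right_injective (Fact.out : ℓ.Prime).two_le h3).symm
  rw [hx, map_zero, h2, sum_range_succ, sum_range_one, Nat.card_eq_fintype_card, ZMod.card] at h1
  simp only [pow_zero, pow_one] at h1
  linear_combination -h1

/-- **Pure Gauss sums.** -/
theorem gauss_pure {R : Type} [CommRing R] [IsDomain R] [CharZero R]
    (hcard : Fintype.card F = ℓ ^ 2) {M : ℕ} (hM : 2 * M ∣ ℓ + 1)
    {χ : MulChar F R} (hχ : χ ^ M = 1) (hχ1 : χ ≠ 1) {ψ0 : AddChar (ZMod ℓ) R} (hψ : ψ0 ≠ 1) :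
    gaussSum χ (ψ0.compAddMonoidHom (Algebra.trace (ZMod ℓ) F).toAddMonoidHom) = ℓ := by
  classical
  have hℓ : ℓ.Prime := Fact.out
  have hℓ2 := hℓ.two_le
  set Tr : F → ZMod ℓ := fun x => Algebra.trace (ZMod ℓ) F x with hTr
  set ψ := ψ0.compAddMonoidHom (Algebra.trace (ZMod ℓ) F).toAddMonoidHom with hψdef
  have hψa : ∀ x, ψ x = ψ0 (Tr x) := fun x => rfl
  have hprim : ψ0.IsPrimitive := AddChar.IsPrimitive.of_ne_one hψ
  have hval : ∀ y : F, y ≠ 0 → χ y ^ M = 1 := by
    intro y hy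
    by_cases hM0 : M = 0
    · rw [hM0, pow_zero]
    · rw [← MulChar.pow_apply' χ hM0, hχ]
      exact MulChar.one_apply (isUnit_iff_ne_zero.mpr hy)
  have hcard1 : Fintype.card F - 1 = (ℓ - 1) * (ℓ + 1) := by
    rw [hcard]
    obtain ⟨k, rfl⟩ : ∃ k, ℓ = k + 1 := ⟨ℓ - 1, by omega⟩
    simp only [Nat.add_sub_cancel]
    have : (k + 1) ^ 2 = k * (k + 1 + 1) + 1 := by ring
    omega
  -- the values on the prime field
  have hprime : ∀ c : ZMod ℓ, c ≠ 0 → χ (algebraMap (ZMod ℓ) F c) = 1 := by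
    intro c hc
    have hc' : algebraMap (ZMod ℓ) F c ≠ 0 := by
      rwa [Ne, map_eq_zero_iff _ (algebraMap (ZMod ℓ) F).injective]
    refine mulChar_one (k := ℓ - 1) (n := ℓ + 1) (M := M) (by omega) hcard1.symm
      (dvd_trans (Dvd.intro_left 2 rfl) hM) hc' ?_ χ hval
    rw [← map_pow, ZMod.pow_card_sub_one_eq_one hc, map_one]
  -- the values on elements of trace zero
  have htrace : ∀ x : F, x ≠ 0 → Tr x = 0 → χ x = 1 := by
    intro x hx0 hx
    have h1 := trace_zero_pow hcard hx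
    have h2 : x ^ (2 * (ℓ - 1)) = 1 := by
      have h3 : x ^ (ℓ - 1) = -1 := by
        have : x * x ^ (ℓ - 1) = x * (-1) := by
          rw [← pow_succ', Nat.sub_add_cancel (by omega), h1]; ring
        exact mul_left_cancel₀ hx0 this
      rw [mul_comm, pow_mul, h3]; ring
    obtain ⟨k, hk⟩ := hM
    refine mulChar_one (k := 2 * (ℓ - 1)) (n := M * k) (M := M) (by omega) ?_ (Dvd.intro k rfl) hx0 h2 χ hval
    rw [hcard1]
    have : 2 * (ℓ - 1) * (M * k) = (ℓ - 1) * (2 * M * k) := by ring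
    rw [this, ← hk]
  -- two evaluations of a double sum
  have hA : ∑ c : ZMod ℓ, gaussSum χ (ψ.mulShift (algebraMap (ZMod ℓ) F c)) =
      ((ℓ : R) - 1) * gaussSum χ ψ := by
    have h0 : ∀ c : ZMod ℓ, gaussSum χ (ψ.mulShift (algebraMap (ZMod ℓ) F c)) =
        if c = 0 then 0 else gaussSum χ ψ := by
      intro c
      split_ifs with hc
      · rw [hc, map_zero, AddChar.mulShift_zero]
        exact gaussSum_one_right hχ1
      · have hc' : algebraMap (ZMod ℓ) F c ≠ 0 := by
          rwa [Ne, map_eq_zero_iff _ (algebraMap (ZMod ℓ) F).injective]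
        have h1 := gaussSum_mulShift χ ψ (Units.mk0 _ hc')
        rw [Units.val_mk0, hprime c hc, one_mul] at h1
        exact h1
    rw [sum_congr rfl fun c _ => h0 c, ← Finset.add_sum_erase _ _ (mem_univ (0 : ZMod ℓ)), if_pos rfl,
      zero_add, sum_congr rfl (fun c hc => if_neg (ne_of_mem_erase hc)), sum_const,
      card_erase_of_mem (mem_univ _), card_univ, ZMod.card, nsmul_eq_mul, Nat.cast_sub (by omega)]
    simp
  have hinner : ∀ x : F, ∑ c : ZMod ℓ, ψ (algebraMap (ZMod ℓ) F c * x) =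
      if Tr x = 0 then (ℓ : R) else 0 := by
    intro x
    have h1 : ∀ c : ZMod ℓ, ψ (algebraMap (ZMod ℓ) F c * x) = ψ0 (c * Tr x) := by
      intro c
      rw [hψa]
      congr 1
      simp only [hTr]
      rw [← Algebra.smul_def, map_smul, smul_eq_mul]
    rw [sum_congr rfl fun c _ => h1 c, AddChar.sum_mulShift (Tr x) hprim, ZMod.card]
    split_ifs <;> simp
  set N : ℕ := (univ.filter (fun x : F => Tr x = 0)).card with hN
  have hNval : (ℓ : R) * N = (ℓ : R) ^ 2 := by
    have h1 : ∑ x : F, ∑ c : ZMod ℓ, ψ (algebraMap (ZMod ℓ) F c * x) = (ℓ : R) * N := by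
      rw [sum_congr rfl fun x _ => hinner x, ← Finset.sum_filter, sum_const, nsmul_eq_mul]
      ring
    have h2 : ∑ x : F, ∑ c : ZMod ℓ, ψ (algebraMap (ZMod ℓ) F c * x) = (ℓ : R) ^ 2 := by
      rw [sum_comm]
      have h3 : ∀ c : ZMod ℓ, ∑ x : F, ψ (algebraMap (ZMod ℓ) F c * x) =
          if c = 0 then ((ℓ : R) ^ 2) else 0 := by
        intro c
        split_ifs with hc
        · rw [hc, map_zero]
          simp [hcard]
        · have hc' : algebraMap (ZMod ℓ) F c ≠ 0 := by
            rwa [Ne, map_eq_zero_iff _ (algebraMap (ZMod ℓ) F).injective]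
          have hψ1 : ψ ≠ 1 := by
            intro h
            apply hψ
            ext c
            obtain ⟨x, hx⟩ := Algebra.trace_surjective (ZMod ℓ) F c
            have h4 : ψ x = 1 := by rw [h]; rfl
            rw [hψa] at h4
            rw [← hx]
            exact h4
          have := AddChar.sum_eq_zero_of_ne_one hψ1
          rw [← this]
          exact Fintype.sum_bijective (fun x => algebraMap (ZMod ℓ) F c * x)
            (mulLeft_bijective₀ _ hc') _ _ fun x => rfl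
      rw [sum_congr rfl fun c _ => h3 c]
      simp
    rw [← h1, h2]
  have hℓR : (ℓ : R) ≠ 0 := by exact_mod_cast hℓ.ne_zero
  have hN2 : (N : R) = ℓ := by
    apply mul_left_cancel₀ hℓR
    rw [hNval]; ring
  have hB : ∑ c : ZMod ℓ, gaussSum χ (ψ.mulShift (algebraMap (ZMod ℓ) F c)) =
      (ℓ : R) * ((ℓ : R) - 1) := by
    unfold gaussSum
    rw [sum_comm]
    have h1 : ∀ x : F, ∑ c : ZMod ℓ, χ x * (ψ.mulShift (algebraMap (ZMod ℓ) F c)) x =
        if Tr x = 0 then (if x = 0 then 0 else (ℓ : R)) else 0 := by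
      intro x
      rw [← mul_sum]
      have h2 : ∑ c : ZMod ℓ, (ψ.mulShift (algebraMap (ZMod ℓ) F c)) x = if Tr x = 0 then (ℓ : R) else 0 := by
        rw [← hinner x]
        exact sum_congr rfl fun c _ => AddChar.mulShift_apply
      rw [h2]
      by_cases hx : Tr x = 0
      · rw [if_pos hx, if_pos hx]
        by_cases hx0 : x = 0
        · rw [if_pos hx0, hx0, MulChar.map_zero, zero_mul]
        · rw [if_neg hx0, htrace x hx0 hx, one_mul]
      · rw [if_neg hx, if_neg hx, mul_zero]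
    rw [sum_congr rfl fun x _ => h1 x, ← Finset.sum_filter]
    have h0mem : (0 : F) ∈ univ.filter (fun x : F => Tr x = 0) := by simp [hTr]
    rw [← Finset.add_sum_erase _ _ h0mem, if_pos rfl, zero_add,
      sum_congr rfl (fun x hx => if_neg (ne_of_mem_erase hx)), sum_const, card_erase_of_mem h0mem,
      nsmul_eq_mul, ← hN, Nat.cast_sub (by
        have : 0 < N := card_pos.mpr ⟨0, h0mem⟩
        omega), hN2]
    push_cast; ring
  rw [hA] at hB
  have hℓ1 : (ℓ : R) - 1 ≠ 0 := by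
    have : ((ℓ - 1 : ℕ) : R) ≠ 0 := by
      exact_mod_cast (by omega : ℓ - 1 ≠ 0)
    rwa [Nat.cast_sub (by omega), Nat.cast_one] at this
  apply mul_left_cancel₀ hℓ1
  rw [hB]; ring

end Pool.Agent.H916K
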