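import Pool.Agent.H916K.Val

/-!
# Stickelberger's theorem for prime fields, and the Hodge type of rational classes
-/

set_option linter.unusedSectionVars false

namespace Pool.Agent.H916K

open Finset

section

variable {ℓ : ℕ} [Fact ℓ.Prime] {k : Type} [Field k] [CharP k ℓ] (φ : AI →+* k)

lemma pred_ne_zero : ((ℓ - 1 : ℕ) : k) ≠ 0 := by
  have hℓ : ℓ.Prime := Fact.out
  rw [Ne, CharP.cast_eq_zero_iff k ℓ]
  intro h
  have h1 := hℓ.two_le
  have := Nat.le_of_dvd (by omega) h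
  omega

/-- the inverse of the Teichmüller character -/
theorem exists_teich : ∃ χ : MulChar (ZMod ℓ) AI, orderOf χ = ℓ - 1 ∧
    ∀ x : ZMod ℓ, x ≠ 0 → φ (χ x) * (ZMod.castHom (dvd_refl ℓ) k x) = 1 := by
  classical
  have hℓ : ℓ.Prime := Fact.out
  have hℓ2 := hℓ.two_le
  have hn0 : ℓ - 1 ≠ 0 := by omega
  have : NeZero (ℓ - 1) := ⟨hn0⟩
  have hk0 := pred_ne_zero (ℓ := ℓ) (k := k)
  have : NeZero ((ℓ - 1 : ℕ) : k) := ⟨hk0⟩
  set ι := ZMod.castHom (dvd_refl ℓ) k with hι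
  obtain ⟨ξ0, hξ0⟩ : ∃ ζ : AI, IsPrimitiveRoot ζ (ℓ - 1) := by
    have h1 := Complex.isPrimitiveRoot_exp (ℓ - 1) hn0
    have h2 : IsIntegral ℤ (Complex.exp (2 * Real.pi * Complex.I / ((ℓ - 1 : ℕ) : ℂ))) :=
      h1.isIntegral (by omega)
    exact ⟨⟨_, h2⟩, IsPrimitiveRoot.of_map_of_injective (f := algebraMap AI ℂ) h1
      Subtype.val_injective⟩
  obtain ⟨χ0, hχ0⟩ := MulChar.exists_mulChar_orderOf (ZMod ℓ) (n := ℓ - 1)
    (by rw [ZMod.card]) hξ0
  obtain ⟨g, hg⟩ := IsCyclic.exists_generator (α := (ZMod ℓ)ˣ)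
  have hgord : orderOf g = ℓ - 1 := by
    rw [orderOf_eq_card_of_forall_mem_zpowers hg, Nat.card_eq_fintype_card, ZMod.card_units]
  have hgen : ∀ x : (ZMod ℓ)ˣ, ∃ n : ℕ, g ^ n = x := fun x =>
    (IsOfFinOrder.mem_powers_iff_mem_zpowers (isOfFinOrder_of_finite g)).mpr (hg x)
  set ξ : AI := χ0 (g : ZMod ℓ) with hξ
  have hpowχ : ∀ (χ : MulChar (ZMod ℓ) AI) (n : ℕ), (∀ x : (ZMod ℓ)ˣ, χ x ^ n = 1) → χ ^ n = 1 := by
    intro χ n h
    ext x
    rw [MulChar.pow_apply_coe, h, MulChar.one_apply_coe]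
  have hξprim : IsPrimitiveRoot ξ (ℓ - 1) := by
    refine ⟨?_, ?_⟩
    · exact mulChar_pow_one hχ0 g.ne_zero
    · intro l hl
      rw [← hχ0]
      apply orderOf_dvd_of_pow_eq_one
      apply hpowχ
      intro x
      obtain ⟨n, rfl⟩ := hgen x
      rw [Units.val_pow_eq_pow_val, map_pow, ← pow_mul, mul_comm n l, pow_mul, hl, one_pow]
  have hφξ : IsPrimitiveRoot (φ ξ) (ℓ - 1) := by
    rw [← Polynomial.isRoot_cyclotomic_iff]
    have h1 : (Polynomial.cyclotomic (ℓ - 1) AI).IsRoot ξ := by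
      have : NeZero ((ℓ - 1 : ℕ) : AI) := ⟨by exact_mod_cast hn0⟩
      exact Polynomial.isRoot_cyclotomic_iff.mpr hξprim
    have h2 := h1.map (f := φ)
    rwa [Polynomial.map_cyclotomic] at h2
  have hιg : ι (g : ZMod ℓ) ≠ 0 := by
    rw [Ne, map_eq_zero_iff ι ι.injective]; exact g.ne_zero
  obtain ⟨i, _, hi⟩ := hφξ.eq_pow_of_pow_eq_one (ξ := (ι (g : ZMod ℓ))⁻¹) (by
    rw [inv_pow, ← map_pow, ZMod.pow_card_sub_one_eq_one g.ne_zero, map_one, inv_one])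
  have hmain : ∀ x : ZMod ℓ, x ≠ 0 → φ ((χ0 ^ i) x) * ι x = 1 := by
    intro x hx
    obtain ⟨n, hn⟩ := hgen (Units.mk0 x hx)
    have hx' : x = (g : ZMod ℓ) ^ n := by
      rw [← Units.val_pow_eq_pow_val, hn, Units.val_mk0]
    rw [mulChar_pow_apply χ0 i hx, hx', map_pow, map_pow, map_pow, map_pow]
    have h2 : φ (χ0 (g : ZMod ℓ)) ^ n = (φ ξ) ^ n := rfl
    rw [← pow_mul, mul_comm n i, pow_mul, hi, ← mul_pow, inv_mul_cancel₀ hιg, one_pow]
  refine ⟨χ0 ^ i, ?_, hmain⟩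
  apply Nat.dvd_antisymm
  · rw [← hχ0]; exact orderOf_pow_dvd i
  · have h1 : ι (g : ZMod ℓ) ^ orderOf (χ0 ^ i) = 1 := by
      have h2 := hmain _ g.ne_zero
      have h3 : φ ((χ0 ^ i) (g : ZMod ℓ)) ^ orderOf (χ0 ^ i) = 1 := by
        rw [← map_pow, mulChar_pow_one rfl g.ne_zero, map_one]
      have h4 := congrArg (fun z => z ^ orderOf (χ0 ^ i)) h2
      simp only [mul_pow, h3, one_mul, one_pow] at h4
      exact h4
    rw [← map_pow] at h1
    have h5 : (g : ZMod ℓ) ^ orderOf (χ0 ^ i) = 1 := ι.injective (by rw [h1, map_one])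
    rw [← hgord]
    apply orderOf_dvd_of_pow_eq_one
    apply Units.ext
    rw [Units.val_pow_eq_pow_val, h5]; rfl

variable {Γ : Type} [LinearOrderedCommGroupWithZero Γ] (v : Valuation ℂ Γ)

structure Above : Prop where
  le : ∀ x : AI, v (x : ℂ) ≤ 1
  lt : ∀ x : AI, φ x = 0 → v (x : ℂ) < 1
  eq : ∀ x : AI, φ x ≠ 0 → v (x : ℂ) = 1

variable {φ} {v}

lemma Above.root (h : Above φ v) {x : AI} {n : ℕ} (hn : n ≠ 0) (hx : x ^ n = 1) :
    v (x : ℂ) = 1 := by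
  apply h.eq
  intro h0
  have h1 := congrArg φ hx
  rw [map_pow, h0, zero_pow hn, map_one] at h1
  exact zero_ne_one h1

variable (h : Above φ v) {ζ : AI} (hζ : IsPrimitiveRoot ζ ℓ)

include hζ in
lemma red_zeta : φ ζ = 1 := by
  apply pow_one_of_char (q := ℓ) (b := 1)
  rw [pow_one, ← map_pow, hζ.pow_eq_one, map_one]

include h hζ in
lemma v_pi : v (((ζ - 1 : AI)) : ℂ) < 1 := by
  apply h.lt
  rw [map_sub, red_zeta hζ, map_one, sub_self]

include h hζ in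
lemma v_ell : v ((ℓ : ℂ)) ≤ v (((ζ - 1 : AI)) : ℂ) ^ (ℓ - 1) := by
  have hℓ : ℓ.Prime := Fact.out
  have hℓ2 := hℓ.two_le
  obtain ⟨n, hn⟩ : ∃ n, ℓ = n + 1 := ⟨ℓ - 1, by omega⟩
  have hζ' : IsPrimitiveRoot ζ (n + 1) := hn ▸ hζ
  have h1 := hζ'.prod_one_sub_pow_eq_order
  have h2 : ((ℓ : ℕ) : ℂ) = ((∏ i ∈ range n, (1 - ζ ^ (i + 1)) : AI) : ℂ) := by
    rw [h1, hn]; push_cast; rfl
  have h3 : ∀ i : ℕ, (1 - ζ ^ (i + 1) : AI) = (ζ - 1) * (-(∑ j ∈ range (i + 1), ζ ^ j)) := by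
    intro i
    have := mul_geom_sum ζ (i + 1)
    linear_combination this
  rw [h2, hn, Nat.add_sub_cancel]
  have h4 : ((∏ i ∈ range n, (1 - ζ ^ (i + 1)) : AI) : ℂ) =
      ((ζ - 1 : AI) : ℂ) ^ n * ((∏ i ∈ range n, (-(∑ j ∈ range (i + 1), ζ ^ j)) : AI) : ℂ) := by
    rw [prod_congr rfl fun i _ => h3 i, prod_mul_distrib, prod_const, card_range]
    push_cast; ring
  rw [h4, map_mul, map_pow]
  exact mul_le_of_le_one_right' (h.le _)

variable {χ : MulChar (ZMod ℓ) AI} (hχ : orderOf χ = ℓ - 1)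
  (hχφ : ∀ x : ZMod ℓ, x ≠ 0 → φ (χ x) * (ZMod.castHom (dvd_refl ℓ) k x) = 1) (hℓ3 : 3 ≤ ℓ)

include h hζ hχ hχφ hℓ3 in
lemma v_gauss_one : v ((gaussSum χ (AddChar.zmodChar ℓ hζ.pow_eq_one) : AI) : ℂ) =
    v (((ζ - 1 : AI)) : ℂ) := by
  classical
  have hχ1 : χ ≠ 1 := by
    intro h1
    rw [h1, orderOf_one] at hχ
    omega
  set T : AI := ∑ x, χ x * ∑ i ∈ range x.val, ζ ^ i with hT
  have h1 : gaussSum χ (AddChar.zmodChar ℓ hζ.pow_eq_one) = (ζ - 1) * T := by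
    have h2 : ∑ x, χ x = 0 := MulChar.sum_eq_zero_of_ne_one hχ1
    have h3 : gaussSum χ (AddChar.zmodChar ℓ hζ.pow_eq_one) = ∑ x, χ x * (ζ ^ x.val - 1) := by
      simp only [mul_sub, mul_one, sum_sub_distrib, h2, sub_zero]
      unfold gaussSum
      exact sum_congr rfl fun x _ => by rw [AddChar.zmodChar_apply]
    rw [h3, hT, mul_sum]
    refine sum_congr rfl fun x _ => ?_
    rw [← mul_geom_sum]; ring
  have hφT : φ T ≠ 0 := by
    have h2 : φ T = -1 := by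
      rw [hT, map_sum]
      have h3 : ∀ x : ZMod ℓ, φ (χ x * ∑ i ∈ range x.val, ζ ^ i) = if x = 0 then 0 else 1 := by
        intro x
        split_ifs with hx
        · rw [hx, MulChar.map_zero, zero_mul, map_zero]
        · rw [map_mul, map_sum]
          have h4 : ∀ i ∈ range x.val, φ (ζ ^ i) = 1 := by
            intro i _; rw [map_pow, red_zeta hζ, one_pow]
          rw [sum_congr rfl h4, sum_const, card_range, nsmul_eq_mul, mul_one]
          have h5 : ((x.val : ℕ) : k) = ZMod.castHom (dvd_refl ℓ) k x := by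
            rw [ZMod.castHom_apply, ZMod.natCast_val]
          rw [h5]
          exact hχφ x hx
      rw [sum_congr rfl fun x _ => h3 x, ← add_sum_erase _ _ (mem_univ (0 : ZMod ℓ)), if_pos rfl,
        zero_add, sum_congr rfl (fun x hx => if_neg (ne_of_mem_erase hx)), sum_const,
        card_erase_of_mem (mem_univ _), card_univ, ZMod.card, nsmul_eq_mul, mul_one,
        Nat.cast_sub (by omega), CharP.cast_eq_zero, Nat.cast_one, zero_sub]
    rw [h2]; exact neg_ne_zero.mpr one_ne_zero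
  rw [h1]
  have h6 : (((ζ - 1) * T : AI) : ℂ) = ((ζ - 1 : AI) : ℂ) * (T : ℂ) := by push_cast; ring
  rw [h6, map_mul, h.eq T hφT, mul_one]

include h hζ hχ hχφ hℓ3 in
lemma v_gauss_ge : ∀ n : ℕ, 1 ≤ n → n ≤ ℓ - 2 → v (((ζ - 1 : AI)) : ℂ) ^ n ≤
    v ((gaussSum (χ ^ n) (AddChar.zmodChar ℓ hζ.pow_eq_one) : AI) : ℂ) := by
  intro n hn
  induction n, hn using Nat.le_induction with
  | base => intro _; rw [pow_one, pow_one, v_gauss_one h hζ hχ hχφ hℓ3]
  | succ n hn ih =>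
    intro hn2
    have ih' := ih (by omega)
    have hne : χ ^ n * χ ≠ 1 := by
      rw [← pow_succ]
      intro h1
      have := orderOf_dvd_of_pow_eq_one h1
      rw [hχ] at this
      have := Nat.le_of_dvd (by omega) this
      omega
    have h1 := jacobiSum_mul_nontrivial hne (AddChar.zmodChar ℓ hζ.pow_eq_one)
    rw [← pow_succ] at h1
    have h2 := congrArg (fun z : AI => v (z : ℂ)) h1
    push_cast at h2
    rw [map_mul, map_mul, v_gauss_one h hζ hχ hχφ hℓ3] at h2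
    calc v (((ζ - 1 : AI)) : ℂ) ^ (n + 1) = v (((ζ - 1 : AI)) : ℂ) ^ n * v (((ζ - 1 : AI)) : ℂ) := pow_succ _ _
      _ ≤ v ((gaussSum (χ ^ n) (AddChar.zmodChar ℓ hζ.pow_eq_one) : AI) : ℂ) * v (((ζ - 1 : AI)) : ℂ) :=
          mul_le_mul_left ih' _
      _ = _ := h2.symm
      _ ≤ _ := mul_le_of_le_one_right' (h.le _)

include h hζ hχ hχφ hℓ3 in
lemma v_gauss : ∀ n : ℕ, 1 ≤ n → n ≤ ℓ - 2 →
    v ((gaussSum (χ ^ n) (AddChar.zmodChar ℓ hζ.pow_eq_one) : AI) : ℂ) =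
      v (((ζ - 1 : AI)) : ℂ) ^ n := by
  classical
  have hℓ : ℓ.Prime := Fact.out
  intro n hn hn2
  refine le_antisymm ?_ (v_gauss_ge h hζ hχ hχφ hℓ3 n hn hn2)
  have hψ : (AddChar.zmodChar ℓ hζ.pow_eq_one).IsPrimitive :=
    AddChar.zmodChar_primitive_of_primitive_root ℓ hζ
  have hne : χ ^ n ≠ 1 := by
    intro h1
    have := orderOf_dvd_of_pow_eq_one h1
    rw [hχ] at this
    have := Nat.le_of_dvd (by omega) this
    omega
  have h1 := gaussSum_mul_gaussSum_pow_orderOf_sub_one hne hψ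
  have h2 : (χ ^ n) ^ (orderOf (χ ^ n) - 1) = χ ^ (ℓ - 1 - n) := by
    have h3 : (χ ^ n) ^ (orderOf (χ ^ n) - 1) * χ ^ n = χ ^ (ℓ - 1 - n) * χ ^ n := by
      rw [← pow_succ, Nat.sub_add_cancel (orderOf_pos _), pow_orderOf_eq_one, ← pow_add,
        Nat.sub_add_cancel (by omega), ← hχ, pow_orderOf_eq_one]
    exact mul_right_cancel h3
  rw [h2] at h1
  have h4 := congrArg (fun z : AI => v (z : ℂ)) h1
  push_cast at h4
  rw [map_mul, map_mul] at h4
  have hneg : v (((χ ^ n) (-1) : AI) : ℂ) = 1 := by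
    apply h.root (n := 2) (by norm_num)
    rw [← map_pow]
    have : ((-1 : ZMod ℓ)) ^ 2 = 1 := by ring
    rw [this, MulChar.map_one]
  rw [hneg, one_mul, ZMod.card] at h4
  have h5 := v_gauss_ge h hζ hχ hχφ hℓ3 (ℓ - 1 - n) (by omega) (by omega)
  have h6 := v_ell h hζ
  set π := v (((ζ - 1 : AI)) : ℂ) with hπ
  have hπ0 : π ≠ 0 := by
    rw [hπ, Valuation.ne_zero_iff]
    intro h0
    have h7 : (ζ : ℂ) = 1 := by
      have : ((ζ - 1 : AI) : ℂ) = (ζ : ℂ) - 1 := by push_cast; ring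
      rw [this] at h0
      exact sub_eq_zero.mp h0
    exact hζ.ne_one hℓ.one_lt (Subtype.ext h7)
  have hπpos : 0 < π ^ (ℓ - 1 - n) := pow_pos (zero_lt_iff.mpr hπ0) _
  have h7 : v ((gaussSum (χ ^ n) (AddChar.zmodChar ℓ hζ.pow_eq_one) : AI) : ℂ) * π ^ (ℓ - 1 - n) ≤
      π ^ n * π ^ (ℓ - 1 - n) := by
    rw [← pow_add, show n + (ℓ - 1 - n) = ℓ - 1 by omega]
    calc _ ≤ v ((gaussSum (χ ^ n) (AddChar.zmodChar ℓ hζ.pow_eq_one) : AI) : ℂ) *
          v ((gaussSum (χ ^ (ℓ - 1 - n)) (AddChar.zmodChar ℓ hζ.pow_eq_one) : AI) : ℂ) :=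
            mul_le_mul_right h5 _
      _ = v ((ℓ : ℂ)) := by rw [h4]
      _ ≤ π ^ (ℓ - 1) := h6
  exact (mul_le_mul_iff_left₀ hπpos).mp h7

end

/-- **Hodge type.** Rational classes are Hodge classes. -/
theorem hodge_of_rational {m : ℕ} (hm : 2 ≤ m) {s : Multiset (ZMod m × ℤ)}
    (h0 : ∀ z ∈ s, z.1 ≠ 0) (heven : Even (Multiset.card s)) (hsum : (s.map Prod.fst).sum = 0)
    (hc : ∀ z ∈ s, z.2 ≠ 0) (hR : RationalClass m s) :
    H916R2.IsHodge m (s.map Prod.fst) := by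
  classical
  have hmz : NeZero m := ⟨by omega⟩
  refine ⟨?_, by rwa [Multiset.card_map], hsum, ?_⟩
  · intro h
    obtain ⟨z, hz, hz0⟩ := Multiset.mem_map.mp h
    exact h0 z hz hz0
  intro t
  obtain ⟨N, hN⟩ := hR
  obtain ⟨ℓ, hℓN, hℓ, hℓm⟩ := Nat.forall_exists_prime_gt_and_eq_mod
    (q := m) (a := 1) isUnit_one (N + 3 + (s.map fun z => z.2.natAbs).sum)
  have hF : Fact ℓ.Prime := ⟨hℓ⟩
  have hℓ3 : 3 ≤ ℓ := by omega
  obtain ⟨k, _, _, φ, Γ, _, v, hv1, hv2, hv3⟩ := exists_val hℓ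
  have hv : Above φ v := ⟨hv1, hv2, hv3⟩
  obtain ⟨χ1, hχ1, hχφ⟩ := exists_teich (ℓ := ℓ) φ
  obtain ⟨ζ, hζ⟩ : ∃ ζ : AI, IsPrimitiveRoot ζ ℓ := by
    have h1 := Complex.isPrimitiveRoot_exp ℓ hℓ.ne_zero
    have h2 : IsIntegral ℤ (Complex.exp (2 * Real.pi * Complex.I / ((ℓ : ℕ) : ℂ))) :=
      h1.isIntegral hℓ.pos
    exact ⟨⟨_, h2⟩, IsPrimitiveRoot.of_map_of_injective (f := algebraMap AI ℂ) h1
      Subtype.val_injective⟩
  have hinj : Function.Injective (algebraMap AI ℂ) := Subtype.val_injective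
  have hmdvd : m ∣ ℓ - 1 := by
    have h1 : ((ℓ - 1 : ℕ) : ZMod m) = 0 := by
      rw [Nat.cast_sub (by omega), hℓm]; simp
    exact (ZMod.natCast_eq_zero_iff _ _).mp h1
  obtain ⟨e, he⟩ := hmdvd
  have he0 : 0 < e := Nat.pos_of_ne_zero (by rintro rfl; rw [mul_zero] at he; omega)
  set τ : ℕ := (t : ZMod m).val with hτ
  have hτcop : τ.Coprime m := ZMod.val_coe_unit_coprime t
  set χ : MulChar (ZMod ℓ) AI := (χ1 ^ e) ^ τ with hχ
  have hord1 : orderOf (χ1 ^ e) = m := by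
    rw [orderOf_pow_of_dvd he0.ne' (by rw [hχ1, he]; exact dvd_mul_left e m), hχ1, he,
      Nat.mul_div_cancel _ he0]
  have hordχ : orderOf χ = m := by
    rw [hχ, Nat.Coprime.orderOf_pow (by rw [hord1]; exact hτcop.symm), hord1]
  set ψ := AddChar.zmodChar ℓ hζ.pow_eq_one with hψdef
  set χ' : MulChar (ZMod ℓ) ℂ := χ.ringHomComp (algebraMap AI ℂ) with hχ'
  set ψ' : AddChar (ZMod ℓ) ℂ := (algebraMap AI ℂ).toMonoidHom.compAddChar ψ with hψ'
  have hordχ' : orderOf χ' = m := by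
    rw [← hordχ]
    exact orderOf_injective (MulChar.ringHomCompHom (algebraMap AI ℂ))
      (MulChar.injective_ringHomComp hinj) χ
  have hψ1 : ψ' ≠ 1 := by
    intro h
    have h1 : ψ' 1 = 1 := by rw [h]; rfl
    have h2 : algebraMap AI ℂ (ψ 1) = 1 := h1
    rw [hψdef, AddChar.zmodChar_apply] at h2
    have : Fact (1 < ℓ) := ⟨hℓ.one_lt⟩
    rw [ZMod.val_one, pow_one] at h2
    exact hζ.ne_one hℓ.one_lt (hinj (by rw [h2, map_one]))
  have hordℓ : orderOf (ℓ : ZMod m) = 1 := by rw [hℓm, orderOf_one]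
  have h1 := hN ℓ (by omega) hℓ (ZMod ℓ) (by rw [hordℓ, pow_one, ZMod.card]) χ' ψ' hordχ' hψ1
  have h2 := congrArg v h1
  rw [map_mul, map_pow, map_multiset_prod, map_multiset_prod, Multiset.map_map,
    Multiset.map_map] at h2
  set π := v (((ζ - 1 : AI)) : ℂ) with hπ
  have hg : ∀ z ∈ s, v (gaussSum (χ' ^ z.1.val) ψ') = π ^ (e * ((t : ZMod m) * z.1).val) := by
    intro z hz
    have e1 : gaussSum (χ' ^ z.1.val) ψ' = ((gaussSum (χ ^ z.1.val) ψ : AI) : ℂ) := by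
      have : gaussSum (χ' ^ z.1.val) ψ' = algebraMap AI ℂ (gaussSum (χ ^ z.1.val) ψ) := by
        unfold gaussSum
        rw [map_sum]
        refine sum_congr rfl fun x _ => ?_
        rw [map_mul, hχ', MulChar.ringHomComp_pow, MulChar.ringHomComp_apply]
        rfl
      rw [this]; rfl
    have e2 : χ ^ z.1.val = χ1 ^ (e * ((t : ZMod m) * z.1).val) := by
      rw [hχ, ← pow_mul, ← pow_mul, pow_eq_pow_iff_modEq, hχ1, he, ZMod.val_mul, mul_comm m e]
      exact (Nat.ModEq.mul_left' e (Nat.mod_modEq _ _)).symm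
    have e3 : (t : ZMod m) * z.1 ≠ 0 := by
      intro h
      exact h0 z hz ((t.isUnit.mul_right_eq_zero).mp h)
    have e4 : 0 < ((t : ZMod m) * z.1).val := Nat.pos_of_ne_zero
      (fun h => e3 ((ZMod.val_eq_zero _).mp h))
    have e5 := ZMod.val_lt ((t : ZMod m) * z.1)
    have e6 : e * ((t : ZMod m) * z.1).val ≤ e * (m - 1) := Nat.mul_le_mul_left e (by omega)
    have e7 : e * (m - 1) = ℓ - 1 - e := by
      rw [he, Nat.mul_sub, mul_one, mul_comm]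
    rw [e1, e2]
    exact v_gauss hv hζ hχ1 hχφ hℓ3 _ (Nat.mul_pos he0 e4) (by omega)
  have hcf : ∀ z ∈ s, v ((χ' ^ z.1.val) (z.2 : ZMod ℓ)) = 1 := by
    intro z hz
    have e1 : (χ' ^ z.1.val) (z.2 : ZMod ℓ) = (((χ ^ z.1.val) (z.2 : ZMod ℓ) : AI) : ℂ) := by
      rw [hχ', MulChar.ringHomComp_pow, MulChar.ringHomComp_apply]; rfl
    rw [e1]
    apply hv.root (n := orderOf (χ ^ z.1.val)) (orderOf_pos _).ne'
    apply mulChar_pow_one rfl
    apply int_cast_ne_zero (ℓ := ℓ) (hc z hz)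
    have : z.2.natAbs ≤ (s.map fun z => z.2.natAbs).sum :=
      Multiset.single_le_sum (fun _ _ => Nat.zero_le _) _ (Multiset.mem_map_of_mem _ hz)
    omega
  have e1 : (s.map (v ∘ fun z => gaussSum (χ' ^ z.1.val) ψ')) =
      s.map fun z => π ^ (e * ((t : ZMod m) * z.1).val) := Multiset.map_congr rfl hg
  have e2 : (s.map (v ∘ fun z => (χ' ^ z.1.val) (z.2 : ZMod ℓ))) = s.map fun _ => (1 : Γ) :=
    Multiset.map_congr rfl hcf
  rw [e1, e2, Multiset.map_const', Multiset.prod_replicate, one_pow, mul_one, ZMod.card] at h2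
  have hprodpow : ∀ s : Multiset (ZMod m × ℤ),
      (s.map fun z => π ^ (e * ((t : ZMod m) * z.1).val)).prod =
        π ^ (e * (s.map fun z => ((t : ZMod m) * z.1).val).sum) := by
    intro s
    induction s using Multiset.induction_on with
    | empty => simp
    | cons a s ih =>
      rw [Multiset.map_cons, Multiset.prod_cons, ih, Multiset.map_cons, Multiset.sum_cons,
        ← pow_add, mul_add]
  rw [hprodpow] at h2
  -- the valuation of `ℓ`
  have hπ0 : π ≠ 0 := by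
    rw [hπ, Valuation.ne_zero_iff]
    intro h0
    have h7 : (ζ : ℂ) = 1 := by
      have : ((ζ - 1 : AI) : ℂ) = (ζ : ℂ) - 1 := by push_cast; ring
      rw [this] at h0
      exact sub_eq_zero.mp h0
    exact hζ.ne_one hℓ.one_lt (Subtype.ext h7)
  have hπ1 : π < 1 := v_pi hv hζ
  have hvℓ : v ((ℓ : ℂ)) = π ^ (ℓ - 1) := by
    refine le_antisymm (v_ell hv hζ) ?_
    have hprim : (AddChar.zmodChar ℓ hζ.pow_eq_one).IsPrimitive :=
      AddChar.zmodChar_primitive_of_primitive_root ℓ hζ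
    have hne : χ1 ≠ 1 := by
      intro h; rw [h, orderOf_one] at hχ1; omega
    have h3 := gaussSum_mul_gaussSum_pow_orderOf_sub_one hne hprim
    rw [hχ1] at h3
    have h4 := congrArg (fun z : AI => v (z : ℂ)) h3
    push_cast at h4
    rw [map_mul, map_mul] at h4
    have hneg : v ((χ1 (-1) : AI) : ℂ) = 1 := by
      apply hv.root (n := 2) (by norm_num)
      rw [← map_pow]
      have : ((-1 : ZMod ℓ)) ^ 2 = 1 := by ring
      rw [this, MulChar.map_one]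
    rw [hneg, one_mul, ZMod.card, v_gauss_one hv hζ hχ1 hχφ hℓ3, show ℓ - 1 - 1 = ℓ - 2 by omega,
      v_gauss hv hζ hχ1 hχφ hℓ3 (ℓ - 2) (by omega) le_rfl, ← pow_succ',
      show ℓ - 2 + 1 = ℓ - 1 by omega] at h4
    exact h4.le
  rw [hvℓ, ← pow_mul] at h2
  have h3 := pow_right_injective₀ (zero_lt_iff.mpr hπ0) hπ1.ne h2
  obtain ⟨c, hcard⟩ := heven
  rw [hcard, show (c + c) / 2 = c by omega, he] at h3
  have h4 : (s.map fun z => ((t : ZMod m) * z.1).val).sum = m * c := by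
    have : e * (s.map fun z => ((t : ZMod m) * z.1).val).sum = e * (m * c) := by
      rw [h3]; ring
    exact Nat.eq_of_mul_eq_mul_left he0 this
  rw [Multiset.map_map, Multiset.card_map]
  have h5 : (s.map ((fun a => ((t : ZMod m) * a).val) ∘ Prod.fst)).sum = m * c := h4
  rw [h5, hcard]; ring

end Pool.Agent.H916K
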