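import Pool.Agent.H916K.LevelThree

/-!
# Structure of Hodge relations, three odd prime factors
-/

namespace Pool.Agent.H916K

open Finset Pool.Agent.H916R2

lemma par_iota_gen {l M0 n0 a m k : ℕ} [NeZero m] [NeZero n0] (hl : l.Prime) (hcop : l.Coprime M0)
    (ha : 0 < a) (hn0 : l * M0 = n0) (hk : k * n0 = m) (z : ZMod n0) :
    par m (l ^ a) (iota k z) = par n0 l z := by
  have hk0 : 0 < k := Nat.pos_of_ne_zero (by rintro rfl; exact NeZero.ne m (by rw [← hk]; simp))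
  have h1 : (iota k z : ZMod m) = 0 ↔ z = 0 :=
    ⟨fun h => iota_eq_zero hk h, fun h => by rw [h]; exact iota_zero⟩
  have h2 : ((l ^ a : ℕ) : ZMod m) * iota k z = 0 ↔ ((l : ℕ) : ZMod n0) * z = 0 := by
    have e1 : ((l ^ a : ℕ) : ZMod m) * iota k z = ((k * (l ^ a * z.val) : ℕ) : ZMod m) := by
      unfold iota; push_cast; ring
    have e2 : ((l : ℕ) : ZMod n0) * z = ((l * z.val : ℕ) : ZMod n0) := by
      push_cast; rw [ZMod.natCast_zmod_val]
    rw [e1, e2, ZMod.natCast_eq_zero_iff, ZMod.natCast_eq_zero_iff]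
    have e3 : m ∣ k * (l ^ a * z.val) ↔ n0 ∣ l ^ a * z.val := by
      have : k * n0 ∣ k * (l ^ a * z.val) ↔ n0 ∣ l ^ a * z.val :=
        Nat.mul_dvd_mul_iff_left hk0
      rwa [hk] at this
    rw [e3]
    generalize z.val = w
    rw [← hn0]
    constructor
    · intro h
      have h3 : M0 ∣ l ^ a * w := (Dvd.intro_left l rfl).trans h
      have h4 : M0 ∣ w := (Nat.Coprime.dvd_mul_left (hcop.symm.pow_right a)).mp h3
      exact Nat.mul_dvd_mul_left l h4
    · intro h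
      have h3 : M0 ∣ w := (Nat.mul_dvd_mul_iff_left hl.pos).mp h
      exact Nat.mul_dvd_mul (dvd_pow_self l ha.ne') h3
  unfold par
  simp only [h1, h2]

/-- reduction to a lower level, keeping track of three parities -/
lemma red_parity3 {m m0 k : ℕ} [NeZero m] [NeZero m0] (hred : Red m m0 k) {Q : Type}
    [AddCommGroup Q] {c : ZMod m → Q} (hc : OddDist c) {π1 π2 π3 : ZMod m → ZMod 2}
    (h1 : OddDist π1) (h2 : OddDist π2) (h3 : OddDist π3)
    {s : Multiset (ZMod m)} (hs : IsHodge m s) :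
    ∃ x0 : ZMod m0 → ℤ, Rel x0 ∧ (s.map c).sum = ∑ b : ZMod m0, x0 b • c (iota k b) ∧
      (s.map π1).sum = ∑ b : ZMod m0, x0 b • π1 (iota k b) ∧
      (s.map π2).sum = ∑ b : ZMod m0, x0 b • π2 (iota k b) ∧
      (s.map π3).sum = ∑ b : ZMod m0, x0 b • π3 (iota k b) := by
  obtain ⟨x0, hx0, he⟩ := hred _ _ (oddDist_prod hc (oddDist_prod h1 (oddDist_prod h2 h3))) _ hs.rel
  have k0 := congrArg Prod.fst he
  have k1 := congrArg (fun z => z.2.1) he
  have k2 := congrArg (fun z => z.2.2.1) he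
  have k3 := congrArg (fun z => z.2.2.2) he
  simp only [Prod.fst_sum, Prod.snd_sum, Prod.smul_fst, Prod.smul_snd] at k0 k1 k2 k3
  refine ⟨x0, hx0, ?_, ?_, ?_, ?_⟩
  · rw [← k0, sum_count]
  · rw [← k1, sum_count]
  · rw [← k2, sum_count]
  · rw [← k3, sum_count]

lemma exists_red_three {p q r a b d c m : ℕ} (hp : p.Prime) (hq : q.Prime) (hr : r.Prime)
    (hp2 : p ≠ 2) (hq2 : q ≠ 2) (hr2 : r ≠ 2) (ha : 0 < a) (hb : 0 < b) (hd : 0 < d)
    (hc : c = 1 ∨ c = 2) (hm : c * (p ^ a * q ^ b * r ^ d) = m)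
    [NeZero m] [NeZero (p * q * r)] : ∃ k, k * (p * q * r) = m ∧ Red m (p * q * r) k := by
  have hk1 : (p ^ (a - 1) * q ^ (b - 1) * r ^ (d - 1)) * (p * q * r) = p ^ a * q ^ b * r ^ d := by
    obtain ⟨a', rfl⟩ : ∃ a', a = a' + 1 := ⟨a - 1, by omega⟩
    obtain ⟨b', rfl⟩ : ∃ b', b = b' + 1 := ⟨b - 1, by omega⟩
    obtain ⟨d', rfl⟩ : ∃ d', d = d' + 1 := ⟨d - 1, by omega⟩
    simp only [Nat.add_sub_cancel]; ring
  have hodd : Odd (p ^ a * q ^ b * r ^ d) :=
    (((hp.odd_of_ne_two hp2).pow).mul ((hq.odd_of_ne_two hq2).pow)).mul ((hr.odd_of_ne_two hr2).pow)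
  have hn : NeZero (p ^ a * q ^ b * r ^ d) := ⟨by
    have := hp.pos; have := hq.pos; have := hr.pos; positivity⟩
  have hred : Red (p ^ a * q ^ b * r ^ d) (p * q * r) (p ^ (a - 1) * q ^ (b - 1) * r ^ (d - 1)) := by
    refine red_exists _ _ _ _ rfl hk1 ?_ ?_
    · intro l hl hdvd
      rcases (Nat.Prime.dvd_mul hl).mp hdvd with h | h
      · rcases (Nat.Prime.dvd_mul hl).mp h with h | h
        · exact Dvd.dvd.mul_right (Dvd.dvd.mul_right (hl.dvd_of_dvd_pow h) q) r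
        · exact Dvd.dvd.mul_right (Dvd.dvd.mul_left (hl.dvd_of_dvd_pow h) p) r
      · exact Dvd.dvd.mul_left (hl.dvd_of_dvd_pow h) (p * q)
    · intro h4
      exfalso
      have : Even (p ^ a * q ^ b * r ^ d) := even_iff_two_dvd.mpr ((by norm_num : 2 ∣ 4).trans h4)
      exact (Nat.not_even_iff_odd.mpr hodd) this
  rcases hc with rfl | rfl
  · rw [one_mul] at hm
    subst hm
    exact ⟨_, hk1, hred⟩
  · refine ⟨2 * (p ^ (a - 1) * q ^ (b - 1) * r ^ (d - 1)), ?_, ?_⟩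
    · rw [mul_assoc, hk1, hm]
    · exact (red_double hm hodd).trans hm hred

/-- **Structure.** -/
theorem structure_three {p q r : ℕ} [hp : Fact p.Prime] [hq : Fact q.Prime] [hr : Fact r.Prime]
    (hp2 : p ≠ 2) (hq2 : q ≠ 2) (hr2 : r ≠ 2) (hpq : p ≠ q) (hpr : p ≠ r) (hqr : q ≠ r)
    (l1 : legendreSym p q = -1) (l2 : legendreSym p r = 1) (l3 : legendreSym q r = -1)
    (l4 : legendreSym r p = -1) {a b d c m : ℕ} (ha : 0 < a) (hb : 0 < b) (hd : 0 < d)
    (hc : c = 1 ∨ c = 2) (hm : c * (p ^ a * q ^ b * r ^ d) = m) {s : Multiset (ZMod m)}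
    (hs : IsHodge m s) (hne : s ≠ 0)
    (e1 : Even (s.countP fun z => ((p ^ a : ℕ) : ZMod m) * z = 0))
    (e2 : Even (s.countP fun z => ((q ^ b : ℕ) : ZMod m) * z = 0))
    (e3 : Even (s.countP fun z => ((r ^ d : ℕ) : ZMod m) * z = 0)) :
    Generated m (fun _ => False) s := by
  have hc0 : 0 < c := by rcases hc with rfl | rfl <;> norm_num
  have hm0 : 0 < m := by
    rw [← hm]; have := hp.out.pos; have := hq.out.pos; have := hr.out.pos; positivity
  have : NeZero m := ⟨hm0.ne'⟩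
  obtain ⟨k, hk, hred⟩ := exists_red_three hp.out hq.out hr.out hp2 hq2 hr2 ha hb hd hc hm
  have c2 : ∀ l : ℕ, l.Prime → l ≠ 2 → l.Coprime c := by
    intro l hl hl2
    rcases hc with rfl | rfl
    · exact Nat.coprime_one_right l
    · exact (Nat.coprime_primes hl Nat.prime_two).mpr hl2
  have cpq : p.Coprime q := coprime_of_ne hpq
  have cpr : p.Coprime r := coprime_of_ne hpr
  have cqr : q.Coprime r := coprime_of_ne hqr
  have hπ1 : OddDist (par m (p ^ a)) :=
    par_oddDist (M := c * (q ^ b * r ^ d)) hp.out hp2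
      (Nat.Coprime.mul_right (c2 p hp.out hp2) (Nat.Coprime.mul_right (cpq.pow_right b)
        (cpr.pow_right d))) (by rw [← hm]; ring)
  have hπ2 : OddDist (par m (q ^ b)) :=
    par_oddDist (M := c * (p ^ a * r ^ d)) hq.out hq2
      (Nat.Coprime.mul_right (c2 q hq.out hq2) (Nat.Coprime.mul_right (cpq.symm.pow_right a)
        (cqr.pow_right d))) (by rw [← hm]; ring)
  have hπ3 : OddDist (par m (r ^ d)) :=
    par_oddDist (M := c * (p ^ a * q ^ b)) hr.out hr2
      (Nat.Coprime.mul_right (c2 r hr.out hr2) (Nat.Coprime.mul_right (cpr.symm.pow_right a)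
        (cqr.symm.pow_right b))) (by rw [← hm]; ring)
  obtain ⟨x0, hx0, h1, k1, k2, k3⟩ :=
    red_parity3 hred (cQ_oddDist (base := fun _ => False)) hπ1 hπ2 hπ3 hs
  have z1 : ((∑ b, x0 b • par (p * q * r) p b : ZMod 2)) = 0 := by
    have h4 : ∀ z, x0 z • par (p * q * r) p z = x0 z • par m (p ^ a) (iota k z) := by
      intro z
      rw [par_iota_gen (M0 := q * r) hp.out (Nat.Coprime.mul_right cpq cpr) ha (by ring) hk]
    rw [sum_congr rfl fun z _ => h4 z, ← k1, sum_par hs.1]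
    exact (ZMod.natCast_eq_zero_iff_even).mpr e1
  have z2 : ((∑ b, x0 b • par (p * q * r) q b : ZMod 2)) = 0 := by
    have h4 : ∀ z, x0 z • par (p * q * r) q z = x0 z • par m (q ^ b) (iota k z) := by
      intro z
      rw [par_iota_gen (M0 := p * r) hq.out (Nat.Coprime.mul_right cpq.symm cqr) hb (by ring) hk]
    rw [sum_congr rfl fun z _ => h4 z, ← k2, sum_par hs.1]
    exact (ZMod.natCast_eq_zero_iff_even).mpr e2
  have z3 : ((∑ b, x0 b • par (p * q * r) r b : ZMod 2)) = 0 := by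
    have h4 : ∀ z, x0 z • par (p * q * r) r z = x0 z • par m (r ^ d) (iota k z) := by
      intro z
      rw [par_iota_gen (M0 := p * q) hr.out (Nat.Coprime.mul_right cpr.symm cqr.symm) hd
        (by ring) hk]
    rw [sum_congr rfl fun z _ => h4 z, ← k3, sum_par hs.1]
    exact (ZMod.natCast_eq_zero_iff_even).mpr e3
  rw [level_three hpq hpr hqr hp2 hq2 hr2 l1 l2 l3 l4 hx0 z1 z2 z3 (cQ_oddDist.comp_iota hk), cQ_sum,
    QuotientAddGroup.eq_zero_iff] at h1
  exact generated_of_mem_LL (fun _ h => h.elim) (fun _ h => h.elim) hs.1 hs.2.1 hne h1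

lemma leg_non {p q : ℕ} [hp : Fact p.Prime] [hq : Fact q.Prime] (hpq : p ≠ q)
    (h : ¬ IsSquare ((q : ℕ) : ZMod p)) : legendreSym p q = -1 := by
  have hq0 : ((q : ℤ) : ZMod p) ≠ 0 := by
    push_cast; exact pq_ne hpq
  rcases legendreSym.eq_one_or_neg_one p hq0 with h1 | h1
  · exfalso
    apply h
    have := (legendreSym.eq_one_iff p hq0).mp h1
    simpa using this
  · exact h1

lemma leg_sq {p q : ℕ} [hp : Fact p.Prime] [hq : Fact q.Prime] (hpq : p ≠ q)
    (h : IsSquare ((q : ℕ) : ZMod p)) : legendreSym p q = 1 := by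
  have hq0 : ((q : ℤ) : ZMod p) ≠ 0 := by
    push_cast; exact pq_ne hpq
  apply (legendreSym.eq_one_iff p hq0).mpr
  simpa using h

end Pool.Agent.H916K
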