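import Pool.Agent.H916K.Two

/-!
# Relations between odd distributions in three coordinates
-/

set_option linter.unusedSectionVars false

namespace Pool.Agent.H916K

open Finset

/-- odd distributions in three coordinates -/
structure D3 {p q r : ℕ} [NeZero p] [NeZero q] [NeZero r] {Q : Type*} [AddCommGroup Q]
    (c : ZMod p → ZMod q → ZMod r → Q) : Prop where
  neg : ∀ u v w, c (-u) (-v) (-w) = - c u v w
  zero : c 0 0 0 = 0
  dp : ∀ v w, ∑ u, c u v w = c 0 ((p : ZMod q) * v) ((p : ZMod r) * w)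
  dq : ∀ u w, ∑ v, c u v w = c ((q : ZMod p) * u) 0 ((q : ZMod r) * w)
  dr : ∀ u v, ∑ w, c u v w = c ((r : ZMod p) * u) ((r : ZMod q) * v) 0

section
variable {p q r : ℕ} [Fact p.Prime] [Fact q.Prime] [Fact r.Prime]

lemma D3.rot {Q : Type*} [AddCommGroup Q] {c : ZMod p → ZMod q → ZMod r → Q} (h : D3 c) :
    D3 (fun v w u => c u v w) where
  neg := fun v w u => h.neg u v w
  zero := h.zero
  dp := fun w u => h.dq u w
  dq := fun v u => h.dr u v
  dr := fun v w => h.dp v w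

/-- integral relations -/
def Rel3 {p q r : ℕ} [NeZero p] [NeZero q] [NeZero r] (x : ZMod p → ZMod q → ZMod r → ℤ) : Prop :=
  ∀ g : ZMod p → ZMod q → ZMod r → ℤ, D3 g → ∑ u, ∑ v, ∑ w, x u v w * g u v w = 0

lemma sum_rot {Q : Type*} [AddCommMonoid Q] (F : ZMod p → ZMod q → ZMod r → Q) :
    ∑ v, ∑ w, ∑ u, F u v w = ∑ u, ∑ v, ∑ w, F u v w := by
  rw [sum_comm (f := fun u v => ∑ w, F u v w)]
  refine sum_congr rfl fun v _ => ?_
  rw [sum_comm]

lemma Rel3.rot {x : ZMod p → ZMod q → ZMod r → ℤ} (h : Rel3 x) :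
    Rel3 (fun v w u => x u v w) := by
  intro g hg
  rw [sum_rot (fun u v w => x u v w * g v w u)]
  exact h _ hg.rot.rot

/-- the odd part -/
def Y3 (x : ZMod p → ZMod q → ZMod r → ℤ) (u : ZMod p) (v : ZMod q) (w : ZMod r) : ℤ :=
  x u v w - x (-u) (-v) (-w)

lemma Y3_neg (x : ZMod p → ZMod q → ZMod r → ℤ) (u : ZMod p) (v : ZMod q) (w : ZMod r) :
    Y3 x (-u) (-v) (-w) = - Y3 x u v w := by
  unfold Y3; rw [neg_neg, neg_neg, neg_neg]; ring

lemma sum_neg3 {Q : Type*} [AddCommMonoid Q] (F : ZMod p → ZMod q → ZMod r → Q) :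
    ∑ u, ∑ v, ∑ w, F (-u) (-v) (-w) = ∑ u, ∑ v, ∑ w, F u v w := by
  rw [sum_neg (fun u => ∑ v, ∑ w, F u (-v) (-w))]
  refine sum_congr rfl fun u _ => ?_
  rw [sum_neg (fun v => ∑ w, F u v (-w))]
  refine sum_congr rfl fun v _ => ?_
  rw [sum_neg (fun w => F u v w)]

/-- relations in terms of the odd part -/
lemma Rel3.odd {x : ZMod p → ZMod q → ZMod r → ℤ} (h : Rel3 x)
    {g : ZMod p → ZMod q → ZMod r → ℤ} (hg : D3 g) :
    ∑ u, ∑ v, ∑ w, Y3 x u v w * g u v w = 0 := by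
  have h1 := h g hg
  have h2 : ∑ u, ∑ v, ∑ w, x (-u) (-v) (-w) * g u v w = 0 := by
    rw [← sum_neg3 (fun u v w => x (-u) (-v) (-w) * g u v w)]
    simp only [neg_neg, hg.neg, mul_neg, sum_neg_distrib]
    rw [h1, neg_zero]
  unfold Y3
  simp only [sub_mul, sum_sub_distrib]
  rw [h1, h2, sub_zero]

lemma odd_test {Y D : ZMod p → ZMod q → ZMod r → ℤ}
    (hY : ∀ u v w, Y (-u) (-v) (-w) = - Y u v w) :
    ∑ u, ∑ v, ∑ w, Y u v w * (D u v w - D (-u) (-v) (-w)) = 2 * ∑ u, ∑ v, ∑ w, Y u v w * D u v w := by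
  have h2 : ∑ u, ∑ v, ∑ w, Y u v w * D (-u) (-v) (-w) = - ∑ u, ∑ v, ∑ w, Y u v w * D u v w := by
    rw [← sum_neg3 (fun u v w => Y u v w * D (-u) (-v) (-w))]
    simp only [neg_neg, hY, neg_mul, sum_neg_distrib]
  simp only [mul_sub, sum_sub_distrib]
  rw [h2]; ring

/-- difference of two delta functions -/
def dd {n : ℕ} (a b u : ZMod n) : ℤ := dl a u - dl b u

lemma dd_zero {n : ℕ} {a b : ZMod n} (ha : a ≠ 0) (hb : b ≠ 0) : dd a b 0 = 0 := by
  unfold dd; rw [dl_zero ha, dl_zero hb, sub_zero]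

lemma sum_dd {n : ℕ} [NeZero n] (a b : ZMod n) : ∑ u, dd a b u = 0 := by
  unfold dd; rw [sum_sub_distrib, sum_dl, sum_dl, sub_self]

lemma sum_mul_dd {n : ℕ} [NeZero n] (f : ZMod n → ℤ) (a b : ZMod n) :
    ∑ u, f u * dd a b u = f a - f b := by
  unfold dd; simp only [mul_sub, sum_sub_distrib]; rw [sum_mul_dl, sum_mul_dl]

/-- the third mixed difference -/
lemma mixed3 {x : ZMod p → ZMod q → ZMod r → ℤ} (hx : Rel3 x) {a a' : ZMod p} {b b' : ZMod q}
    {c c' : ZMod r} (ha : a ≠ 0) (ha' : a' ≠ 0) (hb : b ≠ 0) (hb' : b' ≠ 0) (hc : c ≠ 0)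
    (hc' : c' ≠ 0) :
    Y3 x a b c - Y3 x a b c' - Y3 x a b' c + Y3 x a b' c' - Y3 x a' b c + Y3 x a' b c' +
      Y3 x a' b' c - Y3 x a' b' c' = 0 := by
  set D : ZMod p → ZMod q → ZMod r → ℤ := fun u v w => dd a a' u * dd b b' v * dd c c' w with hD
  have hg : D3 (fun u v w => D u v w - D (-u) (-v) (-w)) := by
    have h1 : ∀ v w, ∑ u, D u v w = 0 := by
      intro v w; simp only [hD]; rw [← sum_mul, ← sum_mul, sum_dd]; ring
    have h2 : ∀ u w, ∑ v, D u v w = 0 := by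
      intro u w; simp only [hD]; rw [← sum_mul, ← mul_sum, sum_dd]; ring
    have h3 : ∀ u v, ∑ w, D u v w = 0 := by
      intro u v; simp only [hD]; rw [← mul_sum, sum_dd]; ring
    refine ⟨?_, ?_, ?_, ?_, ?_⟩
    · intro u v w
      simp only [neg_neg]; ring
    · simp [hD, dd_zero ha ha']
    · intro v w
      rw [sum_sub_distrib, sum_neg (fun u => D u (-v) (-w)), h1, h1]
      simp [hD, dd_zero ha ha']
    · intro u w
      rw [sum_sub_distrib, sum_neg (fun v => D (-u) v (-w)), h2, h2]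
      simp [hD, dd_zero hb hb']
    · intro u v
      rw [sum_sub_distrib, sum_neg (fun w => D (-u) (-v) w), h3, h3]
      simp [hD, dd_zero hc hc']
  have h1 := hx.odd hg
  rw [odd_test (Y3_neg x)] at h1
  have h2 : ∑ u, ∑ v, ∑ w, Y3 x u v w * D u v w =
      ∑ u, (∑ v, (∑ w, Y3 x u v w * dd c c' w) * dd b b' v) * dd a a' u := by
    refine sum_congr rfl fun u _ => ?_
    rw [sum_mul]
    refine sum_congr rfl fun v _ => ?_
    rw [sum_mul, sum_mul]
    refine sum_congr rfl fun w _ => ?_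
    simp only [hD]; ring
  rw [h2] at h1
  simp only [sum_mul_dd] at h1
  linarith

/-- the mixed difference on a face -/
lemma face3 (hpq : p ≠ q) (hpr : p ≠ r) {x : ZMod p → ZMod q → ZMod r → ℤ} (hx : Rel3 x)
    (htop : ∀ u v w, u ≠ 0 → v ≠ 0 → w ≠ 0 → Y3 x u v w = 0) {b b' : ZMod q}
    {c c' : ZMod r} (hb : b ≠ 0) (hb' : b' ≠ 0) (hc : c ≠ 0) (hc' : c' ≠ 0) :
    Y3 x 0 b c - Y3 x 0 b c' - Y3 x 0 b' c + Y3 x 0 b' c' = 0 := by
  classical
  have hpq' := pq_ne (p := q) (q := p) (fun h => hpq h.symm)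
  have hpr' := pq_ne (p := r) (q := p) (fun h => hpr h.symm)
  set E : ZMod q → ZMod r → ℤ := fun v w => dd b b' v * dd c c' w with hE
  set D : ZMod q → ZMod r → ℤ := fun v w => E v w - E (-v) (-w) with hD
  have hDneg : ∀ v w, D (-v) (-w) = - D v w := by
    intro v w; simp only [hD, neg_neg]; ring
  have hD0 : ∀ w, D 0 w = 0 := by
    intro w; simp only [hD, hE, neg_zero, dd_zero hb hb']; ring
  have hD0' : ∀ v, D v 0 = 0 := by
    intro v; simp only [hD, hE, neg_zero, dd_zero hc hc']; ring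
  have hDq : ∀ w, ∑ v, D v w = 0 := by
    intro w
    simp only [hD]
    rw [sum_sub_distrib, sum_neg (fun v => E v (-w))]
    simp only [hE]
    rw [← sum_mul, ← sum_mul, sum_dd]; ring
  have hDr : ∀ v, ∑ w, D v w = 0 := by
    intro v
    simp only [hD]
    rw [sum_sub_distrib, sum_neg (fun w => E (-v) w)]
    simp only [hE]
    rw [← mul_sum, ← mul_sum, sum_dd]; ring
  have hDq' : ∀ w, ∑ v, D ((p : ZMod q) * v) w = 0 := by
    intro w
    rw [← hDq w]
    exact Fintype.sum_bijective _ (mulLeft_bijective₀ _ hpq') _ _ fun v => rfl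
  have hDr' : ∀ v, ∑ w, D v ((p : ZMod r) * w) = 0 := by
    intro v
    rw [← hDr v]
    exact Fintype.sum_bijective _ (mulLeft_bijective₀ _ hpr') _ _ fun v => rfl
  set g : ZMod p → ZMod q → ZMod r → ℤ := fun u v w =>
    if u = 0 then ((p : ℤ) - 1) * D v w else D ((p : ZMod q) * v) ((p : ZMod r) * w) - D v w with hg
  have hcardp : ((univ.erase (0 : ZMod p)).card : ℤ) = (p : ℤ) - 1 := by
    rw [card_erase_of_mem (mem_univ _), card_univ, ZMod.card,
      Nat.cast_sub (Fact.out : p.Prime).one_lt.le]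
    simp
  have hgD : D3 g := by
    refine ⟨?_, ?_, ?_, ?_, ?_⟩
    · intro u v w
      simp only [hg, neg_eq_zero, mul_neg, hDneg]
      split_ifs <;> ring
    · simp [hg, hD0]
    · intro v w
      rw [← add_sum_erase _ _ (mem_univ (0 : ZMod p)),
        sum_congr rfl (fun u hu => by simp only [hg]; rw [if_neg (ne_of_mem_erase hu)]), sum_const,
        nsmul_eq_mul, hcardp]
      simp only [hg, if_true]
      ring
    · intro u w
      have h0 : g ((q : ZMod p) * u) 0 ((q : ZMod r) * w) = 0 := by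
        simp only [hg, mul_zero, hD0, sub_zero, ite_self]
      rw [h0]
      by_cases hu : u = 0
      · simp only [hg, hu, if_true]
        rw [← mul_sum, hDq, mul_zero]
      · simp only [hg, hu, if_false]
        rw [sum_sub_distrib, hDq', hDq, sub_zero]
    · intro u v
      have h0 : g ((r : ZMod p) * u) ((r : ZMod q) * v) 0 = 0 := by
        simp only [hg, mul_zero, hD0', sub_zero, ite_self]
      rw [h0]
      by_cases hu : u = 0
      · simp only [hg, hu, if_true]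
        rw [← mul_sum, hDr, mul_zero]
      · simp only [hg, hu, if_false]
        rw [sum_sub_distrib, hDr', hDr, sub_zero]
  have h1 := hx.odd hgD
  have h2 : ∀ u, u ≠ 0 → ∑ v, ∑ w, Y3 x u v w * g u v w = 0 := by
    intro u hu
    refine sum_eq_zero fun v _ => sum_eq_zero fun w _ => ?_
    simp only [hg, hu, if_false]
    by_cases hv : v = 0
    · rw [hv, mul_zero, hD0, hD0]; ring
    · by_cases hw : w = 0
      · rw [hw, mul_zero, hD0', hD0']; ring
      · rw [htop u v w hu hv hw, zero_mul]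
  rw [← add_sum_erase _ _ (mem_univ (0 : ZMod p)),
    sum_congr rfl (fun u hu => h2 u (ne_of_mem_erase hu)), sum_const_zero, add_zero] at h1
  simp only [hg, if_true] at h1
  have h3 : ∑ v, ∑ w, Y3 x 0 v w * (((p : ℤ) - 1) * D v w) =
      ((p : ℤ) - 1) * ∑ v, ∑ w, Y3 x 0 v w * D v w := by
    rw [mul_sum]
    refine sum_congr rfl fun v _ => ?_
    rw [mul_sum]
    refine sum_congr rfl fun w _ => ?_
    ring
  rw [h3] at h1
  have hp1 : ((p : ℤ) - 1) ≠ 0 := by
    have := (Fact.out : p.Prime).one_lt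
    omega
  have h4 := (mul_eq_zero.mp h1).resolve_left hp1
  have h5 : ∀ F : ZMod q → ZMod r → ℤ, ∑ v, ∑ w, F v w * E v w =
      F b c - F b c' - (F b' c - F b' c') := by
    intro F
    have : ∑ v, ∑ w, F v w * E v w = ∑ v, (∑ w, F v w * dd c c' w) * dd b b' v := by
      refine sum_congr rfl fun v _ => ?_
      rw [sum_mul]
      refine sum_congr rfl fun w _ => ?_
      simp only [hE]; ring
    rw [this]
    simp only [sum_mul_dd]
  have h6 : ∑ v, ∑ w, Y3 x 0 v w * E (-v) (-w) = - ∑ v, ∑ w, Y3 x 0 v w * E v w := by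
    rw [← sum_neg (fun v => ∑ w, Y3 x 0 v w * E (-v) (-w)), ← sum_neg_distrib]
    refine sum_congr rfl fun v _ => ?_
    rw [← sum_neg (fun w => Y3 x 0 (-v) w * E (- -v) (-w)), ← sum_neg_distrib]
    refine sum_congr rfl fun w _ => ?_
    have := Y3_neg x 0 v w
    rw [neg_zero] at this
    rw [this, neg_neg, neg_neg]; ring
  have h7 : ∑ v, ∑ w, Y3 x 0 v w * D v w = 2 * ∑ v, ∑ w, Y3 x 0 v w * E v w := by
    simp only [hD, mul_sub, sum_sub_distrib]
    rw [h6]; ring
  rw [h7, h5] at h4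
  linarith

end

end Pool.Agent.H916K
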