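import Pool.Agent.H916K.Three

/-!
# Relations between odd distributions in three coordinates: axes
-/

set_option linter.unusedSectionVars false

namespace Pool.Agent.H916K

open Finset

variable {p q r : ℕ} [Fact p.Prime] [Fact q.Prime] [Fact r.Prime]

lemma card_erase_int (p : ℕ) [Fact p.Prime] : ((univ.erase (0 : ZMod p)).card : ℤ) = (p : ℤ) - 1 := by
  rw [card_erase_of_mem (mem_univ _), card_univ, ZMod.card,
    Nat.cast_sub (Fact.out : p.Prime).one_lt.le]
  simp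

/-- the formula on an axis -/
lemma axis3 (hpr : p ≠ r) (hqr : q ≠ r) {x : ZMod p → ZMod q → ZMod r → ℤ}
    (hx : Rel3 x) (htop : ∀ u v w, u ≠ 0 → v ≠ 0 → w ≠ 0 → Y3 x u v w = 0) {b13 b23 : ZMod r → ℤ}
    (h13 : ∀ w, w ≠ 0 → 2 * ∑ u ∈ univ.erase (0 : ZMod p), Y3 x u 0 w = ((p : ℤ) - 1) * b13 w)
    (h23 : ∀ w, w ≠ 0 → 2 * ∑ v ∈ univ.erase (0 : ZMod q), Y3 x 0 v w = ((q : ℤ) - 1) * b23 w)
    (hpq : p ≠ q) {w0 : ZMod r} (hw : w0 ≠ 0) :
    2 * Y3 x 0 0 w0 = (b13 w0 - b13 ((p : ZMod r)⁻¹ * w0)) + (b23 w0 - b23 ((q : ZMod r)⁻¹ * w0)) := by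
  classical
  have hpr' := pq_ne (p := r) (q := p) (fun h => hpr h.symm)
  have hqr' := pq_ne (p := r) (q := q) (fun h => hqr h.symm)
  have hpq1 := pq_ne (p := q) (q := p) (fun h => hpq h.symm)
  have hqp1 := pq_ne (p := p) (q := q) hpq
  set lam : ZMod r → ℤ := fun u => dl w0 u - dl (-w0) u with hlam
  have hwm : -w0 ≠ 0 := neg_ne_zero.mpr hw
  have hlneg : ∀ u, lam (-u) = - lam u := by
    intro u; simp only [hlam, dl_neg, neg_neg]; ring
  have hl0 : lam 0 = 0 := by simp [hlam, dl_zero hw, dl_zero hwm]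
  have hlsum : ∑ u, lam u = 0 := by simp only [hlam, sum_sub_distrib, sum_dl, sub_self]
  have hlmul : ∀ k : ZMod r, k ≠ 0 → ∑ u, lam (k * u) = 0 := by
    intro k hk
    rw [← hlsum]
    exact Fintype.sum_bijective _ (mulLeft_bijective₀ _ hk) _ _ fun u => rfl
  set L0 : ZMod r → ℤ := fun w => ((p : ℤ) - 1) * (((q : ℤ) - 1) * lam w) with hL0
  set L1 : ZMod r → ℤ := fun w => ((p : ℤ) - 1) * (lam ((q : ZMod r) * w) - lam w) with hL1
  set L2 : ZMod r → ℤ := fun w => ((q : ℤ) - 1) * (lam ((p : ZMod r) * w) - lam w) with hL2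
  set L3 : ZMod r → ℤ := fun w => lam ((p : ZMod r) * ((q : ZMod r) * w)) - lam ((p : ZMod r) * w) -
    lam ((q : ZMod r) * w) + lam w with hL3
  set g : ZMod p → ZMod q → ZMod r → ℤ := fun u v w =>
    if u = 0 then (if v = 0 then L0 w else L1 w) else (if v = 0 then L2 w else L3 w) with hg
  have hn : ∀ w, L0 (-w) = - L0 w ∧ L1 (-w) = - L1 w ∧ L2 (-w) = - L2 w ∧ L3 (-w) = - L3 w := by
    intro w
    refine ⟨?_, ?_, ?_, ?_⟩
    · simp only [hL0]; rw [hlneg]; ring
    · simp only [hL1]; rw [mul_neg, hlneg, hlneg]; ring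
    · simp only [hL2]; rw [mul_neg, hlneg, hlneg]; ring
    · simp only [hL3]; rw [mul_neg, mul_neg, mul_neg, hlneg, hlneg, hlneg, hlneg]; ring
  have hz : L0 0 = 0 ∧ L1 0 = 0 ∧ L2 0 = 0 ∧ L3 0 = 0 := by
    refine ⟨?_, ?_, ?_, ?_⟩
    · simp only [hL0]; rw [hl0]; ring
    · simp only [hL1]; rw [mul_zero, hl0]; ring
    · simp only [hL2]; rw [mul_zero, hl0]; ring
    · simp only [hL3]; rw [mul_zero, mul_zero, hl0]; ring
  have hs : ∑ w, L0 w = 0 ∧ ∑ w, L1 w = 0 ∧ ∑ w, L2 w = 0 ∧ ∑ w, L3 w = 0 := by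
    have e1 := hlmul _ hpr'
    have e2 := hlmul _ hqr'
    have e3 : ∑ w, lam ((p : ZMod r) * ((q : ZMod r) * w)) = 0 := by
      rw [← hlmul _ (mul_ne_zero hpr' hqr')]
      refine sum_congr rfl fun w _ => ?_
      rw [mul_assoc]
    refine ⟨?_, ?_, ?_, ?_⟩
    · simp only [hL0]; rw [← mul_sum, ← mul_sum, hlsum]; ring
    · simp only [hL1]; rw [← mul_sum, sum_sub_distrib, e2, hlsum]; ring
    · simp only [hL2]; rw [← mul_sum, sum_sub_distrib, e1, hlsum]; ring
    · simp only [hL3]; rw [sum_add_distrib, sum_sub_distrib, sum_sub_distrib, e1, e2, e3, hlsum]; ring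
  have hgD : D3 g := by
    refine ⟨?_, ?_, ?_, ?_, ?_⟩
    · intro u v w
      obtain ⟨n0, n1, n2, n3⟩ := hn w
      simp only [hg, neg_eq_zero, n0, n1, n2, n3]
      split_ifs <;> rfl
    · simp only [hg, if_true]; exact hz.1
    · intro v w
      rw [← add_sum_erase _ _ (mem_univ (0 : ZMod p)),
        sum_congr rfl (fun u hu => by simp only [hg]; rw [if_neg (ne_of_mem_erase hu)]), sum_const,
        nsmul_eq_mul, card_erase_int]
      by_cases hv : v = 0
      · simp only [hg, hv, mul_zero, if_true, hL0, hL2]; ring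
      · have hv' : (p : ZMod q) * v ≠ 0 := mul_ne_zero hpq1 hv
        simp only [hg, hv, hv', if_true, if_false, hL1, hL3]
        have e4 : (q : ZMod r) * ((p : ZMod r) * w) = (p : ZMod r) * ((q : ZMod r) * w) := by ring
        rw [e4]; ring
    · intro u w
      rw [← add_sum_erase _ _ (mem_univ (0 : ZMod q)),
        sum_congr rfl (fun v hv => by simp only [hg]; rw [if_neg (ne_of_mem_erase hv),
          if_neg (ne_of_mem_erase hv)]), sum_const,
        nsmul_eq_mul, card_erase_int]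
      by_cases hu : u = 0
      · simp only [hg, hu, mul_zero, if_true, hL0, hL1]; ring
      · have hu' : (q : ZMod p) * u ≠ 0 := mul_ne_zero hqp1 hu
        simp only [hg, hu, hu', if_true, if_false, hL2, hL3]
        ring
    · intro u v
      have h1 : g ((r : ZMod p) * u) ((r : ZMod q) * v) 0 = 0 := by
        simp only [hg, hz.1, hz.2.1, hz.2.2.1, hz.2.2.2, ite_self]
      rw [h1]
      by_cases hu : u = 0
      · by_cases hv : v = 0
        · simp only [hg, hu, hv, if_true]; exact hs.1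
        · simp only [hg, hu, hv, if_true, if_false]; exact hs.2.1
      · by_cases hv : v = 0
        · simp only [hg, hu, hv, if_true, if_false]; exact hs.2.2.1
        · simp only [hg, hu, hv, if_false]; exact hs.2.2.2
  have h1 := hx.odd hgD
  -- pairings
  have k1 : ∀ F : ZMod r → ℤ, (∀ w, F (-w) = - F w) → ∑ w, F w * lam w = 2 * F w0 := by
    intro F hF
    have := sum_lam (f := F) w0
    simp only [hlam]
    rw [this, hF]; ring
  have k2 : ∀ (F : ZMod r → ℤ) (k : ZMod r), k ≠ 0 → (∀ w, F (-w) = - F w) →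
      ∑ w, F w * lam (k * w) = 2 * F (k⁻¹ * w0) := by
    intro F k hk hF
    have h7 : ∑ w, F w * lam (k * w) = ∑ w, F (k⁻¹ * w) * lam w := by
      refine (Fintype.sum_bijective _ (mulLeft_bijective₀ _ hk) _ _ fun w => ?_)
      rw [inv_mul_cancel_left₀ hk]
    rw [h7, k1 (fun w => F (k⁻¹ * w))]
    intro w
    rw [mul_neg, hF]
  have s00 : ∀ w, Y3 x 0 0 (-w) = - Y3 x 0 0 w := by
    intro w
    have := Y3_neg x 0 0 w
    rwa [neg_zero, neg_zero] at this
  set F1 : ZMod r → ℤ := fun w => ∑ v ∈ univ.erase (0 : ZMod q), Y3 x 0 v w with hF1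
  set F2 : ZMod r → ℤ := fun w => ∑ u ∈ univ.erase (0 : ZMod p), Y3 x u 0 w with hF2
  have hrefl : ∀ {n : ℕ} [Fact n.Prime] (G : ZMod n → ℤ),
      ∑ v ∈ univ.erase (0 : ZMod n), G (-v) = ∑ v ∈ univ.erase (0 : ZMod n), G v := by
    intro n _ G
    refine sum_bij' (fun v _ => -v) (fun v _ => -v) ?_ ?_ ?_ ?_ ?_
    · intro v hv; exact mem_erase.mpr ⟨neg_ne_zero.mpr (ne_of_mem_erase hv), mem_univ _⟩
    · intro v hv; exact mem_erase.mpr ⟨neg_ne_zero.mpr (ne_of_mem_erase hv), mem_univ _⟩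
    · intro v _; exact neg_neg v
    · intro v _; exact neg_neg v
    · intro v _; rfl
  have hF1n : ∀ w, F1 (-w) = - F1 w := by
    intro w
    simp only [hF1]
    rw [← hrefl (fun v => Y3 x 0 v (-w)), ← sum_neg_distrib]
    refine sum_congr rfl fun v _ => ?_
    have := Y3_neg x 0 v w
    rwa [neg_zero] at this
  have hF2n : ∀ w, F2 (-w) = - F2 w := by
    intro w
    simp only [hF2]
    rw [← hrefl (fun u => Y3 x u 0 (-w)), ← sum_neg_distrib]
    refine sum_congr rfl fun u _ => ?_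
    have := Y3_neg x u 0 w
    rwa [neg_zero] at this
  -- decomposition
  have d0 : ∑ v, ∑ w, Y3 x 0 v w * g 0 v w = ((p : ℤ) - 1) * ((q : ℤ) - 1) * (2 * Y3 x 0 0 w0) +
      ((p : ℤ) - 1) * (2 * F1 ((q : ZMod r)⁻¹ * w0) - 2 * F1 w0) := by
    rw [← add_sum_erase _ _ (mem_univ (0 : ZMod q))]
    congr 1
    · rw [← k1 _ s00, mul_sum]
      refine sum_congr rfl fun w _ => ?_
      simp only [hg, if_true, hL0]; ring
    · rw [sum_comm, ← k2 F1 _ hqr' hF1n, ← k1 F1 hF1n, ← sum_sub_distrib, mul_sum]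
      refine sum_congr rfl fun w _ => ?_
      simp only [hF1]
      rw [sum_mul, sum_mul, ← sum_sub_distrib, mul_sum]
      refine sum_congr rfl fun v hv => ?_
      simp only [hg, if_true, ne_of_mem_erase hv, if_false, hL1]; ring
  have d1 : ∑ u ∈ univ.erase (0 : ZMod p), ∑ v, ∑ w, Y3 x u v w * g u v w =
      ((q : ℤ) - 1) * (2 * F2 ((p : ZMod r)⁻¹ * w0) - 2 * F2 w0) := by
    have e1 : ∀ u ∈ univ.erase (0 : ZMod p), ∑ v, ∑ w, Y3 x u v w * g u v w =
        ∑ w, Y3 x u 0 w * L2 w := by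
      intro u hu
      rw [← add_sum_erase _ _ (mem_univ (0 : ZMod q))]
      have e2 : ∑ v ∈ univ.erase (0 : ZMod q), ∑ w, Y3 x u v w * g u v w = 0 := by
        refine sum_eq_zero fun v hv => sum_eq_zero fun w _ => ?_
        by_cases hw : w = 0
        · rw [hw]
          simp only [hg, ne_of_mem_erase hu, ne_of_mem_erase hv, if_false, hz.2.2.2]
          ring
        · rw [htop u v w (ne_of_mem_erase hu) (ne_of_mem_erase hv) hw, zero_mul]
      rw [e2, add_zero]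
      refine sum_congr rfl fun w _ => ?_
      simp only [hg, if_true, ne_of_mem_erase hu, if_false]
    rw [sum_congr rfl e1, sum_comm, ← k2 F2 _ hpr' hF2n, ← k1 F2 hF2n, ← sum_sub_distrib, mul_sum]
    refine sum_congr rfl fun w _ => ?_
    simp only [hF2]
    rw [sum_mul, sum_mul, ← sum_sub_distrib, mul_sum]
    refine sum_congr rfl fun v hv => ?_
    simp only [hL2]; ring
  rw [← add_sum_erase _ _ (mem_univ (0 : ZMod p)), d0, d1] at h1
  have hpw : (p : ZMod r)⁻¹ * w0 ≠ 0 := mul_ne_zero (inv_ne_zero hpr') hw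
  have hqw : (q : ZMod r)⁻¹ * w0 ≠ 0 := mul_ne_zero (inv_ne_zero hqr') hw
  have m1 : 2 * F1 w0 = ((q : ℤ) - 1) * b23 w0 := h23 _ hw
  have m2 : 2 * F1 ((q : ZMod r)⁻¹ * w0) = ((q : ℤ) - 1) * b23 ((q : ZMod r)⁻¹ * w0) := h23 _ hqw
  have m3 : 2 * F2 w0 = ((p : ℤ) - 1) * b13 w0 := h13 _ hw
  have m4 : 2 * F2 ((p : ZMod r)⁻¹ * w0) = ((p : ℤ) - 1) * b13 ((p : ZMod r)⁻¹ * w0) := h13 _ hpw
  rw [m1, m2, m3, m4] at h1
  have hp1 : ((p : ℤ) - 1) ≠ 0 := by
    have := (Fact.out : p.Prime).one_lt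
    omega
  have hq1 : ((q : ℤ) - 1) ≠ 0 := by
    have := (Fact.out : q.Prime).one_lt
    omega
  apply mul_left_cancel₀ (mul_ne_zero hp1 hq1)
  linear_combination h1

end Pool.Agent.H916K
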