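import Pool.Agent.H916K.ThreeB

/-!
# Relations between odd distributions in three coordinates: reduction to the faces
-/

set_option linter.unusedSectionVars false

namespace Pool.Agent.H916K

open Finset

section pair
variable {p q : ℕ} [Fact p.Prime] [Fact q.Prime]

/-- the sum of a distribution in two coordinates against a standard relation -/
lemma pair_sum (hp2 : p ≠ 2) (hq2 : q ≠ 2) (hpq : p ≠ q) {Q : Type*} [AddCommGroup Q]
    {c : ZMod p → ZMod q → Q} (hc : D2 c) {α : ZMod p → ℤ} {β : ZMod q → ℤ}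
    (hαn : ∀ u, α (-u) = - α u) (hβn : ∀ v, β (-v) = - β v) :
    ∑ u ∈ HS p, ∑ v ∈ univ.erase (0 : ZMod q), (α u + β v) • c u v +
      ∑ u ∈ HS p, (α u - α ((q : ZMod p)⁻¹ * u)) • c u 0 +
      ∑ v ∈ HS q, (β v - β ((p : ZMod q)⁻¹ * v)) • c 0 v = 0 := by
  classical
  have hqp := pq_ne (p := p) (q := q) hpq
  have hpq' := pq_ne (p := q) (q := p) (fun h => hpq h.symm)
  have hcn : ∀ u v, c (-u) v = - c u (-v) := by
    intro u v
    have := hc.neg u (-v)
    rwa [neg_neg] at this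
  have hH := half_HS (p := p) hp2
  have hK := half_HS (p := q) hq2
  have hrow : ∀ u, ∑ v ∈ univ.erase (0 : ZMod q), c u v = c ((q : ZMod p) * u) 0 - c u 0 := by
    intro u
    rw [← hc.dq u, ← add_sum_erase _ _ (mem_univ (0 : ZMod q))]; abel
  have hcol : ∀ v, ∑ u ∈ univ.erase (0 : ZMod p), c u v = c 0 ((p : ZMod q) * v) - c 0 v := by
    intro v
    rw [← hc.dp v, ← add_sum_erase _ _ (mem_univ (0 : ZMod p))]; abel
  have hz1 : ∑ u ∈ HS p, (α u • c ((q : ZMod p) * u) 0 - α ((q : ZMod p)⁻¹ * u) • c u 0) = 0 := by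
    rw [sum_sub_distrib, sub_eq_zero]
    have h1 := hH.sum_mul hqp (fun u => α ((q : ZMod p)⁻¹ * u) • c u 0) (by
      intro u
      rw [mul_neg, hαn, hcn, neg_zero, neg_smul, smul_neg, neg_neg])
    rw [← h1]
    refine sum_congr rfl fun u _ => ?_
    rw [inv_mul_cancel_left₀ hqp]
  have hz2 : ∑ v ∈ HS q, (β v • c 0 ((p : ZMod q) * v) - β ((p : ZMod q)⁻¹ * v) • c 0 v) = 0 := by
    rw [sum_sub_distrib, sub_eq_zero]
    have h1 := hK.sum_mul hpq' (fun v => β ((p : ZMod q)⁻¹ * v) • c 0 v) (by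
      intro v
      have h2 : c 0 (-v) = - c 0 v := by
        have := hc.neg 0 v
        rwa [neg_zero] at this
      rw [mul_neg, hβn, h2, neg_smul, smul_neg, neg_neg])
    rw [← h1]
    refine sum_congr rfl fun v _ => ?_
    rw [inv_mul_cancel_left₀ hpq']
  have hcross : ∑ u ∈ HS p, ∑ v ∈ univ.erase (0 : ZMod q), β v • c u v =
      ∑ v ∈ HS q, β v • (c 0 ((p : ZMod q) * v) - c 0 v) := by
    rw [sum_comm, hK.sum_all (fun v => ∑ u ∈ HS p, β v • c u v)]
    refine sum_congr rfl fun v _ => ?_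
    rw [← hcol, hH.sum_all (fun u => c u v), ← smul_sum, ← smul_sum, hβn, sum_add_distrib, smul_add]
    congr 1
    rw [neg_smul, ← smul_neg, ← sum_neg_distrib]
    congr 1
    refine sum_congr rfl fun u _ => ?_
    rw [hcn]
  have h1 : ∑ u ∈ HS p, ∑ v ∈ univ.erase (0 : ZMod q), (α u + β v) • c u v =
      ∑ u ∈ HS p, α u • (c ((q : ZMod p) * u) 0 - c u 0) +
        ∑ v ∈ HS q, β v • (c 0 ((p : ZMod q) * v) - c 0 v) := by
    rw [← hcross, ← sum_add_distrib]
    refine sum_congr rfl fun u _ => ?_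
    rw [← hrow, smul_sum, ← sum_add_distrib]
    refine sum_congr rfl fun v _ => ?_
    rw [add_smul]
  rw [h1]
  have h2 : ∑ u ∈ HS p, α u • (c ((q : ZMod p) * u) 0 - c u 0) +
      ∑ u ∈ HS p, (α u - α ((q : ZMod p)⁻¹ * u)) • c u 0 = 0 := by
    rw [← hz1, ← sum_add_distrib]
    refine sum_congr rfl fun u _ => ?_
    rw [smul_sub, sub_smul]; abel
  have h3 : ∑ v ∈ HS q, β v • (c 0 ((p : ZMod q) * v) - c 0 v) +
      ∑ v ∈ HS q, (β v - β ((p : ZMod q)⁻¹ * v)) • c 0 v = 0 := by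
    rw [← hz2, ← sum_add_distrib]
    refine sum_congr rfl fun v _ => ?_
    rw [smul_sub, sub_smul]; abel
  calc _ = (∑ u ∈ HS p, α u • (c ((q : ZMod p) * u) 0 - c u 0) +
      ∑ u ∈ HS p, (α u - α ((q : ZMod p)⁻¹ * u)) • c u 0) +
      (∑ v ∈ HS q, β v • (c 0 ((p : ZMod q) * v) - c 0 v) +
      ∑ v ∈ HS q, (β v - β ((p : ZMod q)⁻¹ * v)) • c 0 v) := by abel
    _ = 0 := by rw [h2, h3, add_zero]

/-- **Gauss's lemma** for squares. -/
theorem gauss_parity_sq (hp2 : p ≠ 2) {q : ℕ} (hq : ((q : ℕ) : ZMod p) ≠ 0)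
    (hleg : legendreSym p q = 1) {A : ZMod p → ℤ} (hA : ∀ u, A (-u) = - A u)
    (hodd : ∀ u, u ≠ 0 → ¬ 2 ∣ A u) {y : ZMod p → ℤ}
    (hy : ∀ u, u ≠ 0 → 2 * y u = A u - A ((q : ZMod p)⁻¹ * u)) :
    2 ∣ ∑ u ∈ HS p, y u := by
  classical
  have hpp : p.Prime := Fact.out
  set k : ZMod p := (q : ZMod p)⁻¹ with hk
  have hk0 : k ≠ 0 := inv_ne_zero hq
  set H : Finset (ZMod p) := univ.filter (fun u => u ≠ 0 ∧ A u % 4 = 1) with hH
  have hHalf : Half H := by
    refine ⟨?_, ?_⟩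
    · intro u hu
      simp only [hH, mem_filter, mem_univ, true_and] at hu; exact hu.1
    · intro u hu
      have h1 := hodd u hu
      simp only [hH, mem_filter, mem_univ, true_and, hA, ne_eq, neg_eq_zero, hu,
        not_false_eq_true]
      omega
  have hyneg : ∀ u, u ≠ 0 → y (-u) = - y u := by
    intro u hu
    have h1 := hy (-u) (neg_ne_zero.mpr hu)
    have h2 := hy u hu
    rw [mul_neg, hA, hA] at h1
    omega
  -- product formula
  set ε : ZMod p → ZMod p := fun u => if u ∈ H then 1 else -1 with hε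
  have hεneg : ∀ u, u ≠ 0 → ε (-u) = - ε u := by
    intro u hu
    simp only [hε]
    by_cases h : u ∈ H
    · have := (hHalf.one u hu).mp h
      simp [h, this]
    · have : -u ∈ H := by
        by_contra h2; exact h ((hHalf.one u hu).mpr h2)
      simp [h, this]
  have hprod : ∏ u ∈ H, (ε (k * u) * (k * u)) = ∏ u ∈ H, (ε u * u) := by
    have h1 := Half.sum_mul (Q := Additive (ZMod p)) hHalf hk0
      (fun u => Additive.ofMul (ε u * u)) (by
        intro u
        by_cases hu : u = 0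
        · rw [hu, neg_zero]
        · rw [hεneg u hu]; congr 1; ring)
    have h2 := congrArg Additive.toMul h1
    rw [toMul_sum, toMul_sum] at h2
    exact h2
  have hcard : 2 * H.card = p - 1 := by
    have h1 := Half.sum_all (Q := ℕ) hHalf (fun _ => 1)
    simp only [sum_const, smul_eq_mul, mul_one, card_erase_of_mem (mem_univ _), card_univ,
      ZMod.card] at h1
    omega
  have hne : ∏ u ∈ H, u ≠ 0 := prod_ne_zero_iff.mpr fun u hu => hHalf.ne u hu
  have h1 : ∏ u ∈ H, (ε u * u) = ∏ u ∈ H, u := by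
    refine prod_congr rfl fun u hu => ?_
    simp [hε, hu]
  rw [h1, prod_mul_distrib, prod_mul_distrib, prod_const] at hprod
  have h2 : (∏ u ∈ H, ε (k * u)) * k ^ H.card = 1 := by
    apply mul_right_cancel₀ hne
    rw [one_mul, mul_assoc]; exact hprod
  have hleg' : (q : ZMod p) ^ (p / 2) = 1 := by
    have := legendreSym.eq_pow p q
    rw [hleg] at this
    push_cast at this
    exact this.symm
  have hodd2 : p % 2 = 1 := hpp.eq_two_or_odd.resolve_left hp2
  have hc2 : H.card = p / 2 := by omega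
  have hkpow : k ^ H.card = 1 := by
    rw [hk, hc2, inv_pow, hleg', inv_one]
  rw [hkpow] at h2
  -- the product of signs
  have h3 : ∏ u ∈ H, ε (k * u) = (-1 : ZMod p) ^ (H.filter (fun u => k * u ∉ H)).card := by
    simp only [hε]
    rw [Finset.prod_ite, Finset.prod_const_one, one_mul, Finset.prod_const]
  rw [h3] at h2
  have hevcard : 2 ∣ (H.filter (fun u => k * u ∉ H)).card := by
    by_contra h
    have h' : Odd (H.filter (fun u => k * u ∉ H)).card := by
      rw [← Nat.not_even_iff_odd]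
      exact fun h5 => h (even_iff_two_dvd.mp h5)
    rw [h'.neg_one_pow] at h2
    have h4 : (2 : ZMod p) = 0 := by linear_combination -h2
    have h5 : ((2 : ℕ) : ZMod p) = 0 := by exact_mod_cast h4
    rw [ZMod.natCast_eq_zero_iff] at h5
    have := (Nat.prime_dvd_prime_iff_eq hpp Nat.prime_two).mp h5
    exact hp2 this
  -- the sum of y over H
  have h4 : ∑ u ∈ HS p, y u ≡ ∑ u ∈ H, y u [ZMOD 2] := by
    have h5 := (half_HS hp2).sum_eq hHalf (Q := ZMod 2) (fun u => ((y u : ℤ) : ZMod 2)) (by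
      intro u
      by_cases hu : u = 0
      · rw [hu, neg_zero]
      · rw [hyneg u hu]; push_cast; exact ZMod.neg_eq_self_mod_two _)
    apply (ZMod.intCast_eq_intCast_iff _ _ 2).mp
    push_cast
    exact h5
  have h6 : ∑ u ∈ H, y u ≡ ((H.filter (fun u => k * u ∉ H)).card : ℤ) [ZMOD 2] := by
    rw [card_filter]
    push_cast
    apply Int.ModEq.sum
    intro u hu
    have hu0 := hHalf.ne u hu
    have hku0 : k * u ≠ 0 := mul_ne_zero hk0 hu0
    have e1 := hy u hu0
    have e2 : A u % 4 = 1 := by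
      have := hu
      simp only [hH, mem_filter, mem_univ, true_and] at this
      exact this.2
    have e3 := hodd _ hku0
    by_cases h7 : k * u ∈ H
    · have e4 : A (k * u) % 4 = 1 := by
        have := h7
        simp only [hH, mem_filter, mem_univ, true_and] at this
        exact this.2
      rw [if_neg (by simpa using h7)]
      unfold Int.ModEq
      omega
    · have e4 : A (k * u) % 4 ≠ 1 := by
        intro h8
        apply h7
        simp only [hH, mem_filter, mem_univ, true_and]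
        exact ⟨hku0, h8⟩
      rw [if_pos h7]
      unfold Int.ModEq
      omega
  have h8 := (h4.trans h6)
  have h9 : (2 : ℤ) ∣ ((H.filter (fun u => k * u ∉ H)).card : ℤ) := by exact_mod_cast hevcard
  rw [Int.ModEq] at h8
  omega

lemma gauss_even (hp2 : p ≠ 2) {q : ℕ} (hq : ((q : ℕ) : ZMod p) ≠ 0) {A : ZMod p → ℤ}
    (hA : ∀ u, A (-u) = - A u) (hev : ∀ u, u ≠ 0 → 2 ∣ A u) {y : ZMod p → ℤ}
    (hy : ∀ u, u ≠ 0 → 2 * y u = A u - A ((q : ZMod p)⁻¹ * u)) :
    2 ∣ ∑ u ∈ HS p, y u := by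
  classical
  have hA0 : A 0 = 0 := by have := hA 0; rw [neg_zero] at this; linarith
  obtain ⟨α, hα⟩ : ∃ α : ZMod p → ℤ, ∀ v, A v = 2 * α v := by
    refine ⟨fun v => A v / 2, fun v => ?_⟩
    by_cases hv : v = 0
    · simp [hv, hA0]
    · exact (Int.mul_ediv_cancel' (hev v hv)).symm
  have hαn : ∀ v, α (-v) = - α v := by
    intro v; have := hA v; rw [hα, hα] at this; linarith
  have hq' : (q : ZMod p)⁻¹ ≠ 0 := inv_ne_zero hq
  have h1 := (half_HS hp2).sum_mul hq' (fun u => ((α u : ℤ) : ZMod 2)) (by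
    intro u
    rw [hαn]; push_cast; exact ZMod.neg_eq_self_mod_two _)
  apply (ZMod.intCast_zmod_eq_zero_iff_dvd _ 2).mp
  have h2 : ∑ u ∈ HS p, y u = ∑ u ∈ HS p, (α u - α ((q : ZMod p)⁻¹ * u)) := by
    refine sum_congr rfl fun u hu => ?_
    have := hy u ((half_HS hp2).ne u hu)
    rw [hα, hα] at this
    linarith
  rw [h2]
  push_cast
  rw [sum_sub_distrib, h1, sub_self]

end pair

section
variable {p q r : ℕ} [Fact p.Prime] [Fact q.Prime] [Fact r.Prime]

/-- an odd function with vanishing third mixed differences -/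
lemma decomp3 (hp2 : p ≠ 2) (hq2 : q ≠ 2) (hr2 : r ≠ 2) {y : ZMod p → ZMod q → ZMod r → ℤ}
    (hn : ∀ u v w, y (-u) (-v) (-w) = - y u v w)
    (hm : ∀ a a' : ZMod p, ∀ b b' : ZMod q, ∀ c c' : ZMod r, a ≠ 0 → a' ≠ 0 → b ≠ 0 → b' ≠ 0 →
      c ≠ 0 → c' ≠ 0 → y a b c - y a b c' - y a b' c + y a b' c' - y a' b c + y a' b c' +
      y a' b' c - y a' b' c' = 0) :
    ∃ (A : ZMod q → ZMod r → ℤ) (B : ZMod p → ZMod r → ℤ) (C : ZMod p → ZMod q → ℤ),
      (∀ v w, v ≠ 0 → w ≠ 0 → A (-v) (-w) = - A v w) ∧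
      (∀ u w, u ≠ 0 → w ≠ 0 → B (-u) (-w) = - B u w) ∧
      (∀ u v, u ≠ 0 → v ≠ 0 → C (-u) (-v) = - C u v) ∧
      ∀ u v w, u ≠ 0 → v ≠ 0 → w ≠ 0 → y u v w = A v w + B u w + C u v := by
  classical
  have hH := half_HS (p := p) hp2
  have hK := half_HS (p := q) hq2
  have hL := half_HS (p := r) hr2
  have o1 : (1 : ZMod p) ≠ 0 := one_ne_zero
  have o1' : (-1 : ZMod p) ≠ 0 := neg_ne_zero.mpr one_ne_zero
  have o2 : (1 : ZMod q) ≠ 0 := one_ne_zero
  have o2' : (-1 : ZMod q) ≠ 0 := neg_ne_zero.mpr one_ne_zero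
  have o3 : (1 : ZMod r) ≠ 0 := one_ne_zero
  have o3' : (-1 : ZMod r) ≠ 0 := neg_ne_zero.mpr one_ne_zero
  set b : ZMod q → ℤ := fun v => y 1 v 1 + y 1 (-v) (-1) with hb
  set c : ZMod r → ℤ := fun w => b 1 - (y 1 1 w + y 1 (-1) (-w)) with hc
  set a : ZMod p → ℤ := fun u => y (-u) (-1) 1 - y 1 (-1) 1 - y (-u) 1 1 + y 1 1 1 + b 1 with ha
  set f1 : ZMod q → ZMod r → ℤ := fun v w => y 1 v w with hf1
  set f2 : ZMod p → ZMod r → ℤ := fun u w => y u 1 w - y 1 1 w with hf2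
  set f3 : ZMod p → ZMod q → ℤ := fun u v => y u v 1 - y 1 v 1 - y u 1 1 + y 1 1 1 with hf3
  have N1 : ∀ v w, v ≠ 0 → w ≠ 0 → f1 v w + f1 (-v) (-w) = b v - c w := by
    intro v w hv hw
    have e1 := hm 1 (-1) v 1 w 1 o1 o1' hv o2 hw o3
    have e2 := hn 1 (-v) (-w)
    have e3 := hn 1 (-v) (-1)
    have e4 := hn 1 (-1) (-w)
    have e5 := hn 1 (-1) (-1)
    simp only [neg_neg] at e2 e3 e4 e5
    simp only [hf1, hb, hc]
    linarith
  have N3 : ∀ u v, u ≠ 0 → v ≠ 0 → f3 u v + f3 (-u) (-v) = a u - b v := by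
    intro u v hu hv
    have e1 := hm (-u) 1 (-v) (-1) 1 (-1) (neg_ne_zero.mpr hu) o1 (neg_ne_zero.mpr hv) o2' o3 o3'
    have e2 := hn u v 1
    have e3 := hn u 1 1
    simp only [hf3, ha, hb]
    linarith
  have N2 : ∀ u w, u ≠ 0 → w ≠ 0 → f2 u w + f2 (-u) (-w) = c w - a u := by
    intro u w hu hw
    have e1 := hm (-u) 1 1 (-1) (-w) 1 (neg_ne_zero.mpr hu) o1 o2 o2' (neg_ne_zero.mpr hw) o3
    have e2 := hn u 1 w
    simp only [hf2, ha, hb, hc]
    linarith
  have eb : ∀ v, v ≠ 0 → b (-v) = b v := by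
    intro v hv
    have e1 := hm 1 (-1) v (-v) 1 (-1) o1 o1' hv (neg_ne_zero.mpr hv) o3 o3'
    have e2 := hn 1 v 1
    have e3 := hn 1 v (-1)
    have e4 := hn 1 (-v) 1
    have e5 := hn 1 (-v) (-1)
    simp only [neg_neg] at e2 e3 e4 e5
    simp only [hb, neg_neg]
    linarith
  have ec : ∀ w, w ≠ 0 → c (-w) = c w := by
    intro w hw
    have e1 := hm 1 (-1) 1 (-1) w (-w) o1 o1' o2 o2' hw (neg_ne_zero.mpr hw)
    have e2 := hn 1 1 w
    have e3 := hn 1 1 (-w)
    have e4 := hn 1 (-1) w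
    have e5 := hn 1 (-1) (-w)
    simp only [neg_neg] at e2 e3 e4 e5
    simp only [hc, neg_neg]
    linarith
  have ea : ∀ u, u ≠ 0 → a (-u) = a u := by
    intro u hu
    have e1 := hm u (-u) 1 (-1) 1 (-1) hu (neg_ne_zero.mpr hu) o2 o2' o3 o3'
    have e2 := hn u 1 1
    have e3 := hn u 1 (-1)
    have e4 := hn u (-1) 1
    have e5 := hn u (-1) (-1)
    simp only [neg_neg] at e2 e3 e4 e5
    simp only [ha, neg_neg]
    linarith
  -- half of an even function
  have half : ∀ {n : ℕ} [Fact n.Prime] (_ : Half (HS n)) (h : ZMod n → ℤ) (v : ZMod n), v ≠ 0 →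
      h (-v) = h v → (if v ∈ HS n then h v else 0) + (if -v ∈ HS n then h (-v) else 0) = h v := by
    intro n _ hHn h v hv he
    by_cases h1 : v ∈ HS n
    · rw [if_pos h1, if_neg ((hHn.one v hv).mp h1), add_zero]
    · have h2 : -v ∈ HS n := by
        by_contra h2; exact h1 ((hHn.one v hv).mpr h2)
      rw [if_neg h1, if_pos h2, zero_add, he]
  refine ⟨fun v w => f1 v w - (if v ∈ HS q then b v else 0) + (if w ∈ HS r then c w else 0),
    fun u w => f2 u w - (if w ∈ HS r then c w else 0) + (if u ∈ HS p then a u else 0),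
    fun u v => f3 u v - (if u ∈ HS p then a u else 0) + (if v ∈ HS q then b v else 0),
    ?_, ?_, ?_, ?_⟩
  · intro v w hv hw
    have e1 := N1 v w hv hw
    have e2 := half hK b v hv (eb v hv)
    have e3 := half hL c w hw (ec w hw)
    simp only
    linarith
  · intro u w hu hw
    have e1 := N2 u w hu hw
    have e2 := half hH a u hu (ea u hu)
    have e3 := half hL c w hw (ec w hw)
    simp only
    linarith
  · intro u v hu hv
    have e1 := N3 u v hu hv
    have e2 := half hH a u hu (ea u hu)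
    have e3 := half hK b v hv (eb v hv)
    simp only
    linarith
  · intro u v w hu hv hw
    have e1 := hm u 1 v 1 w 1 hu o1 hv o2 hw o3
    simp only [hf1, hf2, hf3]
    linarith

/-- the standard relations with first coordinate free -/
def lift1 (H : ZMod q → ZMod r → ℤ) (u : ZMod p) (v : ZMod q) (w : ZMod r) : ℤ :=
  H v w - if u = 0 then H ((p : ZMod q)⁻¹ * v) ((p : ZMod r)⁻¹ * w) else 0

lemma lift1_sum (hpq : p ≠ q) (hpr : p ≠ r) (H : ZMod q → ZMod r → ℤ) {Q : Type*} [AddCommGroup Q]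
    {c : ZMod p → ZMod q → ZMod r → Q} (hc : D3 c) :
    ∑ u, ∑ v, ∑ w, lift1 H u v w • c u v w = 0 := by
  classical
  have hpq' := pq_ne (p := q) (q := p) (fun h => hpq h.symm)
  have hpr' := pq_ne (p := r) (q := p) (fun h => hpr h.symm)
  unfold lift1
  simp only [sub_smul, sum_sub_distrib]
  rw [sub_eq_zero]
  have h1 : ∑ u, ∑ v, ∑ w, H v w • c u v w =
      ∑ v, ∑ w, H v w • c 0 ((p : ZMod q) * v) ((p : ZMod r) * w) := by
    rw [← sum_rot (fun u v w => H v w • c u v w)]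
    refine sum_congr rfl fun v _ => sum_congr rfl fun w _ => ?_
    rw [← smul_sum, hc.dp]
  have h2 : ∑ u : ZMod p, ∑ v, ∑ w,
      (if u = 0 then H ((p : ZMod q)⁻¹ * v) ((p : ZMod r)⁻¹ * w) else 0) • c u v w =
      ∑ v, ∑ w, H ((p : ZMod q)⁻¹ * v) ((p : ZMod r)⁻¹ * w) • c 0 v w := by
    rw [← add_sum_erase _ _ (mem_univ (0 : ZMod p))]
    have e1 : ∑ u ∈ univ.erase (0 : ZMod p), ∑ v, ∑ w,
        (if u = 0 then H ((p : ZMod q)⁻¹ * v) ((p : ZMod r)⁻¹ * w) else 0) • c u v w = 0 := by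
      refine sum_eq_zero fun u hu => sum_eq_zero fun v _ => sum_eq_zero fun w _ => ?_
      rw [if_neg (ne_of_mem_erase hu), zero_smul]
    rw [e1, add_zero]
    refine sum_congr rfl fun v _ => sum_congr rfl fun w _ => ?_
    rw [if_pos rfl]
  rw [h1, h2]
  refine Fintype.sum_bijective _ (mulLeft_bijective₀ _ hpq') _ _ fun v => ?_
  refine Fintype.sum_bijective _ (mulLeft_bijective₀ _ hpr') _ _ fun w => ?_
  rw [inv_mul_cancel_left₀ hpq', inv_mul_cancel_left₀ hpr']

/-- **Reduction to the faces.** -/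
lemma reduce3 (hp2 : p ≠ 2) (hq2 : q ≠ 2) (hr2 : r ≠ 2) (hpq : p ≠ q) (hpr : p ≠ r) (hqr : q ≠ r)
    {x : ZMod p → ZMod q → ZMod r → ℤ} (hx : Rel3 x) :
    ∃ x' : ZMod p → ZMod q → ZMod r → ℤ, Rel3 x' ∧
      (∀ u v w, u ≠ 0 → v ≠ 0 → w ≠ 0 → Y3 x' u v w = 0) ∧
      ∀ {Q : Type} [AddCommGroup Q] {c : ZMod p → ZMod q → ZMod r → Q}, D3 c →
        ∑ u, ∑ v, ∑ w, x u v w • c u v w = ∑ u, ∑ v, ∑ w, x' u v w • c u v w := by
  classical
  have hH := half_HS (p := p) hp2
  have hK := half_HS (p := q) hq2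
  obtain ⟨A, B, C, hA, hB, hC, hABC⟩ := decomp3 hp2 hq2 hr2 (Y3_neg x)
    (fun a a' b b' c c' ha ha' hb hb' hc hc' => mixed3 hx ha ha' hb hb' hc hc')
  set hA' : ZMod q → ZMod r → ℤ := fun v w => if v ∈ HS q then A v w else 0 with hhA
  set hB' : ZMod r → ZMod p → ℤ := fun w u => if u ∈ HS p then B u w else 0 with hhB
  set hC' : ZMod p → ZMod q → ℤ := fun u v => if u ∈ HS p then C u v else 0 with hhC
  set x' : ZMod p → ZMod q → ZMod r → ℤ := fun u v w => x u v w - lift1 hA' u v w -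
    lift1 hB' v w u - lift1 hC' w u v with hx'
  have key : ∀ {Q : Type} [AddCommGroup Q] {c : ZMod p → ZMod q → ZMod r → Q}, D3 c →
        ∑ u, ∑ v, ∑ w, x u v w • c u v w = ∑ u, ∑ v, ∑ w, x' u v w • c u v w := by
    intro Q _ c hc
    have e1 := lift1_sum hpq hpr hA' hc
    have e2 := lift1_sum (p := q) (q := r) (r := p) hqr (fun h => hpq h.symm) hB' hc.rot
    have e3 := lift1_sum (p := r) (q := p) (r := q) (fun h => hpr h.symm) (fun h => hqr h.symm) hC'
      hc.rot.rot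
    have e2' : ∑ u, ∑ v, ∑ w, lift1 hB' v w u • c u v w = 0 := by
      rw [← e2]; exact (sum_rot (fun u v w => lift1 hB' v w u • c u v w)).symm
    have e3' : ∑ u, ∑ v, ∑ w, lift1 hC' w u v • c u v w = 0 := by
      rw [← e3, ← sum_rot (fun u v w => lift1 hC' w u v • c u v w)]
      exact (sum_rot (fun v w u => lift1 hC' w u v • c u v w)).symm
    simp only [hx', sub_smul, sum_sub_distrib]
    rw [e1, e2', e3']; abel
  refine ⟨x', ?_, ?_, key⟩
  · intro g hg
    have h1 := key hg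
    simp only [smul_eq_mul] at h1
    rw [← h1]
    exact hx g hg
  · intro u v w hu hv hw
    have h1 := hABC u v w hu hv hw
    have g1 : ∀ {n k : ℕ} [Fact n.Prime] [Fact k.Prime] (_ : Half (HS n)) (G : ZMod n → ZMod k → ℤ)
        (v : ZMod n) (w : ZMod k), v ≠ 0 → G (-v) (-w) = - G v w →
        (if v ∈ HS n then G v w else 0) - (if -v ∈ HS n then G (-v) (-w) else 0) = G v w := by
      intro n k _ _ hHn G v w hv he
      by_cases h1 : v ∈ HS n
      · rw [if_pos h1, if_neg ((hHn.one v hv).mp h1), sub_zero]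
      · have h2 : -v ∈ HS n := by
          by_contra h2; exact h1 ((hHn.one v hv).mpr h2)
        rw [if_neg h1, if_pos h2, he]; ring
    have e1 := g1 hK A v w hv (hA v w hv hw)
    have e2 := g1 hH B u w hu (hB u w hu hw)
    have e3 := g1 hH C u v hu (hC u v hu hv)
    have hu' : -u ≠ 0 := neg_ne_zero.mpr hu
    have hv' : -v ≠ 0 := neg_ne_zero.mpr hv
    have hw' : -w ≠ 0 := neg_ne_zero.mpr hw
    unfold Y3 at h1 ⊢
    simp only [hx', lift1, hu, hv, hw, hu', hv', hw', if_false, hhA, hhB, hhC]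
    linarith

end

end Pool.Agent.H916K
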