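import Pool.Agent.H916K.ThreeC

/-!
# Relations between odd distributions in three coordinates: the core theorem
-/

set_option linter.unusedSectionVars false

namespace Pool.Agent.H916K

open Finset

section face
variable {q r : ℕ} [Fact q.Prime] [Fact r.Prime]

/-- the row function of a face -/
def fa (f : ZMod q → ZMod r → ℤ) (v : ZMod q) : ℤ := f v 1 + f v (-1)
/-- the column function of a face -/
def fb (f : ZMod q → ZMod r → ℤ) (w : ZMod r) : ℤ := f 1 w + f (-1) w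

/-- odd functions with vanishing mixed differences -/
structure IsFace (f : ZMod q → ZMod r → ℤ) : Prop where
  neg : ∀ v w, f (-v) (-w) = - f v w
  mixed : ∀ b b' : ZMod q, ∀ c c' : ZMod r, b ≠ 0 → b' ≠ 0 → c ≠ 0 → c' ≠ 0 →
    f b c - f b c' - f b' c + f b' c' = 0

variable {f : ZMod q → ZMod r → ℤ}

lemma IsFace.fa_neg (h : IsFace f) (v : ZMod q) : fa f (-v) = - fa f v := by
  unfold fa
  have h1 := h.neg v 1
  have h2 := h.neg v (-1)
  rw [neg_neg] at h2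
  rw [h1, h2]; ring

lemma IsFace.fb_neg (h : IsFace f) (w : ZMod r) : fb f (-w) = - fb f w := by
  unfold fb
  have h1 := h.neg 1 w
  have h2 := h.neg (-1) w
  rw [neg_neg] at h2
  rw [h1, h2]; ring

lemma IsFace.two_mul (h : IsFace f) {v : ZMod q} {w : ZMod r} (hv : v ≠ 0) (hw : w ≠ 0) :
    2 * f v w = fa f v + fb f w := by
  have h1 := h.mixed v (-v) 1 w hv (neg_ne_zero.mpr hv) one_ne_zero hw
  have h2 := h.mixed 1 v w (-w) one_ne_zero hv hw (neg_ne_zero.mpr hw)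
  have e1 := h.neg v (-1)
  have e2 := h.neg v (-w)
  have e3 := h.neg (-1) w
  rw [neg_neg] at e1 e2 e3
  unfold fa fb
  linarith

lemma sum_odd {A : ZMod q → ℤ} (hA : ∀ v, A (-v) = - A v) :
    ∑ v ∈ univ.erase (0 : ZMod q), A v = 0 := by
  have h8 : ∑ v ∈ univ.erase (0 : ZMod q), A v = ∑ v ∈ univ.erase (0 : ZMod q), A (-v) := by
    refine sum_bij' (fun v _ => -v) (fun v _ => -v) ?_ ?_ ?_ ?_ ?_
    · intro v hv; exact mem_erase.mpr ⟨neg_ne_zero.mpr (ne_of_mem_erase hv), mem_univ _⟩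
    · intro v hv; exact mem_erase.mpr ⟨neg_ne_zero.mpr (ne_of_mem_erase hv), mem_univ _⟩
    · intro v _; exact neg_neg v
    · intro v _; exact neg_neg v
    · intro v _; rw [neg_neg]
  have h9 : ∑ v ∈ univ.erase (0 : ZMod q), A (-v) = - ∑ v ∈ univ.erase (0 : ZMod q), A v := by
    rw [← sum_neg_distrib]
    exact sum_congr rfl fun v _ => hA v
  linarith

lemma IsFace.sum_first (h : IsFace f) {w : ZMod r} (hw : w ≠ 0) :
    2 * ∑ v ∈ univ.erase (0 : ZMod q), f v w = ((q : ℤ) - 1) * fb f w := by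
  rw [mul_sum, sum_congr rfl fun v hv => h.two_mul (ne_of_mem_erase hv) hw, sum_add_distrib,
    sum_odd h.fa_neg, sum_const, nsmul_eq_mul, card_erase_int]
  ring

lemma IsFace.sum_second (h : IsFace f) {v : ZMod q} (hv : v ≠ 0) :
    2 * ∑ w ∈ univ.erase (0 : ZMod r), f v w = ((r : ℤ) - 1) * fa f v := by
  rw [mul_sum, sum_congr rfl fun w hw => h.two_mul hv (ne_of_mem_erase hw), sum_add_distrib,
    sum_odd h.fb_neg, sum_const, nsmul_eq_mul, card_erase_int]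
  ring

/-- the parity of a face -/
def EvF (f : ZMod q → ZMod r → ℤ) : Prop := 2 ∣ fb f 1

lemma IsFace.fa_even (h : IsFace f) {v : ZMod q} (hv : v ≠ 0) : 2 ∣ fa f v ↔ EvF f := by
  have := h.two_mul hv (one_ne_zero : (1 : ZMod r) ≠ 0)
  unfold EvF; omega

lemma IsFace.fb_even (h : IsFace f) {w : ZMod r} (hw : w ≠ 0) : 2 ∣ fb f w ↔ EvF f := by
  have h1 := h.two_mul (one_ne_zero : (1 : ZMod q) ≠ 0) hw
  have h2 := h.two_mul (one_ne_zero : (1 : ZMod q) ≠ 0) (one_ne_zero : (1 : ZMod r) ≠ 0)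
  unfold EvF; omega

end face

section
variable {p q r : ℕ} [Fact p.Prime] [Fact q.Prime] [Fact r.Prime]

/-- rotation of the coordinates -/
def rt {Q : Type*} (x : ZMod p → ZMod q → ZMod r → Q) : ZMod q → ZMod r → ZMod p → Q :=
  fun v w u => x u v w

/-- the face with first coordinate zero -/
def FF (x : ZMod p → ZMod q → ZMod r → ℤ) (v : ZMod q) (w : ZMod r) : ℤ := Y3 x 0 v w

/-- relations without interior -/
structure Thin (x : ZMod p → ZMod q → ZMod r → ℤ) : Prop where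
  rel : Rel3 x
  top : ∀ u v w, u ≠ 0 → v ≠ 0 → w ≠ 0 → Y3 x u v w = 0

lemma Thin.rot {x : ZMod p → ZMod q → ZMod r → ℤ} (h : Thin x) : Thin (rt x) where
  rel := h.rel.rot
  top := fun v w u hv hw hu => h.top u v w hu hv hw

lemma Thin.face (hpq : p ≠ q) (hpr : p ≠ r) {x : ZMod p → ZMod q → ZMod r → ℤ} (h : Thin x) :
    IsFace (FF x) where
  neg := fun v w => by
    have := Y3_neg x 0 v w
    rwa [neg_zero] at this
  mixed := fun _ _ _ _ hb hb' hc hc' => face3 hpq hpr h.rel h.top hb hb' hc hc'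

lemma Thin.axis (hpq : p ≠ q) (hpr : p ≠ r) (hqr : q ≠ r) {x : ZMod p → ZMod q → ZMod r → ℤ}
    (h : Thin x) {w : ZMod r} (hw : w ≠ 0) :
    2 * Y3 x 0 0 w = (fa (FF (rt x)) w - fa (FF (rt x)) ((p : ZMod r)⁻¹ * w)) +
      (fb (FF x) w - fb (FF x) ((q : ZMod r)⁻¹ * w)) := by
  refine axis3 hpr hqr h.rel h.top ?_ ?_ hpq hw
  · intro w hw
    have h1 := (h.rot.face hqr (fun h => hpq h.symm)).sum_second hw
    exact h1
  · intro w hw
    exact (h.face hpq hpr).sum_first hw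

/-- one step of the parity argument -/
lemma Thin.step (hr2 : r ≠ 2) (hpq : p ≠ q) (hpr : p ≠ r) (hqr : q ≠ r)
    {x : ZMod p → ZMod q → ZMod r → ℤ} (h : Thin x) (hev : 2 ∣ ∑ w ∈ HS r, Y3 x 0 0 w)
    (hleg : legendreSym r p = -1) (hor : EvF (FF x) ∨ legendreSym r q = 1) :
    EvF (FF (rt x)) := by
  classical
  have hpr' := pq_ne (p := r) (q := p) (fun h => hpr h.symm)
  have hqr' := pq_ne (p := r) (q := q) (fun h => hqr h.symm)
  have hf := h.face hpq hpr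
  have hf1 := h.rot.face hqr (fun h => hpq h.symm)
  by_contra hE
  have hodd : ∀ w, w ≠ 0 → ¬ 2 ∣ fa (FF (rt x)) w := fun w hw h1 => hE ((hf1.fa_even hw).mp h1)
  set y1 : ZMod r → ℤ := fun w => (fa (FF (rt x)) w - fa (FF (rt x)) ((p : ZMod r)⁻¹ * w)) / 2 with hy1
  set y2 : ZMod r → ℤ := fun w => (fb (FF x) w - fb (FF x) ((q : ZMod r)⁻¹ * w)) / 2 with hy2
  have e1 : ∀ w, w ≠ 0 → 2 * y1 w = fa (FF (rt x)) w - fa (FF (rt x)) ((p : ZMod r)⁻¹ * w) := by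
    intro w hw
    have h1 := hodd w hw
    have h2 := hodd _ (mul_ne_zero (inv_ne_zero hpr') hw)
    simp only [hy1]
    omega
  have e2 : ∀ w, w ≠ 0 → 2 * y2 w = fb (FF x) w - fb (FF x) ((q : ZMod r)⁻¹ * w) := by
    intro w hw
    have h1 := hf.fb_even hw
    have h2 := hf.fb_even (mul_ne_zero (inv_ne_zero hqr') hw)
    simp only [hy2]
    by_cases h3 : EvF (FF x)
    · have h4 := h1.mpr h3
      have h5 := h2.mpr h3
      omega
    · have h4 : ¬ 2 ∣ fb (FF x) w := fun h => h3 (h1.mp h)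
      have h5 : ¬ 2 ∣ fb (FF x) ((q : ZMod r)⁻¹ * w) := fun h => h3 (h2.mp h)
      omega
  have o1 := gauss_parity hr2 hpr' hleg hf1.fa_neg hodd e1
  have o2 : 2 ∣ ∑ w ∈ HS r, y2 w := by
    by_cases h3 : EvF (FF x)
    · exact gauss_even hr2 hqr' hf.fb_neg (fun w hw => (hf.fb_even hw).mpr h3) e2
    · exact gauss_parity_sq hr2 hqr' (hor.resolve_left h3) hf.fb_neg
        (fun w hw h4 => h3 ((hf.fb_even hw).mp h4)) e2
  have h5 : ∑ w ∈ HS r, Y3 x 0 0 w = ∑ w ∈ HS r, y1 w + ∑ w ∈ HS r, y2 w := by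
    rw [← sum_add_distrib]
    refine sum_congr rfl fun w hw => ?_
    have hw0 := (half_HS hr2).ne w hw
    have := h.axis hpq hpr hqr hw0
    have := e1 w hw0
    have := e2 w hw0
    linarith
  rw [h5] at hev
  exact o1 ((Int.dvd_add_left o2).mp hev)

lemma D3.face {Q : Type*} [AddCommGroup Q] {c : ZMod p → ZMod q → ZMod r → Q} (h : D3 c) :
    D2 (fun v w => c 0 v w) where
  neg := fun v w => by
    have := h.neg 0 v w
    rwa [neg_zero] at this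
  zero := h.zero
  dp := fun w => by
    have := h.dq 0 w
    rwa [mul_zero] at this
  dq := fun v => by
    have := h.dr 0 v
    rwa [mul_zero] at this

/-- the sum over a face -/
lemma Thin.face_sum (hq2 : q ≠ 2) (hr2 : r ≠ 2) (hpq : p ≠ q) (hpr : p ≠ r) (hqr : q ≠ r)
    {x : ZMod p → ZMod q → ZMod r → ℤ} (h : Thin x) (hE : EvF (FF x))
    {Q : Type*} [AddCommGroup Q] {c : ZMod p → ZMod q → ZMod r → Q} (hc : D3 c) :
    ∑ v ∈ HS q, ∑ w ∈ univ.erase (0 : ZMod r), Y3 x 0 v w • c 0 v w +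
      ∑ v ∈ HS q, ((fa (FF x) v - fa (FF x) ((r : ZMod q)⁻¹ * v)) / 2) • c 0 v 0 +
      ∑ w ∈ HS r, ((fb (FF x) w - fb (FF x) ((q : ZMod r)⁻¹ * w)) / 2) • c 0 0 w = 0 := by
  classical
  have hf := h.face hpq hpr
  have a0 : fa (FF x) 0 = 0 := by have := hf.fa_neg 0; rw [neg_zero] at this; linarith
  have b0 : fb (FF x) 0 = 0 := by have := hf.fb_neg 0; rw [neg_zero] at this; linarith
  obtain ⟨α, hα⟩ : ∃ α : ZMod q → ℤ, ∀ v, fa (FF x) v = 2 * α v := by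
    refine ⟨fun v => fa (FF x) v / 2, fun v => ?_⟩
    by_cases hv : v = 0
    · simp [hv, a0]
    · exact (Int.mul_ediv_cancel' ((hf.fa_even hv).mpr hE)).symm
  obtain ⟨β, hβ⟩ : ∃ β : ZMod r → ℤ, ∀ w, fb (FF x) w = 2 * β w := by
    refine ⟨fun w => fb (FF x) w / 2, fun w => ?_⟩
    by_cases hw : w = 0
    · simp [hw, b0]
    · exact (Int.mul_ediv_cancel' ((hf.fb_even hw).mpr hE)).symm
  have hαn : ∀ v, α (-v) = - α v := by
    intro v; have := hf.fa_neg v; rw [hα, hα] at this; linarith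
  have hβn : ∀ v, β (-v) = - β v := by
    intro v; have := hf.fb_neg v; rw [hβ, hβ] at this; linarith
  have h1 := pair_sum hq2 hr2 hqr hc.face hαn hβn
  rw [← h1]
  congr 1
  · congr 1
    · refine sum_congr rfl fun v hv => sum_congr rfl fun w hw => ?_
      have h2 : 2 * Y3 x 0 v w = fa (FF x) v + fb (FF x) w :=
        hf.two_mul ((half_HS hq2).ne v hv) (ne_of_mem_erase hw)
      rw [hα, hβ] at h2
      have h3 : Y3 x 0 v w = α v + β w := by linarith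
      rw [h3]
    · refine sum_congr rfl fun v _ => ?_
      rw [hα, hα]
      congr 1
      omega
  · refine sum_congr rfl fun v _ => ?_
    rw [hβ, hβ]
    congr 1
    omega

lemma swap_half {p r : ℕ} [Fact p.Prime] [Fact r.Prime] (hp2 : p ≠ 2) (hr2 : r ≠ 2)
    {Q : Type*} [AddCommMonoid Q] (G : ZMod p → ZMod r → Q) (hG : ∀ u w, G (-u) (-w) = G u w) :
    ∑ u ∈ HS p, ∑ w ∈ univ.erase (0 : ZMod r), G u w =
      ∑ w ∈ HS r, ∑ u ∈ univ.erase (0 : ZMod p), G u w := by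
  have h1 : ∀ u, ∑ w ∈ univ.erase (0 : ZMod r), G u w = ∑ w ∈ HS r, (G u w + G u (-w)) :=
    fun u => (half_HS hr2).sum_all (fun w => G u w)
  have h2 : ∀ w, ∑ u ∈ univ.erase (0 : ZMod p), G u w = ∑ u ∈ HS p, (G u w + G (-u) w) :=
    fun w => (half_HS hp2).sum_all (fun u => G u w)
  rw [sum_congr rfl fun u _ => h1 u, sum_congr rfl fun w _ => h2 w, sum_comm]
  refine sum_congr rfl fun w _ => sum_congr rfl fun u _ => ?_
  have h3 := hG (-u) w
  rw [neg_neg] at h3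
  rw [h3]

/-- the sum in terms of the odd part -/
lemma half_sum3 (hp2 : p ≠ 2) (hq2 : q ≠ 2) (hr2 : r ≠ 2) (x : ZMod p → ZMod q → ZMod r → ℤ)
    {Q : Type*} [AddCommGroup Q] {c : ZMod p → ZMod q → ZMod r → Q} (hc : D3 c) :
    ∑ u, ∑ v, ∑ w, x u v w • c u v w = ∑ u ∈ HS p, ∑ v, ∑ w, Y3 x u v w • c u v w +
      ∑ v ∈ HS q, ∑ w, Y3 x 0 v w • c 0 v w + ∑ w ∈ HS r, Y3 x 0 0 w • c 0 0 w := by
  classical
  rw [← add_sum_erase _ _ (mem_univ (0 : ZMod p)),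
    (half_HS hp2).sum_all (fun u => ∑ v, ∑ w, x u v w • c u v w)]
  have e1 : ∀ u, ∑ v, ∑ w, x u v w • c u v w + ∑ v, ∑ w, x (-u) v w • c (-u) v w =
      ∑ v, ∑ w, Y3 x u v w • c u v w := by
    intro u
    rw [← sum_neg (fun v => ∑ w, x (-u) v w • c (-u) v w), ← sum_add_distrib]
    refine sum_congr rfl fun v _ => ?_
    rw [← sum_neg (fun w => x (-u) (-v) w • c (-u) (-v) w), ← sum_add_distrib]
    refine sum_congr rfl fun w _ => ?_
    rw [hc.neg, smul_neg, ← sub_eq_add_neg, ← sub_smul]; rfl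
  have e2 : ∑ v, ∑ w, x 0 v w • c 0 v w =
      ∑ v ∈ HS q, ∑ w, Y3 x 0 v w • c 0 v w + ∑ w ∈ HS r, Y3 x 0 0 w • c 0 0 w := by
    rw [← add_sum_erase _ _ (mem_univ (0 : ZMod q)),
      (half_HS hq2).sum_all (fun v => ∑ w, x 0 v w • c 0 v w), add_comm]
    congr 1
    · refine sum_congr rfl fun v _ => ?_
      rw [← sum_neg (fun w => x 0 (-v) w • c 0 (-v) w), ← sum_add_distrib]
      refine sum_congr rfl fun w _ => ?_
      have h1 : c 0 (-v) (-w) = - c 0 v w := hc.face.neg v w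
      rw [h1, smul_neg, ← sub_eq_add_neg, ← sub_smul]
      unfold Y3; rw [neg_zero]
    · rw [← add_sum_erase _ _ (mem_univ (0 : ZMod r)), hc.zero, smul_zero, zero_add,
        (half_HS hr2).sum_all (fun w => x 0 0 w • c 0 0 w)]
      refine sum_congr rfl fun w _ => ?_
      have h1 : c 0 0 (-w) = - c 0 0 w := by
        have := hc.neg 0 0 w
        rwa [neg_zero, neg_zero] at this
      rw [h1, smul_neg, ← sub_eq_add_neg, ← sub_smul]
      unfold Y3; rw [neg_zero, neg_zero]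
  rw [e2, sum_congr rfl fun u _ => e1 u]
  abel

/-- thin relations with even faces -/
lemma Thin.zero_sum (hp2 : p ≠ 2) (hq2 : q ≠ 2) (hr2 : r ≠ 2) (hpq : p ≠ q) (hpr : p ≠ r)
    (hqr : q ≠ r) {x : ZMod p → ZMod q → ZMod r → ℤ} (h : Thin x) (h0 : EvF (FF x))
    (h1 : EvF (FF (rt x))) (h2 : EvF (FF (rt (rt x))))
    {Q : Type*} [AddCommGroup Q] {c : ZMod p → ZMod q → ZMod r → Q} (hc : D3 c) :
    ∑ u, ∑ v, ∑ w, x u v w • c u v w = 0 := by
  classical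
  have hH := half_HS (p := p) hp2
  have hK := half_HS (p := q) hq2
  have hL := half_HS (p := r) hr2
  have hpr' := pq_ne (p := r) (q := p) (fun h => hpr h.symm)
  have hqr' := pq_ne (p := r) (q := q) (fun h => hqr h.symm)
  have hqp' := pq_ne (p := p) (q := q) hpq
  have hrp' := pq_ne (p := p) (q := r) hpr
  have hpq' := pq_ne (p := q) (q := p) (fun h => hpq h.symm)
  have hrq' := pq_ne (p := q) (q := r) hqr
  have s0 := h.face_sum hq2 hr2 hpq hpr hqr h0 hc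
  have s1 := h.rot.face_sum hr2 hp2 hqr (fun h => hpq h.symm) (fun h => hpr h.symm) h1 hc.rot
  have s2 := h.rot.rot.face_sum hp2 hq2 (fun h => hpr h.symm) (fun h => hqr h.symm) hpq h2 hc.rot.rot
  have hf0 := h.face hpq hpr
  have hf1 := h.rot.face hqr (fun h => hpq h.symm)
  have hf2 := h.rot.rot.face (fun h => hpr h.symm) (fun h => hqr h.symm)
  -- axes
  have aw : ∀ w ∈ HS r, Y3 x 0 0 w = (fa (FF (rt x)) w - fa (FF (rt x)) ((p : ZMod r)⁻¹ * w)) / 2 +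
      (fb (FF x) w - fb (FF x) ((q : ZMod r)⁻¹ * w)) / 2 := by
    intro w hw
    have hw0 := hL.ne w hw
    have e := h.axis hpq hpr hqr hw0
    have e1 := (hf1.fa_even hw0).mpr h1
    have e2 := (hf1.fa_even (mul_ne_zero (inv_ne_zero hpr') hw0)).mpr h1
    have e3 := (hf0.fb_even hw0).mpr h0
    have e4 := (hf0.fb_even (mul_ne_zero (inv_ne_zero hqr') hw0)).mpr h0
    omega
  have au : ∀ u ∈ HS p, Y3 x u 0 0 =
      (fa (FF (rt (rt x))) u - fa (FF (rt (rt x))) ((q : ZMod p)⁻¹ * u)) / 2 +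
      (fb (FF (rt x)) u - fb (FF (rt x)) ((r : ZMod p)⁻¹ * u)) / 2 := by
    intro u hu
    have hu0 := hH.ne u hu
    have e : 2 * Y3 x u 0 0 =
      (fa (FF (rt (rt x))) u - fa (FF (rt (rt x))) ((q : ZMod p)⁻¹ * u)) +
      (fb (FF (rt x)) u - fb (FF (rt x)) ((r : ZMod p)⁻¹ * u)) :=
      h.rot.axis hqr (fun h => hpq h.symm) (fun h => hpr h.symm) hu0
    have e1 := (hf2.fa_even hu0).mpr h2
    have e2 := (hf2.fa_even (mul_ne_zero (inv_ne_zero hqp') hu0)).mpr h2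
    have e3 := (hf1.fb_even hu0).mpr h1
    have e4 := (hf1.fb_even (mul_ne_zero (inv_ne_zero hrp') hu0)).mpr h1
    omega
  have av : ∀ v ∈ HS q, Y3 x 0 v 0 =
      (fa (FF x) v - fa (FF x) ((r : ZMod q)⁻¹ * v)) / 2 +
      (fb (FF (rt (rt x))) v - fb (FF (rt (rt x))) ((p : ZMod q)⁻¹ * v)) / 2 := by
    intro v hv
    have hv0 := hK.ne v hv
    have e : 2 * Y3 x 0 v 0 = (fa (FF x) v - fa (FF x) ((r : ZMod q)⁻¹ * v)) +
      (fb (FF (rt (rt x))) v - fb (FF (rt (rt x))) ((p : ZMod q)⁻¹ * v)) :=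
      h.rot.rot.axis (fun h => hpr h.symm) (fun h => hqr h.symm) hpq hv0
    have e1 := (hf0.fa_even hv0).mpr h0
    have e2 := (hf0.fa_even (mul_ne_zero (inv_ne_zero hrq') hv0)).mpr h0
    have e3 := (hf2.fb_even hv0).mpr h2
    have e4 := (hf2.fb_even (mul_ne_zero (inv_ne_zero hpq') hv0)).mpr h2
    omega
  -- the three parts
  have p1 : ∑ u ∈ HS p, ∑ v, ∑ w, Y3 x u v w • c u v w =
      ∑ u ∈ HS p, Y3 x u 0 0 • c u 0 0 +
      ∑ u ∈ HS p, ∑ w ∈ univ.erase (0 : ZMod r), Y3 x u 0 w • c u 0 w +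
      ∑ u ∈ HS p, ∑ v ∈ univ.erase (0 : ZMod q), Y3 x u v 0 • c u v 0 := by
    rw [← sum_add_distrib, ← sum_add_distrib]
    refine sum_congr rfl fun u hu => ?_
    rw [← add_sum_erase _ _ (mem_univ (0 : ZMod q)), ← add_sum_erase _ _ (mem_univ (0 : ZMod r))]
    congr 1
    refine sum_congr rfl fun v hv => ?_
    rw [← add_sum_erase _ _ (mem_univ (0 : ZMod r))]
    have : ∑ w ∈ univ.erase (0 : ZMod r), Y3 x u v w • c u v w = 0 := by
      refine sum_eq_zero fun w hw => ?_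
      rw [h.top u v w (hH.ne u hu) (ne_of_mem_erase hv) (ne_of_mem_erase hw), zero_smul]
    rw [this, add_zero]
  have p2 : ∑ v ∈ HS q, ∑ w, Y3 x 0 v w • c 0 v w =
      ∑ v ∈ HS q, Y3 x 0 v 0 • c 0 v 0 +
      ∑ v ∈ HS q, ∑ w ∈ univ.erase (0 : ZMod r), Y3 x 0 v w • c 0 v w := by
    rw [← sum_add_distrib]
    refine sum_congr rfl fun v _ => ?_
    rw [← add_sum_erase _ _ (mem_univ (0 : ZMod r))]
  have p3 : ∑ u ∈ HS p, ∑ w ∈ univ.erase (0 : ZMod r), Y3 x u 0 w • c u 0 w =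
      ∑ w ∈ HS r, ∑ u ∈ univ.erase (0 : ZMod p), Y3 x u 0 w • c u 0 w := by
    refine swap_half hp2 hr2 (fun u w => Y3 x u 0 w • c u 0 w) ?_
    intro u w
    have e1 := Y3_neg x u 0 w
    have e2 := hc.neg u 0 w
    rw [neg_zero] at e1 e2
    rw [e1, e2, neg_smul, smul_neg, neg_neg]
  have q1 : ∑ u ∈ HS p, Y3 x u 0 0 • c u 0 0 =
      ∑ u ∈ HS p, ((fa (FF (rt (rt x))) u - fa (FF (rt (rt x))) ((q : ZMod p)⁻¹ * u)) / 2) • c u 0 0 +
      ∑ u ∈ HS p, ((fb (FF (rt x)) u - fb (FF (rt x)) ((r : ZMod p)⁻¹ * u)) / 2) • c u 0 0 := by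
    rw [← sum_add_distrib]
    refine sum_congr rfl fun u hu => ?_
    rw [au u hu, add_smul]
  have q2 : ∑ v ∈ HS q, Y3 x 0 v 0 • c 0 v 0 =
      ∑ v ∈ HS q, ((fa (FF x) v - fa (FF x) ((r : ZMod q)⁻¹ * v)) / 2) • c 0 v 0 +
      ∑ v ∈ HS q, ((fb (FF (rt (rt x))) v - fb (FF (rt (rt x))) ((p : ZMod q)⁻¹ * v)) / 2) • c 0 v 0 := by
    rw [← sum_add_distrib]
    refine sum_congr rfl fun v hv => ?_
    rw [av v hv, add_smul]
  have q3 : ∑ w ∈ HS r, Y3 x 0 0 w • c 0 0 w =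
      ∑ w ∈ HS r, ((fa (FF (rt x)) w - fa (FF (rt x)) ((p : ZMod r)⁻¹ * w)) / 2) • c 0 0 w +
      ∑ w ∈ HS r, ((fb (FF x) w - fb (FF x) ((q : ZMod r)⁻¹ * w)) / 2) • c 0 0 w := by
    rw [← sum_add_distrib]
    refine sum_congr rfl fun w hw => ?_
    rw [aw w hw, add_smul]
  have t1 : ∑ w ∈ HS r, ∑ u ∈ univ.erase (0 : ZMod p), Y3 x u 0 w • c u 0 w +
      ∑ w ∈ HS r, ((fa (FF (rt x)) w - fa (FF (rt x)) ((p : ZMod r)⁻¹ * w)) / 2) • c 0 0 w +
      ∑ u ∈ HS p, ((fb (FF (rt x)) u - fb (FF (rt x)) ((r : ZMod p)⁻¹ * u)) / 2) • c u 0 0 = 0 := s1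
  have t2 : ∑ u ∈ HS p, ∑ v ∈ univ.erase (0 : ZMod q), Y3 x u v 0 • c u v 0 +
      ∑ u ∈ HS p, ((fa (FF (rt (rt x))) u - fa (FF (rt (rt x))) ((q : ZMod p)⁻¹ * u)) / 2) • c u 0 0 +
      ∑ v ∈ HS q, ((fb (FF (rt (rt x))) v - fb (FF (rt (rt x))) ((p : ZMod q)⁻¹ * v)) / 2) • c 0 v 0 = 0 :=
    s2
  rw [half_sum3 hp2 hq2 hr2 x hc, p1, p2, p3, q1, q2, q3]
  calc _ = (∑ v ∈ HS q, ∑ w ∈ univ.erase (0 : ZMod r), Y3 x 0 v w • c 0 v w +
      ∑ v ∈ HS q, ((fa (FF x) v - fa (FF x) ((r : ZMod q)⁻¹ * v)) / 2) • c 0 v 0 +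
      ∑ w ∈ HS r, ((fb (FF x) w - fb (FF x) ((q : ZMod r)⁻¹ * w)) / 2) • c 0 0 w) +
      (∑ w ∈ HS r, ∑ u ∈ univ.erase (0 : ZMod p), Y3 x u 0 w • c u 0 w +
      ∑ w ∈ HS r, ((fa (FF (rt x)) w - fa (FF (rt x)) ((p : ZMod r)⁻¹ * w)) / 2) • c 0 0 w +
      ∑ u ∈ HS p, ((fb (FF (rt x)) u - fb (FF (rt x)) ((r : ZMod p)⁻¹ * u)) / 2) • c u 0 0) +
      (∑ u ∈ HS p, ∑ v ∈ univ.erase (0 : ZMod q), Y3 x u v 0 • c u v 0 +
      ∑ u ∈ HS p, ((fa (FF (rt (rt x))) u - fa (FF (rt (rt x))) ((q : ZMod p)⁻¹ * u)) / 2) • c u 0 0 +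
      ∑ v ∈ HS q, ((fb (FF (rt (rt x))) v - fb (FF (rt (rt x))) ((p : ZMod q)⁻¹ * v)) / 2) • c 0 v 0) := by
        abel
    _ = 0 := by rw [s0, t1, t2]; simp

end

end Pool.Agent.H916K
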