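import Pool.Agent.H916K.ThreeD
import Pool.Agent.H916K.Double

/-!
# Relations of level `p * q * r`
-/

set_option linter.unusedSectionVars false

namespace Pool.Agent.H916K

open Finset Pool.Agent.H916R2

section
variable {p q r : ℕ} [hp : Fact p.Prime] [hq : Fact q.Prime] [hr : Fact r.Prime]

/-- the parity distribution of the last axis -/
def piw {p q r : ℕ} (u : ZMod p) (v : ZMod q) (w : ZMod r) : ZMod 2 :=
  if u = 0 ∧ v = 0 ∧ w ≠ 0 then 1 else 0

lemma piw_d3 (hr2 : r ≠ 2) (hpq : p ≠ q) (hpr : p ≠ r) (hqr : q ≠ r) :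
    D3 (piw : ZMod p → ZMod q → ZMod r → ZMod 2) := by
  classical
  have hpr' := pq_ne (p := r) (q := p) (fun h => hpr h.symm)
  have hqr' := pq_ne (p := r) (q := q) (fun h => hqr h.symm)
  have hpq1 := pq_ne (p := q) (q := p) (fun h => hpq h.symm)
  have hqp1 := pq_ne (p := p) (q := q) hpq
  refine ⟨?_, ?_, ?_, ?_, ?_⟩
  · intro u v w
    rw [ZMod.neg_eq_self_mod_two]
    unfold piw
    simp only [neg_eq_zero, ne_eq]
  · unfold piw; simp
  · intro v w
    rw [← add_sum_erase _ _ (mem_univ (0 : ZMod p))]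
    have e1 : ∑ u ∈ univ.erase (0 : ZMod p), piw u v w = 0 := by
      refine sum_eq_zero fun u hu => ?_
      unfold piw
      rw [if_neg (fun h => ne_of_mem_erase hu h.1)]
    rw [e1, add_zero]
    unfold piw
    have e2 : (p : ZMod q) * v = 0 ↔ v = 0 := by
      rw [mul_eq_zero]; exact ⟨fun h => h.resolve_left hpq1, Or.inr⟩
    have e3 : (p : ZMod r) * w = 0 ↔ w = 0 := by
      rw [mul_eq_zero]; exact ⟨fun h => h.resolve_left hpr', Or.inr⟩
    simp only [ne_eq, e2, e3]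
  · intro u w
    rw [← add_sum_erase _ _ (mem_univ (0 : ZMod q))]
    have e1 : ∑ v ∈ univ.erase (0 : ZMod q), piw u v w = 0 := by
      refine sum_eq_zero fun v hv => ?_
      unfold piw
      rw [if_neg (fun h => ne_of_mem_erase hv h.2.1)]
    rw [e1, add_zero]
    unfold piw
    have e2 : (q : ZMod p) * u = 0 ↔ u = 0 := by
      rw [mul_eq_zero]; exact ⟨fun h => h.resolve_left hqp1, Or.inr⟩
    have e3 : (q : ZMod r) * w = 0 ↔ w = 0 := by
      rw [mul_eq_zero]; exact ⟨fun h => h.resolve_left hqr', Or.inr⟩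
    simp only [ne_eq, e2, e3]
  · intro u v
    have e0 : piw ((r : ZMod p) * u) ((r : ZMod q) * v) (0 : ZMod r) = 0 := by
      unfold piw; simp
    rw [e0, ← add_sum_erase _ _ (mem_univ (0 : ZMod r))]
    have e1 : piw u v (0 : ZMod r) = 0 := by unfold piw; simp
    rw [e1, zero_add]
    by_cases h : u = 0 ∧ v = 0
    · have e2 : ∀ w ∈ univ.erase (0 : ZMod r), piw u v w = 1 := by
        intro w hw
        unfold piw
        rw [if_pos ⟨h.1, h.2, ne_of_mem_erase hw⟩]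
      rw [sum_congr rfl e2, sum_const, nsmul_eq_mul, mul_one,
        card_erase_of_mem (mem_univ _), card_univ, ZMod.card, ZMod.natCast_eq_zero_iff]
      have hodd : r % 2 = 1 := hr.out.eq_two_or_odd.resolve_left hr2
      omega
    · refine sum_eq_zero fun w _ => ?_
      unfold piw
      rw [if_neg (fun h' => h ⟨h'.1, h'.2.1⟩)]

lemma sum_piw (x : ZMod p → ZMod q → ZMod r → ℤ) :
    ∑ u, ∑ v, ∑ w, x u v w • piw u v w = ((∑ w ∈ univ.erase (0 : ZMod r), x 0 0 w : ℤ) : ZMod 2) := by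
  classical
  rw [← add_sum_erase _ _ (mem_univ (0 : ZMod p))]
  have e1 : ∑ u ∈ univ.erase (0 : ZMod p), ∑ v : ZMod q, ∑ w : ZMod r, x u v w • piw u v w = 0 := by
    refine sum_eq_zero fun u hu => sum_eq_zero fun v _ => sum_eq_zero fun w _ => ?_
    unfold piw
    rw [if_neg (fun h => ne_of_mem_erase hu h.1), smul_zero]
  rw [e1, add_zero, ← add_sum_erase _ _ (mem_univ (0 : ZMod q))]
  have e2 : ∑ v ∈ univ.erase (0 : ZMod q), ∑ w : ZMod r, x 0 v w • piw (0 : ZMod p) v w = 0 := by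
    refine sum_eq_zero fun v hv => sum_eq_zero fun w _ => ?_
    unfold piw
    rw [if_neg (fun h => ne_of_mem_erase hv h.2.1), smul_zero]
  rw [e2, add_zero, ← add_sum_erase _ _ (mem_univ (0 : ZMod r))]
  have e3 : piw (0 : ZMod p) (0 : ZMod q) (0 : ZMod r) = 0 := by unfold piw; simp
  rw [e3, smul_zero, zero_add]
  push_cast
  refine sum_congr rfl fun w hw => ?_
  unfold piw
  rw [if_pos ⟨rfl, rfl, ne_of_mem_erase hw⟩, zsmul_eq_mul, mul_one]

lemma par_axis (hr2 : r ≠ 2) {x : ZMod p → ZMod q → ZMod r → ℤ}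
    (h : ∑ u, ∑ v, ∑ w, x u v w • piw u v w = 0) : 2 ∣ ∑ w ∈ HS r, Y3 x 0 0 w := by
  rw [sum_piw] at h
  have h1 := (ZMod.intCast_zmod_eq_zero_iff_dvd _ 2).mp h
  rw [(half_HS hr2).sum_all] at h1
  have h2 : ∑ w ∈ HS r, (x 0 0 w + x 0 0 (-w)) =
      ∑ w ∈ HS r, Y3 x 0 0 w + 2 * ∑ w ∈ HS r, x 0 0 (-w) := by
    rw [mul_sum, ← sum_add_distrib]
    refine sum_congr rfl fun w _ => ?_
    unfold Y3; rw [neg_zero, neg_zero]; ring
  rw [h2] at h1
  exact (Int.dvd_add_left (Dvd.intro _ rfl)).mp h1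

/-- **Relations in three coordinates.** -/
theorem three_core (hp2 : p ≠ 2) (hq2 : q ≠ 2) (hr2 : r ≠ 2) (hpq : p ≠ q) (hpr : p ≠ r)
    (hqr : q ≠ r) (l1 : legendreSym p q = -1) (l2 : legendreSym p r = 1)
    (l3 : legendreSym q r = -1) (l4 : legendreSym r p = -1)
    {x : ZMod p → ZMod q → ZMod r → ℤ} (hx : Rel3 x)
    (hw : ∑ u, ∑ v, ∑ w, x u v w • piw u v w = 0)
    (hu : ∑ u, ∑ v, ∑ w, x u v w • piw v w u = 0)
    (hv : ∑ u, ∑ v, ∑ w, x u v w • piw w u v = 0)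
    {Q : Type} [AddCommGroup Q] {c : ZMod p → ZMod q → ZMod r → Q} (hc : D3 c) :
    ∑ u, ∑ v, ∑ w, x u v w • c u v w = 0 := by
  classical
  obtain ⟨x', hx', htop, key⟩ := reduce3 hp2 hq2 hr2 hpq hpr hqr hx
  have hT : Thin x' := ⟨hx', htop⟩
  have ew : 2 ∣ ∑ w ∈ HS r, Y3 x' 0 0 w := by
    apply par_axis hr2
    rw [← key (piw_d3 hr2 hpq hpr hqr)]
    exact hw
  have eu : 2 ∣ ∑ u ∈ HS p, Y3 (rt x') 0 0 u := by
    apply par_axis hp2
    have h1 := key (piw_d3 (p := q) (q := r) (r := p) hp2 hqr (fun h => hpq h.symm)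
      (fun h => hpr h.symm)).rot.rot
    rw [hu] at h1
    rw [h1]
    exact sum_rot (fun u v w => x' u v w • piw v w u)
  have ev : 2 ∣ ∑ v ∈ HS q, Y3 (rt (rt x')) 0 0 v := by
    apply par_axis hq2
    have h1 := key (piw_d3 (p := r) (q := p) (r := q) hq2 (fun h => hpr h.symm)
      (fun h => hqr h.symm) hpq).rot
    rw [hv] at h1
    rw [h1]
    have h2 := sum_rot (fun u v w => x' u v w • piw w u v)
    rw [← h2]
    exact sum_rot (fun v w u => x' u v w • piw w u v)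
  have E2 : EvF (FF (rt (rt x'))) := hT.rot.step hp2 hqr (fun h => hpq h.symm) (fun h => hpr h.symm)
    eu l1 (Or.inr l2)
  have E0 : EvF (FF x') := hT.rot.rot.step hq2 (fun h => hpr h.symm) (fun h => hqr h.symm) hpq
    ev l3 (Or.inl E2)
  have E1 : EvF (FF (rt x')) := hT.step hr2 hpq hpr hqr ew l4 (Or.inl E0)
  rw [key hc]
  exact hT.zero_sum hp2 hq2 hr2 hpq hpr hqr E0 E1 E2 hc

end

end Pool.Agent.H916K
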