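import Pool.Agent.H916K.Half

/-!
# Relations between odd distributions in two coordinates
-/

set_option linter.unusedSectionVars false

namespace Pool.Agent.H916K

open Finset

variable {p q : ℕ} [Fact p.Prime] [Fact q.Prime]

/-- odd distributions in two coordinates -/
structure D2 {p q : ℕ} [NeZero p] [NeZero q] {Q : Type*} [AddCommGroup Q]
    (c : ZMod p → ZMod q → Q) : Prop where
  neg : ∀ u v, c (-u) (-v) = - c u v
  zero : c 0 0 = 0
  dp : ∀ v, ∑ u, c u v = c 0 ((p : ZMod q) * v)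
  dq : ∀ u, ∑ v, c u v = c ((q : ZMod p) * u) 0

lemma D2.swap {Q : Type*} [AddCommGroup Q] {c : ZMod p → ZMod q → Q} (h : D2 c) :
    D2 (fun v u => c u v) where
  neg := fun u v => h.neg v u
  zero := h.zero
  dp := h.dq
  dq := h.dp

/-- integral relations satisfied by the integral distributions -/
def Rel2 {p q : ℕ} [NeZero p] [NeZero q] (x : ZMod p → ZMod q → ℤ) : Prop :=
  ∀ g : ZMod p → ZMod q → ℤ, D2 g → ∑ u, ∑ v, x u v * g u v = 0

lemma Rel2.swap {x : ZMod p → ZMod q → ℤ} (h : Rel2 x) : Rel2 (fun v u => x u v) := by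
  intro g hg
  rw [sum_comm]
  exact h _ hg.swap

/-- the odd part -/
def yy (x : ZMod p → ZMod q → ℤ) (u : ZMod p) (v : ZMod q) : ℤ := x u v - x (-u) (-v)

lemma yy_neg (x : ZMod p → ZMod q → ℤ) (u : ZMod p) (v : ZMod q) : yy x (-u) (-v) = - yy x u v := by
  unfold yy; rw [neg_neg, neg_neg]; ring

/-- delta functions -/
def dl {n : ℕ} (a u : ZMod n) : ℤ := if u = a then 1 else 0

lemma dl_zero {n : ℕ} {a : ZMod n} (ha : a ≠ 0) : dl a 0 = 0 := by
  unfold dl; rw [if_neg (fun h => ha h.symm)]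

lemma dl_neg {n : ℕ} (a u : ZMod n) : dl a (-u) = dl (-a) u := by
  unfold dl
  by_cases h : u = -a
  · rw [if_pos h, if_pos (by rw [h, neg_neg])]
  · rw [if_neg h, if_neg (fun h' => h (by rw [← h', neg_neg]))]

lemma sum_dl {n : ℕ} [NeZero n] (a : ZMod n) : ∑ u, dl a u = 1 := by
  unfold dl; simp

lemma sum_mul_dl {n : ℕ} [NeZero n] (f : ZMod n → ℤ) (a : ZMod n) : ∑ u, f u * dl a u = f a := by
  unfold dl; simp

lemma sum_neg {n : ℕ} [NeZero n] {Q : Type*} [AddCommMonoid Q] (f : ZMod n → Q) :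
    ∑ u, f (-u) = ∑ u, f u := Equiv.sum_comp (Equiv.neg (ZMod n)) f

lemma test_sum (x D : ZMod p → ZMod q → ℤ) :
    ∑ u, ∑ v, x u v * (D u v - D (-u) (-v)) = ∑ u, ∑ v, yy x u v * D u v := by
  have h1 : ∑ u, ∑ v, x u v * D (-u) (-v) = ∑ u, ∑ v, x (-u) (-v) * D u v := by
    rw [← sum_neg (fun u => ∑ v, x u v * D (-u) (-v))]
    refine sum_congr rfl fun u _ => ?_
    rw [← sum_neg (fun v => x (-u) v * D (- -u) (-v))]
    refine sum_congr rfl fun v _ => ?_
    rw [neg_neg, neg_neg]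
  simp only [yy, mul_sub, sub_mul, sum_sub_distrib]
  rw [h1]

lemma mixed {x : ZMod p → ZMod q → ℤ} (hx : Rel2 x) {a a' : ZMod p} {b b' : ZMod q}
    (ha : a ≠ 0) (ha' : a' ≠ 0) (hb : b ≠ 0) (hb' : b' ≠ 0) :
    yy x a b - yy x a' b - yy x a b' + yy x a' b' = 0 := by
  set D : ZMod p → ZMod q → ℤ := fun u v => (dl a u - dl a' u) * (dl b v - dl b' v) with hD
  have hg : D2 (fun u v => D u v - D (-u) (-v)) := by
    refine ⟨?_, ?_, ?_, ?_⟩
    · intro u v
      simp only [neg_neg]; ring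
    · simp [hD, dl_zero ha, dl_zero ha', dl_zero hb, dl_zero hb']
    · intro v
      have h1 : ∀ w, ∑ u, D u w = 0 := by
        intro w
        simp only [hD]
        rw [← sum_mul, sum_sub_distrib, sum_dl, sum_dl]; ring
      rw [sum_sub_distrib, sum_neg (fun u => D u (-v)), h1, h1]
      simp [hD, dl_zero ha, dl_zero ha']
    · intro u
      have h1 : ∀ w, ∑ v, D w v = 0 := by
        intro w
        simp only [hD]
        rw [← mul_sum, sum_sub_distrib, sum_dl, sum_dl]; ring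
      rw [sum_sub_distrib, sum_neg (fun v => D (-u) v), h1, h1]
      simp [hD, dl_zero hb, dl_zero hb']
  have h1 := hx _ hg
  rw [test_sum] at h1
  have h2 : ∀ u, ∑ v, yy x u v * D u v = (yy x u b - yy x u b') * dl a u - (yy x u b - yy x u b') * dl a' u := by
    intro u
    have : ∀ v, yy x u v * D u v = (dl a u - dl a' u) * (yy x u v * dl b v) -
        (dl a u - dl a' u) * (yy x u v * dl b' v) := by
      intro v; simp only [hD]; ring
    rw [sum_congr rfl fun v _ => this v, sum_sub_distrib, ← mul_sum, ← mul_sum, sum_mul_dl,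
      sum_mul_dl]
    ring
  rw [sum_congr rfl fun u _ => h2 u, sum_sub_distrib, sum_mul_dl, sum_mul_dl] at h1
  linarith

/-- the row function -/
def AA (x : ZMod p → ZMod q → ℤ) (u : ZMod p) : ℤ := yy x u 1 + yy x u (-1)
/-- the column function -/
def BB (x : ZMod p → ZMod q → ℤ) (v : ZMod q) : ℤ := yy x 1 v + yy x (-1) v

lemma AA_neg (x : ZMod p → ZMod q → ℤ) (u : ZMod p) : AA x (-u) = - AA x u := by
  unfold AA
  have h1 := yy_neg x u 1
  have h2 := yy_neg x u (-1)
  rw [neg_neg] at h2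
  rw [h1, h2]; ring

lemma BB_neg (x : ZMod p → ZMod q → ℤ) (v : ZMod q) : BB x (-v) = - BB x v := by
  unfold BB
  have h1 := yy_neg x 1 v
  have h2 := yy_neg x (-1) v
  rw [neg_neg] at h2
  rw [h1, h2]; ring

lemma two_yy {x : ZMod p → ZMod q → ℤ} (hx : Rel2 x) {u : ZMod p} {v : ZMod q}
    (hu : u ≠ 0) (hv : v ≠ 0) : 2 * yy x u v = AA x u + BB x v := by
  have h1 := mixed hx hu (neg_ne_zero.mpr hu) (one_ne_zero : (1 : ZMod q) ≠ 0) hv
  have h2 := mixed hx (one_ne_zero : (1 : ZMod p) ≠ 0) hu hv (neg_ne_zero.mpr hv)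
  have e1 := yy_neg x u (-1)
  have e2 := yy_neg x u v
  have e3 := yy_neg x 1 v
  have e4 := yy_neg x u (-v)
  have e5 := yy_neg x (-1) v
  rw [neg_neg] at e1 e4 e5
  unfold AA BB
  linarith

lemma sum_lam {f : ZMod p → ℤ} (w : ZMod p) :
    ∑ u, f u * (dl w u - dl (-w) u) = f w - f (-w) := by
  simp only [mul_sub, sum_sub_distrib]
  rw [sum_mul_dl, sum_mul_dl]

lemma pq_ne (hpq : p ≠ q) : (q : ZMod p) ≠ 0 := by
  rw [Ne, ZMod.natCast_eq_zero_iff]
  intro h
  exact hpq ((Nat.prime_dvd_prime_iff_eq Fact.out Fact.out).mp h)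

lemma edge (hpq : p ≠ q) {x : ZMod p → ZMod q → ℤ} (hx : Rel2 x) {w : ZMod p} (hw : w ≠ 0) :
    2 * yy x w 0 = AA x w - AA x ((q : ZMod p)⁻¹ * w) := by
  classical
  have hqp := pq_ne (p := p) (q := q) hpq
  have hpq' := pq_ne (p := q) (q := p) (fun h => hpq h.symm)
  have hwm : -w ≠ 0 := neg_ne_zero.mpr hw
  set lam : ZMod p → ℤ := fun u => dl w u - dl (-w) u with hlam
  have hlneg : ∀ u, lam (-u) = - lam u := by
    intro u; simp only [hlam, dl_neg, neg_neg]; ring
  have hl0 : lam 0 = 0 := by simp [hlam, dl_zero hw, dl_zero hwm]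
  have hlsum : ∑ u, lam u = 0 := by simp only [hlam, sum_sub_distrib, sum_dl, sub_self]
  have hlsum' : ∑ u, lam ((q : ZMod p) * u) = 0 := by
    rw [← hlsum]
    exact Fintype.sum_bijective _ (mulLeft_bijective₀ _ hqp) _ _ fun u => rfl
  set g : ZMod p → ZMod q → ℤ := fun u v =>
    if v = 0 then ((q : ℤ) - 1) * lam u else lam ((q : ZMod p) * u) - lam u with hgdef
  have hcardq : ((univ.erase (0 : ZMod q)).card : ℤ) = (q : ℤ) - 1 := by
    rw [card_erase_of_mem (mem_univ _), card_univ, ZMod.card,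
      Nat.cast_sub (Fact.out : q.Prime).one_lt.le]
    simp
  have hg : D2 g := by
    refine ⟨?_, ?_, ?_, ?_⟩
    · intro u v
      simp only [hgdef, neg_eq_zero, mul_neg, hlneg]
      split_ifs <;> ring
    · simp [hgdef, hl0]
    · intro v
      by_cases hv : v = 0
      · simp only [hgdef, hv, mul_zero, if_true]
        rw [← mul_sum, hlsum, hl0]
      · have hpv : (p : ZMod q) * v ≠ 0 := mul_ne_zero hpq' hv
        simp only [hgdef, hv, hpv, if_false]
        rw [sum_sub_distrib, hlsum, hlsum', mul_zero, hl0]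
    · intro u
      have h1 : ∑ v, g u v = g u 0 + ∑ v ∈ univ.erase (0 : ZMod q), g u v :=
        (add_sum_erase _ _ (mem_univ _)).symm
      have h2 : ∑ v ∈ univ.erase (0 : ZMod q), g u v = ((q : ℤ) - 1) * (lam ((q : ZMod p) * u) - lam u) := by
        rw [sum_congr rfl (fun v hv => by
          simp only [hgdef]; rw [if_neg (ne_of_mem_erase hv)]), sum_const, nsmul_eq_mul, hcardq]
      rw [h1, h2]
      simp only [hgdef, if_true]
      ring
  have h1 := hx g hg
  set X : ZMod p → ℤ := fun u => ∑ v ∈ univ.erase (0 : ZMod q), x u v with hX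
  have h2 : ∀ u, ∑ v, x u v * g u v = ((q : ℤ) - 1) * (x u 0 * lam u) +
      (X u * lam ((q : ZMod p) * u) - X u * lam u) := by
    intro u
    rw [← add_sum_erase _ _ (mem_univ (0 : ZMod q))]
    have h3 : ∑ v ∈ univ.erase (0 : ZMod q), x u v * g u v =
        X u * (lam ((q : ZMod p) * u) - lam u) := by
      rw [hX, sum_mul]
      refine sum_congr rfl fun v hv => ?_
      simp only [hgdef]; rw [if_neg (ne_of_mem_erase hv)]
    rw [h3]
    simp only [hgdef, if_true]
    ring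
  rw [sum_congr rfl fun u _ => h2 u, sum_add_distrib, sum_sub_distrib, ← mul_sum] at h1
  have h4 : ∑ u, x u 0 * lam u = x w 0 - x (-w) 0 := sum_lam w
  have h5 : ∑ u, X u * lam u = X w - X (-w) := sum_lam w
  have h6 : ∑ u, X u * lam ((q : ZMod p) * u) = X ((q : ZMod p)⁻¹ * w) - X (-((q : ZMod p)⁻¹ * w)) := by
    have h7 : ∑ u, X u * lam ((q : ZMod p) * u) = ∑ u, X ((q : ZMod p)⁻¹ * u) * lam u := by
      refine (Fintype.sum_bijective _ (mulLeft_bijective₀ _ hqp) _ _ fun u => ?_)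
      rw [inv_mul_cancel_left₀ hqp]
    rw [h7, sum_lam (f := fun u => X ((q : ZMod p)⁻¹ * u)) w, mul_neg]
  rw [h4, h5, h6] at h1
  have hY : ∀ a : ZMod p, X a - X (-a) = ∑ v ∈ univ.erase (0 : ZMod q), yy x a v := by
    intro a
    simp only [yy, sum_sub_distrib, hX]
    congr 1
    refine sum_bij' (fun v _ => -v) (fun v _ => -v) ?_ ?_ ?_ ?_ ?_
    · intro v hv; exact mem_erase.mpr ⟨neg_ne_zero.mpr (ne_of_mem_erase hv), mem_univ _⟩
    · intro v hv; exact mem_erase.mpr ⟨neg_ne_zero.mpr (ne_of_mem_erase hv), mem_univ _⟩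
    · intro v _; exact neg_neg v
    · intro v _; exact neg_neg v
    · intro v _; rw [neg_neg]
  have hB : ∑ v ∈ univ.erase (0 : ZMod q), BB x v = 0 := by
    have h8 : ∑ v ∈ univ.erase (0 : ZMod q), BB x v = ∑ v ∈ univ.erase (0 : ZMod q), BB x (-v) := by
      refine sum_bij' (fun v _ => -v) (fun v _ => -v) ?_ ?_ ?_ ?_ ?_
      · intro v hv; exact mem_erase.mpr ⟨neg_ne_zero.mpr (ne_of_mem_erase hv), mem_univ _⟩
      · intro v hv; exact mem_erase.mpr ⟨neg_ne_zero.mpr (ne_of_mem_erase hv), mem_univ _⟩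
      · intro v _; exact neg_neg v
      · intro v _; exact neg_neg v
      · intro v _; rw [neg_neg]
    have h9 : ∑ v ∈ univ.erase (0 : ZMod q), BB x (-v) = - ∑ v ∈ univ.erase (0 : ZMod q), BB x v := by
      rw [← sum_neg_distrib]
      exact sum_congr rfl fun v _ => BB_neg x v
    linarith
  have hYA : ∀ a : ZMod p, a ≠ 0 →
      2 * ∑ v ∈ univ.erase (0 : ZMod q), yy x a v = ((q : ℤ) - 1) * AA x a := by
    intro a ha
    rw [mul_sum, sum_congr rfl fun v hv => two_yy hx ha (ne_of_mem_erase hv), sum_add_distrib, hB,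
      sum_const, nsmul_eq_mul, hcardq]
    ring
  have hqw : (q : ZMod p)⁻¹ * w ≠ 0 := mul_ne_zero (inv_ne_zero hqp) hw
  have e1 := hYA w hw
  have e2 := hYA _ hqw
  rw [hY, hY] at h1
  have hq1 : ((q : ℤ) - 1) ≠ 0 := by
    have := (Fact.out : q.Prime).one_lt
    omega
  have e3 : yy x w 0 = x w 0 - x (-w) 0 := by unfold yy; rw [neg_zero]
  rw [← e3] at h1
  apply mul_left_cancel₀ hq1
  linarith

/-- the relation holds when the row and column functions are even -/
theorem even_case (hp2 : p ≠ 2) (hq2 : q ≠ 2) (hpq : p ≠ q) {x : ZMod p → ZMod q → ℤ}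
    (hx : Rel2 x) (hA : ∀ u, u ≠ 0 → 2 ∣ AA x u) (hB : ∀ v, v ≠ 0 → 2 ∣ BB x v)
    {Q : Type*} [AddCommGroup Q] {c : ZMod p → ZMod q → Q} (hc : D2 c) :
    ∑ u, ∑ v, x u v • c u v = 0 := by
  classical
  have hqp := pq_ne (p := p) (q := q) hpq
  have hpq' := pq_ne (p := q) (q := p) (fun h => hpq h.symm)
  have hA0 : AA x 0 = 0 := by have := AA_neg x 0; rw [neg_zero] at this; linarith
  have hB0 : BB x 0 = 0 := by have := BB_neg x 0; rw [neg_zero] at this; linarith
  obtain ⟨α, hα⟩ : ∃ α : ZMod p → ℤ, ∀ u, AA x u = 2 * α u := by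
    refine ⟨fun u => AA x u / 2, fun u => ?_⟩
    by_cases hu : u = 0
    · simp [hu, hA0]
    · exact (Int.mul_ediv_cancel' (hA u hu)).symm
  obtain ⟨β, hβ⟩ : ∃ β : ZMod q → ℤ, ∀ v, BB x v = 2 * β v := by
    refine ⟨fun v => BB x v / 2, fun v => ?_⟩
    by_cases hv : v = 0
    · simp [hv, hB0]
    · exact (Int.mul_ediv_cancel' (hB v hv)).symm
  have hαn : ∀ u, α (-u) = - α u := by
    intro u; have := AA_neg x u; rw [hα, hα] at this; linarith
  have hβn : ∀ v, β (-v) = - β v := by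
    intro v; have := BB_neg x v; rw [hβ, hβ] at this; linarith
  have e1 : ∀ u v, u ≠ 0 → v ≠ 0 → yy x u v = α u + β v := by
    intro u v hu hv
    have := two_yy hx hu hv
    rw [hα, hβ] at this; linarith
  have e2 : ∀ u, u ≠ 0 → yy x u 0 = α u - α ((q : ZMod p)⁻¹ * u) := by
    intro u hu
    have := edge hpq hx hu
    rw [hα, hα] at this; linarith
  have e3 : ∀ v, v ≠ 0 → yy x 0 v = β v - β ((p : ZMod q)⁻¹ * v) := by
    intro v hv
    have h1 : 2 * yy x 0 v = BB x v - BB x ((p : ZMod q)⁻¹ * v) :=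
      edge (p := q) (q := p) (fun h => hpq h.symm) hx.swap hv
    rw [hβ, hβ] at h1; linarith
  have hcn : ∀ u v, c (-u) v = - c u (-v) := by
    intro u v
    have := hc.neg u (-v)
    rwa [neg_neg] at this
  have hH := half_HS (p := p) hp2
  have hK := half_HS (p := q) hq2
  set R : ZMod p → Q := fun u => ∑ v, x u v • c u v with hR
  have hRR : ∀ u, R u + R (-u) = ∑ v, yy x u v • c u v := by
    intro u
    have h1 : R (-u) = ∑ v, -(x (-u) (-v) • c u v) := by
      rw [hR]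
      simp only
      rw [← sum_neg (fun v => x (-u) v • c (-u) v)]
      refine sum_congr rfl fun v _ => ?_
      rw [hc.neg, smul_neg]
    rw [h1, hR, ← sum_add_distrib]
    refine sum_congr rfl fun v _ => ?_
    rw [← sub_eq_add_neg, ← sub_smul]
    rfl
  have hR0 : R 0 = ∑ v ∈ HS q, yy x 0 v • c 0 v := by
    rw [hR]
    simp only
    rw [← add_sum_erase _ _ (mem_univ (0 : ZMod q)), hc.zero, smul_zero, zero_add,
      hK.sum_all (fun v => x 0 v • c 0 v)]
    refine sum_congr rfl fun v _ => ?_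
    have h1 : c 0 (-v) = - c 0 v := by
      have := hc.neg 0 v
      rwa [neg_zero] at this
    rw [h1, smul_neg, ← sub_eq_add_neg, ← sub_smul]
    congr 1
    unfold yy; rw [neg_zero]
  have hrow : ∀ u, ∑ v ∈ univ.erase (0 : ZMod q), c u v = c ((q : ZMod p) * u) 0 - c u 0 := by
    intro u
    rw [← hc.dq u, ← add_sum_erase _ _ (mem_univ (0 : ZMod q))]; abel
  have hcol : ∀ v, ∑ u ∈ univ.erase (0 : ZMod p), c u v = c 0 ((p : ZMod q) * v) - c 0 v := by
    intro v
    rw [← hc.dp v, ← add_sum_erase _ _ (mem_univ (0 : ZMod p))]; abel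
  have hmain : ∀ u ∈ HS p, ∑ v, yy x u v • c u v =
      (α u • c ((q : ZMod p) * u) 0 - α ((q : ZMod p)⁻¹ * u) • c u 0) +
        ∑ v ∈ univ.erase (0 : ZMod q), β v • c u v := by
    intro u hu
    have hu0 := hH.ne u hu
    rw [← add_sum_erase _ _ (mem_univ (0 : ZMod q)), e2 u hu0]
    have h1 : ∑ v ∈ univ.erase (0 : ZMod q), yy x u v • c u v =
        α u • ∑ v ∈ univ.erase (0 : ZMod q), c u v + ∑ v ∈ univ.erase (0 : ZMod q), β v • c u v := by
      rw [smul_sum, ← sum_add_distrib]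
      refine sum_congr rfl fun v hv => ?_
      rw [e1 u v hu0 (ne_of_mem_erase hv), add_smul]
    rw [h1, hrow, sub_smul, smul_sub]
    abel
  have hz1 : ∑ u ∈ HS p, (α u • c ((q : ZMod p) * u) 0 - α ((q : ZMod p)⁻¹ * u) • c u 0) = 0 := by
    rw [sum_sub_distrib, sub_eq_zero]
    have h1 := hH.sum_mul hqp (fun u => α ((q : ZMod p)⁻¹ * u) • c u 0) (by
      intro u
      rw [mul_neg, hαn, hcn, neg_zero, neg_smul, smul_neg, neg_neg])
    rw [← h1]
    refine sum_congr rfl fun u _ => ?_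
    rw [inv_mul_cancel_left₀ hqp]
  have hz2 : ∑ v ∈ HS q, (β v • c 0 ((p : ZMod q) * v) - β ((p : ZMod q)⁻¹ * v) • c 0 v) = 0 := by
    rw [sum_sub_distrib, sub_eq_zero]
    have h1 := hK.sum_mul hpq' (fun v => β ((p : ZMod q)⁻¹ * v) • c 0 v) (by
      intro v
      have h2 : c 0 (-v) = - c 0 v := by
        have := hc.neg 0 v
        rwa [neg_zero] at this
      rw [mul_neg, hβn, h2, neg_smul, smul_neg, neg_neg])
    rw [← h1]
    refine sum_congr rfl fun v _ => ?_
    rw [inv_mul_cancel_left₀ hpq']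
  have hcross : ∑ u ∈ HS p, ∑ v ∈ univ.erase (0 : ZMod q), β v • c u v =
      ∑ v ∈ HS q, β v • (c 0 ((p : ZMod q) * v) - c 0 v) := by
    rw [sum_comm, hK.sum_all (fun v => ∑ u ∈ HS p, β v • c u v)]
    refine sum_congr rfl fun v _ => ?_
    rw [← hcol, hH.sum_all (fun u => c u v), ← smul_sum, ← smul_sum, hβn, sum_add_distrib, smul_add]
    congr 1
    rw [neg_smul, ← smul_neg, ← sum_neg_distrib]
    congr 1
    refine sum_congr rfl fun u _ => ?_
    rw [hcn]
  have hS : ∑ u, ∑ v, x u v • c u v = R 0 + ∑ u ∈ HS p, (R u + R (-u)) := by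
    rw [← hH.sum_all, add_sum_erase _ _ (mem_univ (0 : ZMod p))]
  rw [hS, sum_congr rfl fun u _ => hRR u, sum_congr rfl hmain, sum_add_distrib, hz1, zero_add,
    hcross, hR0, ← hz2, ← sum_add_distrib]
  refine sum_congr rfl fun v hv => ?_
  rw [e3 v (hK.ne v hv), sub_smul, smul_sub]
  abel

/-- **Relations in two coordinates.** -/
theorem two_core (hp2 : p ≠ 2) (hq2 : q ≠ 2) (hpq : p ≠ q) (hleg : legendreSym p q = -1)
    {x : ZMod p → ZMod q → ℤ} (hx : Rel2 x) (hev : 2 ∣ ∑ u ∈ univ.erase (0 : ZMod p), x u 0)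
    {Q : Type*} [AddCommGroup Q] {c : ZMod p → ZMod q → Q} (hc : D2 c) :
    ∑ u, ∑ v, x u v • c u v = 0 := by
  classical
  have h11 : ∀ u v, u ≠ 0 → v ≠ 0 → (2 ∣ AA x u ↔ 2 ∣ BB x v) := by
    intro u v hu hv
    have := two_yy hx hu hv
    omega
  by_cases h : 2 ∣ AA x 1
  · have hB : ∀ v, v ≠ 0 → 2 ∣ BB x v := fun v hv => (h11 1 v one_ne_zero hv).mp h
    exact even_case hp2 hq2 hpq hx (fun u hu => (h11 u 1 hu one_ne_zero).mpr (hB 1 one_ne_zero)) hB hc
  · exfalso
    have hodd : ∀ u, u ≠ 0 → ¬ 2 ∣ AA x u := by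
      intro u hu h1
      exact h ((h11 1 1 one_ne_zero one_ne_zero).mpr ((h11 u 1 hu one_ne_zero).mp h1))
    have h1 := gauss_parity hp2 (pq_ne hpq) hleg (AA_neg x) hodd
      (y := fun u => yy x u 0) (fun u hu => edge hpq hx hu)
    apply h1
    rw [(half_HS hp2).sum_all] at hev
    have h2 : ∑ u ∈ HS p, (x u 0 + x (-u) 0) = ∑ u ∈ HS p, yy x u 0 + 2 * ∑ u ∈ HS p, x (-u) 0 := by
      rw [mul_sum, ← sum_add_distrib]
      refine sum_congr rfl fun u _ => ?_
      unfold yy; rw [neg_zero]; ring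
    rw [h2] at hev
    exact (Int.dvd_add_left (Dvd.intro _ rfl)).mp hev

end Pool.Agent.H916K
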