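import Pool.Agent.H916K.Sign

/-!
# A valuation of the complex numbers above a prime
-/

namespace Pool.Agent.H916K

open Finset

/-- residue map and valuation above `ℓ` -/
theorem exists_val {ℓ : ℕ} (hℓ : ℓ.Prime) :
    ∃ (k : Type) (_ : Field k) (_ : CharP k ℓ) (φ : AI →+* k) (Γ : Type)
      (_ : LinearOrderedCommGroupWithZero Γ) (v : Valuation ℂ Γ),
      (∀ x : AI, v (x : ℂ) ≤ 1) ∧ (∀ x : AI, φ x = 0 → v (x : ℂ) < 1) ∧
        (∀ x : AI, φ x ≠ 0 → v (x : ℂ) = 1) := by
  obtain ⟨k, hk1, hk2, ⟨φ0⟩⟩ := exists_red hℓ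
  -- replace the field by the quotient by the kernel, which is a maximal ideal
  have hprime : (RingHom.ker φ0).IsPrime := RingHom.ker_isPrime φ0
  have hmax : (RingHom.ker φ0).IsMaximal := by
    have hcomap : Ideal.comap (algebraMap ℤ AI) (RingHom.ker φ0) = Ideal.span {(ℓ : ℤ)} := by
      ext x
      rw [Ideal.mem_comap, RingHom.mem_ker, Ideal.mem_span_singleton]
      have h1 : φ0 (algebraMap ℤ AI x) = (x : k) := by simp
      rw [h1, CharP.intCast_eq_zero_iff k ℓ]
    have : (Ideal.comap (algebraMap ℤ AI) (RingHom.ker φ0)).IsMaximal := by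
      rw [hcomap]
      exact PrincipalIdealRing.isMaximal_of_irreducible (p := (ℓ : ℤ))
        (Nat.prime_iff_prime_int.mp hℓ).irreducible
    exact Ideal.isMaximal_of_isIntegral_of_isMaximal_comap _ this
  set A : Subring ℂ := (integralClosure ℤ ℂ).toSubring with hA
  let f : A →+* AI :=
    { toFun := fun x => ⟨x.1, x.2⟩
      map_one' := rfl
      map_mul' := fun _ _ => rfl
      map_zero' := rfl
      map_add' := fun _ _ => rfl }
  set I : Ideal A := Ideal.comap f (RingHom.ker φ0) with hI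
  have hItop : I ≠ ⊤ := Ideal.comap_ne_top f hprime.ne_top
  obtain ⟨B, hAB, hIB⟩ := Ideal.image_subset_nonunits_valuationSubring I hItop
  have h1 : ∀ x : AI, B.valuation (x : ℂ) ≤ 1 := by
    intro x
    rw [ValuationSubring.valuation_le_one_iff]
    exact hAB x.2
  have h2 : ∀ x : AI, φ0 x = 0 → B.valuation (x : ℂ) < 1 := by
    intro x hx
    rw [← ValuationSubring.mem_nonunits_iff]
    apply hIB
    exact ⟨⟨x.1, x.2⟩, hx, rfl⟩
  refine ⟨k, hk1, hk2, φ0, B.ValueGroup, inferInstance, B.valuation, h1, h2, ?_⟩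
  intro x hx
  obtain ⟨y, hy⟩ := (Ideal.Quotient.maximal_ideal_iff_isField_quotient _).mp hmax |>.mul_inv_cancel
    (a := Ideal.Quotient.mk _ x) (by
      intro h
      rw [Ideal.Quotient.eq_zero_iff_mem, RingHom.mem_ker] at h
      exact hx h)
  obtain ⟨y, rfl⟩ := Ideal.Quotient.mk_surjective y
  rw [← map_mul, ← map_one (Ideal.Quotient.mk (RingHom.ker φ0)), Ideal.Quotient.eq, RingHom.mem_ker] at hy
  have h3 := h2 _ hy
  have h4 : B.valuation (((x * y : AI) : ℂ)) = 1 := by
    have h5 : ((x * y : AI) : ℂ) = ((x * y - 1 : AI) : ℂ) + 1 := by push_cast; ring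
    rw [h5]
    exact Valuation.map_one_add_of_lt (v := B.valuation) (x := ((x * y - 1 : AI) : ℂ)) h3 ▸ by
      rw [add_comm]
  have h5 : ((x * y : AI) : ℂ) = (x : ℂ) * (y : ℂ) := by push_cast; ring
  rw [h5, map_mul] at h4
  apply le_antisymm (h1 x)
  rw [← h4]
  exact mul_le_of_le_one_right' (h1 y)

end Pool.Agent.H916K
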